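import Mathlib

set_option autoImplicit false
set_option maxHeartbeats 4000000

namespace Pool.Agent.Helper737.QF

open Set Function

/-! ### part B: the space l_1 -/

abbrev HH := lp (fun _ : ℕ => ℝ) 2

abbrev L1 (ι : Type) := lp (fun _ : ι => ℝ) 1

open Classical in
noncomputable def e1 {ι : Type} (i : ι) : L1 ι := lp.single 1 i (1 : ℝ)

theorem e1_self {ι : Type} (i : ι) : e1 i i = 1 := by
  classical
  unfold e1
  exact lp.single_apply_self (E := fun _ : ι => ℝ) 1 i (1 : ℝ)

theorem e1_ne {ι : Type} {i j : ι} (h : j ≠ i) : e1 i j = 0 := by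
  classical
  unfold e1
  exact lp.single_apply_ne (E := fun _ : ι => ℝ) 1 i (1 : ℝ) h

theorem e1_norm {ι : Type} (i : ι) : ‖e1 i‖ = 1 := by
  classical
  unfold e1
  rw [lp.norm_single (E := fun _ : ι => ℝ) (by norm_num) i (1 : ℝ)]
  norm_num

theorem l1_summable {ι : Type} (t : L1 ι) : Summable fun i => |t i| := by
  have h := (lp.memℓp t).summable (by norm_num)
  simpa using h

theorem l1_norm {ι : Type} (t : L1 ι) : ‖t‖ = ∑' i, |t i| := by
  have h := lp.norm_eq_tsum_rpow (p := 1) (by norm_num) t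
  simpa using h

open Classical in
theorem e1_smul {ι : Type} (i : ι) (c : ℝ) : c • e1 i = lp.single (E := fun _ : ι => ℝ) 1 i c := by
  unfold e1
  have h := lp.single_smul (E := fun _ : ι => ℝ) (𝕜 := ℝ) 1 i c (1 : ℝ)
  rw [smul_eq_mul, mul_one] at h
  exact h.symm

theorem l1_ext {ι Y : Type} [NormedAddCommGroup Y] [NormedSpace ℝ Y] {T T' : L1 ι →L[ℝ] Y}
    (h : ∀ i, T (e1 i) = T' (e1 i)) : T = T' := by
  classical
  refine lp.ext_continuousLinearMap (by norm_num) fun i => ?_
  ext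
  show T (lp.single 1 i (1 : ℝ)) = T' (lp.single 1 i (1 : ℝ))
  have h1 := h i
  unfold e1 at h1
  exact h1

theorem l1_approx {ι : Type} (t : L1 ι) {ε : ℝ} (hε : 0 < ε) :
    ∃ F : Finset ι, ‖t - ∑ i ∈ F, t i • e1 i‖ ≤ ε := by
  classical
  have h := lp.hasSum_single (E := fun _ : ι => ℝ) (p := 1) (by norm_num) t
  rw [HasSum, Metric.tendsto_nhds] at h
  obtain ⟨F, hF⟩ := (h ε hε).exists
  refine ⟨F, ?_⟩
  rw [dist_comm, dist_eq_norm] at hF
  have h2 : (∑ i ∈ F, t i • e1 i) = ∑ i ∈ F, lp.single (E := fun _ : ι => ℝ) 1 i (t i) :=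
    Finset.sum_congr rfl fun i _ => e1_smul i (t i)
  rw [h2]
  exact hF.le

theorem exists_lift {ι Y : Type} [NormedAddCommGroup Y] [NormedSpace ℝ Y] [CompleteSpace Y]
    (y : ι → Y) (C : ℝ) (hC : 0 ≤ C) (h : ∀ i, ‖y i‖ ≤ C) :
    ∃ T : L1 ι →L[ℝ] Y, (∀ i, T (e1 i) = y i) ∧ (∀ t, HasSum (fun i => t i • y i) (T t)) ∧
      ∀ t, ‖T t‖ ≤ C * ‖t‖ := by
  have hb : ∀ (t : L1 ι) i, ‖t i • y i‖ ≤ C * |t i| := by
    intro t i
    rw [norm_smul, Real.norm_eq_abs, mul_comm]
    exact mul_le_mul_of_nonneg_right (h i) (abs_nonneg _)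
  have hs : ∀ t : L1 ι, Summable (fun i => t i • y i) := fun t =>
    Summable.of_norm_bounded (g := fun i => C * |t i|) ((l1_summable t).mul_left C) (hb t)
  let T0 : L1 ι →ₗ[ℝ] Y :=
    { toFun := fun t => ∑' i, t i • y i
      map_add' := by
        intro s t
        rw [← (hs s).tsum_add (hs t)]
        apply tsum_congr
        intro i
        rw [lp.coeFn_add, Pi.add_apply, add_smul]
      map_smul' := by
        intro c t
        rw [RingHom.id_apply, ← (hs t).tsum_const_smul c]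
        apply tsum_congr
        intro i
        rw [lp.coeFn_smul, Pi.smul_apply, smul_eq_mul, mul_smul] }
  have hT0 : ∀ t, ‖T0 t‖ ≤ C * ‖t‖ := by
    intro t
    have h1 : T0 t = ∑' i, t i • y i := rfl
    rw [h1, l1_norm, ← tsum_mul_left]
    exact tsum_of_norm_bounded ((l1_summable t).mul_left C).hasSum (hb t)
  refine ⟨T0.mkContinuous C hT0, ?_, ?_, ?_⟩
  · intro i
    show ∑' j, (e1 i) j • y j = y i
    rw [tsum_eq_single i]
    · rw [e1_self, one_smul]
    · intro j hj
      rw [e1_ne hj, zero_smul]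
  · intro t
    exact (hs t).hasSum
  · exact hT0

theorem exists_bil_aux (a b m C : ℝ) (h : |m| ≤ C) : ‖a * b * m‖ ≤ |a| * |b| * C := by
  rw [Real.norm_eq_abs, abs_mul, abs_mul]
  exact mul_le_mul_of_nonneg_left h (by positivity)

theorem exists_bil_summ {ι κ : Type} (a : ι → ℝ) (b : κ → ℝ) (M : ι → κ → ℝ) (C : ℝ)
    (ha : Summable fun i => |a i|) (hb : Summable fun j => |b j|) (hM : ∀ i j, |M i j| ≤ C) :
    Summable (fun p : ι × κ => a p.1 * b p.2 * M p.1 p.2) := by
  have h1 : Summable (fun p : ι × κ => |a p.1| * |b p.2|) :=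
    Summable.mul_of_nonneg ha hb (fun i => abs_nonneg _) (fun j => abs_nonneg _)
  refine Summable.of_norm_bounded (h1.mul_right C) ?_
  intro p
  exact exists_bil_aux _ _ _ _ (hM p.1 p.2)

theorem exists_bil_sum {ι κ : Type} (a : ι → ℝ) (b : κ → ℝ) (M : ι → κ → ℝ) (C : ℝ)
    (ha : Summable fun i => |a i|) (hb : Summable fun j => |b j|) (hM : ∀ i j, |M i j| ≤ C)
    (g : ι → ℝ) (hg : ∀ i, HasSum (fun j => b j * M i j) (g i)) (c : ℝ)
    (hc : HasSum (fun i => a i * g i) c) :
    HasSum (fun p : ι × κ => a p.1 * b p.2 * M p.1 p.2) c := by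
  have hsum := exists_bil_summ a b M C ha hb hM
  have hfib : ∀ i, HasSum (fun j => a i * b j * M i j) (a i * g i) := by
    intro i
    have h2 := (hg i).mul_left (a i)
    have h3 : (fun j => a i * (b j * M i j)) = (fun j => a i * b j * M i j) := by
      funext j
      ring
    rwa [h3] at h2
  have h3 := HasSum.prod_fiberwise hsum.hasSum hfib
  have h6 := h3.unique hc
  rw [← h6]
  exact hsum.hasSum

theorem exists_bil {ι κ : Type} (M : ι → κ → ℝ) (C : ℝ) (hC : 0 ≤ C) (hM : ∀ i j, |M i j| ≤ C) :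
    ∃ B : L1 ι →L[ℝ] L1 κ →L[ℝ] ℝ, (∀ i j, B (e1 i) (e1 j) = M i j) ∧
      ∀ t t', HasSum (fun p : ι × κ => t p.1 * t' p.2 * M p.1 p.2) (B t t') := by
  have hφ : ∀ i, ∃ T : L1 κ →L[ℝ] ℝ, (∀ j, T (e1 j) = M i j) ∧
      (∀ t, HasSum (fun j => t j • M i j) (T t)) ∧ ∀ t, ‖T t‖ ≤ C * ‖t‖ := fun i =>
    exists_lift (fun j => M i j) C hC (fun j => by rw [Real.norm_eq_abs]; exact hM i j)
  choose φ hφ1 hφ2 hφ3 using hφ
  have hφn : ∀ i, ‖φ i‖ ≤ C := fun i => ContinuousLinearMap.opNorm_le_bound _ hC (hφ3 i)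
  obtain ⟨B, hB1, hB2, -⟩ := exists_lift (ι := ι) (Y := L1 κ →L[ℝ] ℝ) φ C hC hφn
  refine ⟨B, fun i j => by rw [hB1, hφ1], fun t t' => ?_⟩
  have h4 : HasSum (fun i => t i * φ i t') (B t t') := by
    have h5 := (ContinuousLinearMap.apply ℝ ℝ t').hasSum (hB2 t)
    exact h5
  exact exists_bil_sum (fun i => t i) (fun j => t' j) M C (l1_summable t) (l1_summable t') hM
    (fun i => φ i t') (fun i => hφ2 i t') _ h4

theorem HH_sep : TopologicalSpace.SeparableSpace HH := by
  rw [← TopologicalSpace.isSeparable_univ_iff]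
  have h1 : (Set.range (fun k : ℕ => (lp.single 2 k (1 : ℝ) : HH))).Countable := Set.countable_range _
  have h2 : TopologicalSpace.IsSeparable
      (closure (Submodule.span ℝ (Set.range (fun k : ℕ => (lp.single 2 k (1 : ℝ) : HH))) : Set HH)) :=
    (h1.isSeparable.span (R := ℝ)).closure
  refine h2.mono ?_
  intro x _
  have h3 := lp.hasSum_single (p := 2) ENNReal.ofNat_ne_top x
  refine mem_closure_of_tendsto h3 (Filter.Eventually.of_forall (fun s => ?_))
  refine Submodule.sum_mem _ (fun k _ => ?_)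
  have h4 : (lp.single 2 k (x k) : HH) = x k • (lp.single 2 k (1 : ℝ) : HH) := by
    rw [← lp.single_smul]
    simp
  rw [h4]
  exact Submodule.smul_mem _ _ (Submodule.subset_span ⟨k, rfl⟩)

theorem exists_quot_bil {L : Type} [NormedAddCommGroup L] [NormedSpace ℝ L] (K : Submodule ℝ L)
    [IsClosed (K : Set L)] (B : L →L[ℝ] L →L[ℝ] ℝ) (h1 : ∀ t ∈ K, ∀ t', B t t' = 0)
    (h2 : ∀ t ∈ K, ∀ t', B t' t = 0) :
    ∃ B' : (L ⧸ K) →L[ℝ] (L ⧸ K) →L[ℝ] ℝ,
      ∀ t t', B' (Submodule.Quotient.mk t) (Submodule.Quotient.mk t') = B t t' := by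
  have hk1 : K ≤ B.ker := by
    intro t ht
    rw [LinearMap.mem_ker]
    exact ContinuousLinearMap.ext fun t' => h1 t ht t'
  obtain ⟨B1, hB1⟩ : ∃ B1 : (L ⧸ K) →L[ℝ] L →L[ℝ] ℝ,
      ∀ t, B1 (Submodule.Quotient.mk t) = B t :=
    ⟨K.liftQL B hk1, fun t => by
      rw [Submodule.liftQL_apply]; exact Submodule.liftQ_apply _ _ _⟩
  have hk2 : K ≤ B1.flip.ker := by
    intro t ht
    rw [LinearMap.mem_ker]
    refine ContinuousLinearMap.ext fun q => ?_
    obtain ⟨t', rfl⟩ := Submodule.Quotient.mk_surjective K q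
    show B1.flip t (Submodule.Quotient.mk t') = 0
    rw [ContinuousLinearMap.flip_apply, hB1]
    exact h2 t ht t'
  obtain ⟨B2, hB2⟩ : ∃ B2 : (L ⧸ K) →L[ℝ] (L ⧸ K) →L[ℝ] ℝ,
      ∀ t, B2 (Submodule.Quotient.mk t) = B1.flip t :=
    ⟨K.liftQL B1.flip hk2, fun t => by
      rw [Submodule.liftQL_apply]; exact Submodule.liftQ_apply _ _ _⟩
  refine ⟨B2.flip, fun t t' => ?_⟩
  rw [ContinuousLinearMap.flip_apply, hB2, ContinuousLinearMap.flip_apply, hB1]

/-! ### part C: the parameters -/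

structure Par (I : Type) [LinearOrder I] where
  c : I → I → ℝ
  c_comm : ∀ a b, c a b = c b a
  c_abs : ∀ a b, |c a b| ≤ 1
  τ : I → I → ℝ
  τ_pos : ∀ s a, 0 < τ s a
  τ_sum : ∀ a (F : Finset I), (∀ s ∈ F, s < a) → ∑ s ∈ F, τ s a ≤ 2
  h : I × I → HH
  h_norm : ∀ π, ‖h π‖ ≤ 1

open Classical in
def IsoProp {I : Type} (h : I × I → HH) : Prop :=
  ∀ (y : L1 (I × I)) (π₀ : I × I), y π₀ = 1 → ∃ κ > (0 : ℝ), ∃ ε > (0 : ℝ),
    ∀ y' : L1 (I × I), ‖y' - y‖ ≤ ε → ∀ P : Finset (I × I), (∀ π ∉ P, y' π = 0) →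
      ∀ E : Finset I, π₀.2 ∈ E → κ ≤ ‖∑ π ∈ P, (if π.2 ∈ E then y' π • h π else 0)‖

theorem eh_bound (g : ℕ → ℝ) (hg : ∀ k, |g k| ≤ (1 / 2 : ℝ) ^ (k + 1)) :
    ∃ x : HH, (∀ k, x k = g k) ∧ ‖x‖ ≤ 1 := by
  have h2 : (2 : ENNReal).toReal = 2 := by norm_num
  have hle : ∀ k, ‖g k‖ ^ (2 : ENNReal).toReal ≤ (1 / 2 : ℝ) * (1 / 2 : ℝ) ^ k := by
    intro k
    rw [h2, Real.rpow_two, Real.norm_eq_abs]
    have h3 := hg k
    have h4 : (1 / 2 : ℝ) ^ (k + 1) ≤ 1 := pow_le_one₀ (by norm_num) (by norm_num)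
    have h5 : |g k| ^ 2 ≤ |g k| := by
      have := abs_nonneg (g k)
      nlinarith
    calc |g k| ^ 2 ≤ |g k| := h5
      _ ≤ (1 / 2 : ℝ) ^ (k + 1) := h3
      _ = (1 / 2 : ℝ) * (1 / 2 : ℝ) ^ k := by rw [pow_succ]; ring
  have hsum : Summable fun k : ℕ => (1 / 2 : ℝ) * (1 / 2 : ℝ) ^ k :=
    summable_geometric_two.mul_left _
  have hs : Summable fun k : ℕ => ‖g k‖ ^ (2 : ENNReal).toReal :=
    Summable.of_nonneg_of_le (fun k => Real.rpow_nonneg (norm_nonneg _) _) hle hsum
  have hm : Memℓp g 2 := memℓp_gen hs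
  refine ⟨⟨g, hm⟩, fun k => rfl, ?_⟩
  refine lp.norm_le_of_tsum_le (by rw [h2]; norm_num) zero_le_one ?_
  rw [h2, Real.one_rpow]
  have h6 : ∑' k : ℕ, (1 / 2 : ℝ) * (1 / 2 : ℝ) ^ k = 1 := by
    rw [tsum_mul_left, tsum_geometric_two]; norm_num
  rw [← h6]
  rw [h2] at hs hle
  exact hs.tsum_le_tsum hle hsum

theorem exists_h {I : Type} (ρ : I → ℝ) (hρ : Injective ρ) :
    ∃ h : I × I → HH, (∀ π, ‖h π‖ ≤ 1) ∧ IsoProp h := by
  classical
  have hbasis := TopologicalSpace.isBasis_countableBasis (ℝ × ℝ)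
  obtain ⟨b, hb⟩ := (TopologicalSpace.countable_countableBasis (ℝ × ℝ)).exists_eq_range
    (by
      obtain ⟨v, hv, -, -⟩ := hbasis.exists_subset_of_mem_open (Set.mem_univ ((0, 0) : ℝ × ℝ))
        isOpen_univ
      exact ⟨v, hv⟩)
  set im : I × I → ℝ × ℝ := fun π => (ρ π.1, ρ π.2) with him
  have himj : Injective im := by
    rintro ⟨a, c⟩ ⟨a', c'⟩ h
    have h1 := Prod.ext_iff.1 h
    exact Prod.ext (hρ h1.1) (hρ h1.2)
  set φ : ℕ → I × I → ℝ := fun k π => if im π ∈ b k then 1 else 0 with hφ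
  have hφ1 : ∀ k π, |φ k π| ≤ 1 := by
    intro k π
    simp only [hφ]
    split_ifs <;> norm_num
  have hex : ∀ π : I × I, ∃ x : HH, (∀ k, x k = (1 / 2 : ℝ) ^ (k + 1) * φ k π) ∧ ‖x‖ ≤ 1 := by
    intro π
    refine eh_bound _ fun k => ?_
    rw [abs_mul, abs_of_nonneg (by positivity : (0 : ℝ) ≤ (1 / 2 : ℝ) ^ (k + 1))]
    exact mul_le_of_le_one_right (by positivity) (hφ1 k π)
  choose h hh hh1 using hex
  refine ⟨h, hh1, ?_⟩
  intro y π₀ hy
  -- finite part
  have hys := l1_summable y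
  obtain ⟨S0, hS0⟩ := (Metric.tendsto_atTop.1 hys.hasSum) (1 / 4) (by norm_num)
  set T : Finset (I × I) := insert π₀ S0 with hT
  have hT1 : ∑' π, |y π| - 1 / 4 ≤ ∑ π ∈ T, |y π| := by
    have h1 := hS0 T (Finset.subset_insert _ _)
    rw [Real.dist_eq] at h1
    have h2 := (abs_lt.1 h1).1
    linarith
  have hout : ∀ P : Finset (I × I), ∑ π ∈ P \ T, |y π| ≤ 1 / 4 := by
    intro P
    have h1 : ∑ π ∈ P \ T, |y π| + ∑ π ∈ T, |y π| = ∑ π ∈ (P \ T) ∪ T, |y π| :=
      (Finset.sum_union Finset.sdiff_disjoint).symm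
    have h2 : ∑ π ∈ (P \ T) ∪ T, |y π| ≤ ∑' π, |y π| :=
      hys.sum_le_tsum _ (fun _ _ => abs_nonneg _)
    linarith
  set S : Finset (I × I) := T.erase π₀ with hS
  have hFc : IsOpen ((S.image im : Finset (ℝ × ℝ)) : Set (ℝ × ℝ))ᶜ :=
    (Finset.finite_toSet _).isClosed.isOpen_compl
  have hp0 : im π₀ ∈ ((S.image im : Finset (ℝ × ℝ)) : Set (ℝ × ℝ))ᶜ := by
    intro hmem
    obtain ⟨π, hπ, hπ2⟩ := Finset.mem_image.1 (Finset.mem_coe.1 hmem)
    have := himj hπ2
    rw [this, hS] at hπ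
    exact Finset.notMem_erase _ _ hπ
  obtain ⟨v, hv, hpv, hvF⟩ := hbasis.exists_subset_of_mem_open hp0 hFc
  rw [hb] at hv
  obtain ⟨k, rfl⟩ := hv
  have hφ0 : φ k π₀ = 1 := if_pos hpv
  have hφS : ∀ π ∈ S, φ k π = 0 := by
    intro π hπ
    refine if_neg fun hmem => ?_
    exact hvF hmem (Finset.mem_coe.2 (Finset.mem_image_of_mem im hπ))
  refine ⟨(1 / 2 : ℝ) ^ (k + 1) / 4, by positivity, 1 / 4, by norm_num, ?_⟩
  intro y' hyy' P hP E hE
  have hsub : ∀ π, (y' - y) π = y' π - y π := fun π => rfl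
  have hd0 : |y' π₀ - y π₀| ≤ 1 / 4 := by
    have h1 := lp.norm_apply_le_norm (p := 1) one_ne_zero (y' - y) π₀
    rw [hsub, Real.norm_eq_abs] at h1
    exact h1.trans hyy'
  have hy'0 : 3 / 4 ≤ y' π₀ := by
    rw [hy] at hd0
    have := (abs_le.1 hd0).1
    linarith
  have hπP : π₀ ∈ P := by
    by_contra hcon
    have := hP π₀ hcon
    linarith
  have hdsum : ∀ P' : Finset (I × I), ∑ π ∈ P', |y' π - y π| ≤ 1 / 4 := by
    intro P'
    have h1 := (l1_summable (y' - y)).sum_le_tsum P' (fun _ _ => abs_nonneg _)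
    rw [← l1_norm] at h1
    exact h1.trans hyy'
  set A : ℝ := ∑ π ∈ P, (if π.2 ∈ E then y' π * φ k π else 0) with hA
  have hcoord : (∑ π ∈ P, (if π.2 ∈ E then y' π • h π else 0) : HH) k =
      (1 / 2 : ℝ) ^ (k + 1) * A := by
    rw [lp.coeFn_sum, Finset.sum_apply, hA, Finset.mul_sum]
    refine Finset.sum_congr rfl fun π _ => ?_
    by_cases hπ : π.2 ∈ E
    · rw [if_pos hπ, if_pos hπ, lp.coeFn_smul, Pi.smul_apply, hh, smul_eq_mul]
      ring
    · rw [if_neg hπ, if_neg hπ, mul_zero]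
      rfl
  have hAlow : 1 / 4 ≤ A := by
    rw [hA, ← Finset.add_sum_erase P _ hπP, if_pos hE, hφ0, mul_one]
    have h1 : |∑ π ∈ P.erase π₀, (if π.2 ∈ E then y' π * φ k π else 0)| ≤
        ∑ π ∈ P \ T, |y' π| := by
      calc |∑ π ∈ P.erase π₀, (if π.2 ∈ E then y' π * φ k π else 0)|
          ≤ ∑ π ∈ P.erase π₀, |if π.2 ∈ E then y' π * φ k π else 0| :=
            Finset.abs_sum_le_sum_abs _ _
        _ ≤ ∑ π ∈ P.erase π₀, (if π ∉ T then |y' π| else 0) := by
            refine Finset.sum_le_sum fun π hπ => ?_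
            have hne : π ≠ π₀ := (Finset.mem_erase.1 hπ).1
            by_cases hT' : π ∈ T
            · rw [if_neg (not_not.2 hT'), hφS π (Finset.mem_erase.2 ⟨hne, hT'⟩)]
              simp
            · rw [if_pos hT']
              split_ifs
              · rw [abs_mul]
                exact mul_le_of_le_one_right (abs_nonneg _) (hφ1 k π)
              · rw [abs_zero]; exact abs_nonneg _
        _ = ∑ π ∈ P \ T, |y' π| := by
            rw [← Finset.sum_filter]
            refine Finset.sum_congr ?_ fun _ _ => rfl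
            ext π
            rw [Finset.mem_filter, Finset.mem_erase, Finset.mem_sdiff]
            constructor
            · rintro ⟨⟨-, h2⟩, h3⟩
              exact ⟨h2, h3⟩
            · rintro ⟨h2, h3⟩
              refine ⟨⟨?_, h2⟩, h3⟩
              rintro rfl
              exact h3 (Finset.mem_insert_self _ _)
    have h2 : ∑ π ∈ P \ T, |y' π| ≤ 1 / 4 + 1 / 4 := by
      calc ∑ π ∈ P \ T, |y' π| ≤ ∑ π ∈ P \ T, (|y π| + |y' π - y π|) := by
            refine Finset.sum_le_sum fun π _ => ?_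
            have h3 : y' π = y π + (y' π - y π) := by ring
            calc |y' π| = |y π + (y' π - y π)| := by rw [← h3]
              _ ≤ _ := abs_add_le _ _
        _ = ∑ π ∈ P \ T, |y π| + ∑ π ∈ P \ T, |y' π - y π| := Finset.sum_add_distrib
        _ ≤ 1 / 4 + 1 / 4 := add_le_add (hout P) (hdsum _)
    have h3 := (abs_le.1 (h1.trans h2)).1
    linarith
  have hnorm := lp.norm_apply_le_norm (p := 2) two_ne_zero
    (∑ π ∈ P, (if π.2 ∈ E then y' π • h π else 0) : HH) k
  rw [hcoord, Real.norm_eq_abs, abs_of_nonneg (by positivity)] at hnorm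
  refine le_trans ?_ hnorm
  have h9 : (0 : ℝ) < (1 / 2 : ℝ) ^ (k + 1) := by positivity
  nlinarith

theorem exists_tau {I : Type} [LinearOrder I] (hI : ∀ a : I, (Iio a).Countable) :
    ∃ τ : I → I → ℝ, (∀ s a, 0 < τ s a) ∧
      ∀ a (F : Finset I), (∀ s ∈ F, s < a) → ∑ s ∈ F, τ s a ≤ 2 := by
  classical
  have h1 : ∀ a : I, ∃ f : I → ℕ, Set.InjOn f (Set.Iio a) := fun a =>
    Set.countable_iff_exists_injOn.1 (hI a)
  choose f hf using h1
  refine ⟨fun s a => (1 / 2 : ℝ) ^ (f a s), fun s a => by positivity, fun a F hF => ?_⟩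
  have h2 : ∑ s ∈ F, (1 / 2 : ℝ) ^ (f a s) = ∑ n ∈ F.image (f a), (1 / 2 : ℝ) ^ n := by
    rw [Finset.sum_image]
    intro s hs t ht hst
    exact hf a (hF s hs) (hF t ht) hst
  rw [h2]
  refine le_trans ?_ tsum_geometric_two.le
  exact summable_geometric_two.sum_le_tsum _ (fun n _ => by positivity)

/-! ### part D: atoms -/

def nn (j : ℕ) : ℕ := (j + 1) * (j.factorial) ^ 2

noncomputable def cf (j : ℕ) : ℝ := (j.factorial : ℝ)

structure Atom (I : Type) [LinearOrder I] where
  q : Bool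
  j : ℕ
  α : I
  f : I →₀ ℝ
  f_le : ∀ s, |f s| ≤ 1
  f_lt : ∀ s ∈ f.support, s < α
  f_card : f.support.card ≤ nn (2 * j + cond q 1 0)

section

variable {I : Type} [LinearOrder I]

def Atom.lev (a : Atom I) : ℕ := 2 * a.j + cond a.q 1 0

noncomputable def uu (s : I) (a : Atom I) : ℝ := if a.q = true then a.f s / cf a.lev else 0

noncomputable def ww (s : I) (a : Atom I) : ℝ := if a.q = true then 0 else a.f s / cf a.lev

noncomputable def dd (s : I) (a : Atom I) : ℝ := ww s a - uu s a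

theorem cf_one_le (j : ℕ) : 1 ≤ cf j := by
  unfold cf
  exact_mod_cast Nat.factorial_pos j

theorem div_cf_abs {x : ℝ} (hx : |x| ≤ 1) (j : ℕ) : |x / cf j| ≤ 1 / cf j := by
  have h := cf_one_le j
  rw [abs_div, abs_of_pos (by linarith : (0 : ℝ) < cf j)]
  gcongr

theorem inv_cf_le (j : ℕ) : 1 / cf j ≤ 1 := by
  have h := cf_one_le j
  rw [div_le_one (by linarith)]
  exact h

theorem uu_abs' (s : I) (a : Atom I) : |uu s a| ≤ 1 / cf a.lev := by
  unfold uu
  split_ifs
  · exact div_cf_abs (a.f_le s) _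
  · rw [abs_zero]
    have h := cf_one_le a.lev
    positivity

theorem ww_abs' (s : I) (a : Atom I) : |ww s a| ≤ 1 / cf a.lev := by
  unfold ww
  split_ifs
  · rw [abs_zero]
    have h := cf_one_le a.lev
    positivity
  · exact div_cf_abs (a.f_le s) _

theorem uu_abs (s : I) (a : Atom I) : |uu s a| ≤ 1 := (uu_abs' s a).trans (inv_cf_le _)

theorem ww_abs (s : I) (a : Atom I) : |ww s a| ≤ 1 := (ww_abs' s a).trans (inv_cf_le _)

theorem dd_abs (s : I) (a : Atom I) : |dd s a| ≤ 1 := by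
  by_cases h : a.q = true
  · have h1 : ww s a = 0 := by unfold ww; rw [if_pos h]
    unfold dd
    rw [h1, zero_sub, abs_neg]
    exact uu_abs s a
  · have h1 : uu s a = 0 := by unfold uu; rw [if_neg h]
    unfold dd
    rw [h1, sub_zero]
    exact ww_abs s a

theorem uu_zero {s : I} {a : Atom I} (h : s ∉ a.f.support) : uu s a = 0 := by
  have h1 : a.f s = 0 := Finsupp.notMem_support_iff.1 h
  unfold uu
  rw [h1, zero_div]
  split_ifs <;> rfl

theorem ww_zero {s : I} {a : Atom I} (h : s ∉ a.f.support) : ww s a = 0 := by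
  have h1 : a.f s = 0 := Finsupp.notMem_support_iff.1 h
  unfold ww
  rw [h1, zero_div]
  split_ifs <;> rfl

theorem dd_zero {s : I} {a : Atom I} (h : s ∉ a.f.support) : dd s a = 0 := by
  unfold dd
  rw [uu_zero h, ww_zero h, sub_zero]

theorem nn_le {i j : ℕ} (h : i < j) : nn i ≤ i.factorial * j.factorial := by
  unfold nn
  have h1 : (i + 1).factorial ≤ j.factorial := Nat.factorial_le h
  rw [Nat.factorial_succ] at h1
  calc (i + 1) * i.factorial ^ 2 = i.factorial * ((i + 1) * i.factorial) := by ring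
    _ ≤ i.factorial * j.factorial := Nat.mul_le_mul_left _ h1

theorem M1_abs_sum (a b : Atom I) (S : Finset I) : ∑ s ∈ S, |uu s a * ww s b| ≤ 1 := by
  classical
  by_cases ha : a.q = true
  · by_cases hb : b.q = true
    · have : ∑ s ∈ S, |uu s a * ww s b| = 0 := by
        apply Finset.sum_eq_zero
        intro s _
        have h1 : ww s b = 0 := by unfold ww; rw [if_pos hb]
        rw [h1, mul_zero, abs_zero]
      rw [this]; norm_num
    · set k := a.lev with hk
      set l := b.lev with hl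
      have hck := cf_one_le k
      have hcl := cf_one_le l
      have hcpos : 0 < 1 / cf k * (1 / cf l) := by positivity
      have hterm : ∀ s ∈ S, |uu s a * ww s b| ≤
          if s ∈ a.f.support ∩ b.f.support then 1 / cf k * (1 / cf l) else 0 := by
        intro s _
        split_ifs with hs
        · rw [abs_mul]
          exact mul_le_mul (uu_abs' s a) (ww_abs' s b) (abs_nonneg _) (by positivity)
        · rw [Finset.mem_inter, not_and_or] at hs
          rcases hs with hs | hs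
          · rw [uu_zero hs, zero_mul, abs_zero]
          · rw [ww_zero hs, mul_zero, abs_zero]
      have hkv : k = 2 * a.j + 1 := by rw [hk]; unfold Atom.lev; rw [ha]; rfl
      have hlv : l = 2 * b.j := by
        rw [hl]; unfold Atom.lev
        rw [Bool.not_eq_true] at hb
        rw [hb]; rfl
      have hcard : (a.f.support ∩ b.f.support).card ≤ k.factorial * l.factorial := by
        rcases lt_or_gt_of_ne (show k ≠ l by omega) with h | h
        · exact (Finset.card_le_card Finset.inter_subset_left).trans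
            ((a.f_card : _ ≤ nn k).trans (nn_le h))
        · rw [mul_comm]
          exact (Finset.card_le_card Finset.inter_subset_right).trans
            ((b.f_card : _ ≤ nn l).trans (nn_le h))
      calc ∑ s ∈ S, |uu s a * ww s b|
          ≤ ∑ s ∈ S, (if s ∈ a.f.support ∩ b.f.support then 1 / cf k * (1 / cf l) else 0) :=
            Finset.sum_le_sum hterm
        _ = ((S.filter (fun s => s ∈ a.f.support ∩ b.f.support)).card : ℝ) *
            (1 / cf k * (1 / cf l)) := by
            rw [← Finset.sum_filter, Finset.sum_const, nsmul_eq_mul]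
        _ ≤ ((a.f.support ∩ b.f.support).card : ℝ) * (1 / cf k * (1 / cf l)) := by
            gcongr
            intro s hs
            exact (Finset.mem_filter.1 hs).2
        _ ≤ ((k.factorial * l.factorial : ℕ) : ℝ) * (1 / cf k * (1 / cf l)) := by
            gcongr
        _ = 1 := by
            push_cast
            unfold cf
            have h1 : (k.factorial : ℝ) ≠ 0 := by exact_mod_cast Nat.factorial_ne_zero k
            have h2 : (l.factorial : ℝ) ≠ 0 := by exact_mod_cast Nat.factorial_ne_zero l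
            field_simp
  · have : ∑ s ∈ S, |uu s a * ww s b| = 0 := by
      apply Finset.sum_eq_zero
      intro s _
      have h1 : uu s a = 0 := by unfold uu; rw [if_neg ha]
      rw [h1, zero_mul, abs_zero]
    rw [this]; norm_num

noncomputable def M1 (a b : Atom I) : ℝ := ∑ s ∈ a.f.support, uu s a * ww s b

theorem M1_eq (a b : Atom I) {S : Finset I} (hS : a.f.support ⊆ S) :
    ∑ s ∈ S, uu s a * ww s b = M1 a b := by
  unfold M1
  symm
  apply Finset.sum_subset hS
  intro s _ hs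
  rw [uu_zero hs, zero_mul]

theorem M1_eq' (a b : Atom I) {S : Finset I} (hS : b.f.support ⊆ S) :
    ∑ s ∈ S, uu s a * ww s b = M1 a b := by
  classical
  have h1 : ∑ s ∈ S, uu s a * ww s b = ∑ s ∈ S ∪ a.f.support, uu s a * ww s b := by
    apply Finset.sum_subset Finset.subset_union_left
    intro s _ hs
    rw [ww_zero (fun h => hs (hS h)), mul_zero]
  rw [h1]
  exact M1_eq a b Finset.subset_union_right

variable (P : Par I)

noncomputable def jj (a : Atom I) : HH :=
  ∑ s ∈ a.f.support, (P.τ s a.α * dd s a) • P.h (s, a.α)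

noncomputable def VV (a : Atom I) : L1 (I × I) :=
  ∑ s ∈ a.f.support, (P.τ s a.α * dd s a) • e1 (s, a.α)

theorem norm_aux {E : Type} [NormedAddCommGroup E] [NormedSpace ℝ E] (a : Atom I) (v : I → E)
    (hv : ∀ s, ‖v s‖ ≤ 1) :
    ‖∑ s ∈ a.f.support, (P.τ s a.α * dd s a) • v s‖ ≤ 2 := by
  refine (norm_sum_le _ _).trans ?_
  refine (Finset.sum_le_sum (g := fun s => P.τ s a.α) ?_).trans
    (P.τ_sum a.α a.f.support a.f_lt)
  intro s _
  have h1 := P.τ_pos s a.α
  have h2 := dd_abs s a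
  rw [norm_smul, Real.norm_eq_abs, abs_mul, abs_of_pos h1]
  calc P.τ s a.α * |dd s a| * ‖v s‖ ≤ P.τ s a.α * 1 * 1 := by
        refine mul_le_mul (mul_le_mul_of_nonneg_left h2 h1.le) (hv s) (norm_nonneg _) ?_
        positivity
    _ = P.τ s a.α := by ring

theorem jj_norm (a : Atom I) : ‖jj P a‖ ≤ 2 :=
  norm_aux P a (fun s => P.h (s, a.α)) fun s => P.h_norm (s, a.α)

theorem VV_norm (a : Atom I) : ‖VV P a‖ ≤ 2 :=
  norm_aux P a (fun s => e1 (s, a.α)) fun s => (e1_norm (s, a.α)).le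

noncomputable def MM (a b : Atom I) : ℝ :=
  M1 a b + M1 b a + P.c a.α b.α * inner ℝ (jj P a) (jj P b)

theorem MM_abs_aux (a b : Atom I) : |M1 a b| ≤ 1 := by
  unfold M1
  exact (Finset.abs_sum_le_sum_abs _ _).trans (M1_abs_sum a b _)

theorem MM_abs (a b : Atom I) : |MM P a b| ≤ 6 := by
  have h1 := MM_abs_aux a b
  have h2 := MM_abs_aux b a
  have h3 : |inner ℝ (jj P a) (jj P b)| ≤ 4 := by
    refine (abs_real_inner_le_norm _ _).trans ?_
    have h4 := jj_norm P a
    have h5 := jj_norm P b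
    have h6 := norm_nonneg (jj P a)
    have h7 := norm_nonneg (jj P b)
    nlinarith
  have h4 : |P.c a.α b.α * inner ℝ (jj P a) (jj P b)| ≤ 4 := by
    rw [abs_mul]
    have h5 := P.c_abs a.α b.α
    have h6 := abs_nonneg (P.c a.α b.α)
    have h7 := abs_nonneg (inner ℝ (jj P a) (jj P b))
    nlinarith
  unfold MM
  have h5 := abs_add_le (M1 a b + M1 b a) (P.c a.α b.α * inner ℝ (jj P a) (jj P b))
  have h6 := abs_add_le (M1 a b) (M1 b a)
  linarith

noncomputable def U (s : I) : L1 (Atom I) →L[ℝ] ℝ :=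
  Classical.choose (exists_lift (fun a : Atom I => uu s a) 1 zero_le_one
    (fun a => by simpa using uu_abs s a))

noncomputable def W (s : I) : L1 (Atom I) →L[ℝ] ℝ :=
  Classical.choose (exists_lift (fun a : Atom I => ww s a) 1 zero_le_one
    (fun a => by simpa using ww_abs s a))

noncomputable def V : L1 (Atom I) →L[ℝ] L1 (I × I) :=
  Classical.choose (exists_lift (fun a : Atom I => VV P a) 2 zero_le_two
    (fun a => VV_norm P a))

noncomputable def AA : L1 (Atom I) →L[ℝ] L1 (Atom I) →L[ℝ] ℝ :=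
  Classical.choose (exists_bil (fun a b : Atom I => MM P a b) 6 (by norm_num)
    (fun a b => MM_abs P a b))

theorem U_e1 (s : I) (a : Atom I) : U s (e1 a) = uu s a :=
  (Classical.choose_spec (exists_lift (fun a : Atom I => uu s a) 1 zero_le_one
    (fun a => by simpa using uu_abs s a))).1 a

theorem W_e1 (s : I) (a : Atom I) : W s (e1 a) = ww s a :=
  (Classical.choose_spec (exists_lift (fun a : Atom I => ww s a) 1 zero_le_one
    (fun a => by simpa using ww_abs s a))).1 a

theorem V_e1 (a : Atom I) : V P (e1 a) = VV P a :=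
  (Classical.choose_spec (exists_lift (fun a : Atom I => VV P a) 2 zero_le_two
    (fun a => VV_norm P a))).1 a

theorem AA_e1 (a b : Atom I) : AA P (e1 a) (e1 b) = MM P a b :=
  (Classical.choose_spec (exists_bil (fun a b : Atom I => MM P a b) 6 (by norm_num)
    (fun a b => MM_abs P a b))).1 a b

theorem U_hasSum (s : I) (t : L1 (Atom I)) : HasSum (fun a => t a * uu s a) (U s t) := by
  have h := (Classical.choose_spec (exists_lift (fun a : Atom I => uu s a) 1 zero_le_one
    (fun a => by simpa using uu_abs s a))).2.1 t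
  exact h

theorem W_hasSum (s : I) (t : L1 (Atom I)) : HasSum (fun a => t a * ww s a) (W s t) := by
  have h := (Classical.choose_spec (exists_lift (fun a : Atom I => ww s a) 1 zero_le_one
    (fun a => by simpa using ww_abs s a))).2.1 t
  exact h

theorem V_norm (t : L1 (Atom I)) : ‖V P t‖ ≤ 2 * ‖t‖ :=
  (Classical.choose_spec (exists_lift (fun a : Atom I => VV P a) 2 zero_le_two
    (fun a => VV_norm P a))).2.2 t

theorem AA_hasSum (t t' : L1 (Atom I)) :
    HasSum (fun p : Atom I × Atom I => t p.1 * t' p.2 * MM P p.1 p.2) (AA P t t') :=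
  (Classical.choose_spec (exists_bil (fun a b : Atom I => MM P a b) 6 (by norm_num)
    (fun a b => MM_abs P a b))).2 t t'

/-- the common kernel of all coordinates -/
noncomputable def KK : Submodule ℝ (L1 (Atom I)) :=
  (⨅ s : I, LinearMap.ker (U (I := I) s).toLinearMap) ⊓
    (⨅ s : I, LinearMap.ker (W (I := I) s).toLinearMap) ⊓ LinearMap.ker (V P).toLinearMap

theorem mem_KK {t : L1 (Atom I)} :
    t ∈ KK P ↔ (∀ s, U s t = 0) ∧ (∀ s, W s t = 0) ∧ V P t = 0 := by
  unfold KK
  rw [Submodule.mem_inf, Submodule.mem_inf, Submodule.mem_iInf, Submodule.mem_iInf, and_assoc]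
  rfl

instance KK_closed : IsClosed (KK P : Set (L1 (Atom I))) := by
  have h1 : (KK P : Set (L1 (Atom I))) =
      (⋂ s : I, {t | U (I := I) s t = 0}) ∩ ((⋂ s : I, {t | W (I := I) s t = 0}) ∩
        {t | V P t = 0}) := by
    ext t
    rw [SetLike.mem_coe, mem_KK]
    simp only [Set.mem_inter_iff, Set.mem_iInter]
    rfl
  rw [h1]
  refine (isClosed_iInter fun s => ?_).inter ((isClosed_iInter fun s => ?_).inter ?_)
  · exact isClosed_eq (U (I := I) s).continuous continuous_const
  · exact isClosed_eq (W (I := I) s).continuous continuous_const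
  · exact isClosed_eq (V P).continuous continuous_const

theorem AA_symm (t t' : L1 (Atom I)) : AA P t t' = AA P t' t := by
  have h1 : AA P = (AA P).flip := by
    apply l1_ext
    intro a
    apply l1_ext
    intro b
    rw [ContinuousLinearMap.flip_apply, AA_e1, AA_e1]
    unfold MM
    rw [real_inner_comm, P.c_comm, add_comm (M1 a b)]
  have h2 : AA P t t' = (AA P).flip t t' := by rw [← h1]
  rw [h2, ContinuousLinearMap.flip_apply]

theorem AA_ker {t : L1 (Atom I)} (ht : t ∈ KK P) (t' : L1 (Atom I)) : AA P t t' = 0 := by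
  obtain ⟨hU, hW, hV⟩ := (mem_KK P).mp ht
  suffices hT : AA P t = 0 by
    rw [hT]
    rfl
  apply l1_ext
  intro b
  obtain ⟨lam, hlam, -, -⟩ := exists_lift
    (fun π : I × I => P.c π.2 b.α * inner ℝ (P.h π) (jj P b)) 2 zero_le_two (by
      intro π
      rw [Real.norm_eq_abs, abs_mul]
      have h1 := P.c_abs π.2 b.α
      have h2 : |inner ℝ (P.h π) (jj P b)| ≤ ‖P.h π‖ * ‖jj P b‖ := abs_real_inner_le_norm _ _
      have h3 : ‖P.h π‖ * ‖jj P b‖ ≤ 1 * 2 :=
        mul_le_mul (P.h_norm π) (jj_norm P b) (norm_nonneg _) zero_le_one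
      calc |P.c π.2 b.α| * |inner ℝ (P.h π) (jj P b)| ≤ 1 * (1 * 2) :=
            mul_le_mul h1 (h2.trans h3) (abs_nonneg _) zero_le_one
        _ = 2 := by norm_num)
  have key : (AA P).flip (e1 b) = (∑ s ∈ b.f.support, ww s b • U (I := I) s) +
      (∑ s ∈ b.f.support, uu s b • W (I := I) s) + lam.comp (V P) := by
    apply l1_ext
    intro a
    rw [ContinuousLinearMap.flip_apply, AA_e1, ContinuousLinearMap.add_apply,
      ContinuousLinearMap.add_apply, ContinuousLinearMap.sum_apply,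
      ContinuousLinearMap.sum_apply, ContinuousLinearMap.comp_apply, V_e1]
    have hv : lam (VV P a) = P.c a.α b.α * inner ℝ (jj P a) (jj P b) := by
      rw [VV, map_sum, jj, sum_inner, Finset.mul_sum]
      apply Finset.sum_congr rfl
      intro s _
      rw [map_smul, hlam, real_inner_smul_left, smul_eq_mul]
      ring
    rw [hv, MM, ← M1_eq' a b (Finset.Subset.refl _)]
    have h1 : ∑ s ∈ b.f.support, uu s a * ww s b =
        ∑ s ∈ b.f.support, (ww s b • U (I := I) s) (e1 a) := by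
      apply Finset.sum_congr rfl
      intro s _
      rw [ContinuousLinearMap.smul_apply, U_e1, smul_eq_mul, mul_comm]
    have h2 : M1 b a = ∑ s ∈ b.f.support, (uu s b • W (I := I) s) (e1 a) := by
      rw [M1]
      apply Finset.sum_congr rfl
      intro s _
      rw [ContinuousLinearMap.smul_apply, W_e1, smul_eq_mul]
    rw [h1, h2]
  have h0 := congrArg (fun T : L1 (Atom I) →L[ℝ] ℝ => T t) key
  simp only [ContinuousLinearMap.flip_apply, ContinuousLinearMap.add_apply,
    ContinuousLinearMap.sum_apply, ContinuousLinearMap.comp_apply,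
    ContinuousLinearMap.smul_apply, hU, hW, hV, smul_zero, Finset.sum_const_zero, map_zero,
    add_zero] at h0
  rw [h0]
  rfl

theorem VV_apply_aux (a : Atom I) (s α : I) :
    (VV P a) (s, α) = if a.α = α then P.τ s α * dd s a else 0 := by
  classical
  unfold VV
  rw [lp.coeFn_sum, Finset.sum_apply]
  by_cases hα : a.α = α
  · rw [if_pos hα]
    by_cases hs : s ∈ a.f.support
    · rw [Finset.sum_eq_single s]
      · rw [lp.coeFn_smul, Pi.smul_apply, hα, e1_self, smul_eq_mul, mul_one]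
      · intro b _ hb
        rw [lp.coeFn_smul, Pi.smul_apply, e1_ne, smul_zero]
        intro h
        exact hb (Prod.mk.inj h).1.symm
      · intro h
        exact absurd hs h
    · rw [dd_zero hs, mul_zero]
      apply Finset.sum_eq_zero
      intro b hb
      rw [lp.coeFn_smul, Pi.smul_apply, e1_ne, smul_zero]
      intro h
      have : s = b := (Prod.mk.inj h).1
      exact hs (this ▸ hb)
  · rw [if_neg hα]
    apply Finset.sum_eq_zero
    intro b _
    rw [lp.coeFn_smul, Pi.smul_apply, e1_ne, smul_zero]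
    intro h
    exact hα (Prod.mk.inj h).2.symm

/-- coordinates of V -/
theorem V_apply (t : L1 (Atom I)) (s α : I) :
    HasSum (fun a : Atom I => t a * (if a.α = α then P.τ s α * dd s a else 0)) (V P t (s, α)) := by
  have h : HasSum (fun a : Atom I => t a • VV P a) (V P t) :=
    (Classical.choose_spec (exists_lift (fun a : Atom I => VV P a) 2 zero_le_two
      (fun a => VV_norm P a))).2.1 t
  have h2 := h.mapL (lp.evalCLM ℝ (fun _ : I × I => ℝ) 1 (s, α))
  have h3 : (lp.evalCLM ℝ (fun _ : I × I => ℝ) 1 (s, α)) (V P t) = V P t (s, α) := rfl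
  rw [h3] at h2
  have hf : (fun a : Atom I => t a * (if a.α = α then P.τ s α * dd s a else 0)) =
      fun b => (lp.evalCLM ℝ (fun _ : I × I => ℝ) 1 (s, α)) (t b • VV P b) := by
    funext a
    show _ = (t a • VV P a) (s, α)
    rw [lp.coeFn_smul, Pi.smul_apply, VV_apply_aux, smul_eq_mul]
  rw [hf]
  exact h2

theorem V_sum (t : L1 (Atom I)) (s : I) :
    HasSum (fun α => V P t (s, α) / P.τ s α) (W s t - U s t) := by
  classical
  obtain ⟨Y, hY1, hY2, -⟩ := exists_lift (fun a : Atom I => (dd s a • e1 a.α : L1 I)) 1 zero_le_one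
    (fun a => by
      rw [norm_smul, e1_norm, mul_one, Real.norm_eq_abs]
      exact dd_abs s a)
  obtain ⟨Sg, hS1, hS2, -⟩ := exists_lift (fun _ : I => (1 : ℝ)) 1 zero_le_one
    (fun _ => by simp)
  have hc : ∀ α, (Y t) α = V P t (s, α) / P.τ s α := by
    intro α
    have h2 := (hY2 t).mapL (lp.evalCLM ℝ (fun _ : I => ℝ) 1 α)
    have h3 : (lp.evalCLM ℝ (fun _ : I => ℝ) 1 α) (Y t) = (Y t) α := rfl
    rw [h3] at h2
    have h4 := (V_apply P t s α).div_const (P.τ s α)
    have hf : (fun b : Atom I => (lp.evalCLM ℝ (fun _ : I => ℝ) 1 α)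
        (t b • (dd s b • e1 b.α : L1 I))) =
        fun i => (t i * if i.α = α then P.τ s α * dd s i else 0) / P.τ s α := by
      funext a
      show (t a • (dd s a • e1 a.α : L1 I)) α = _
      rw [lp.coeFn_smul, Pi.smul_apply, lp.coeFn_smul, Pi.smul_apply]
      have hτ := (P.τ_pos s α).ne'
      by_cases hα : a.α = α
      · rw [if_pos hα, hα, e1_self]
        simp only [smul_eq_mul]
        field_simp
      · rw [if_neg hα, e1_ne (fun h => hα h.symm)]
        simp
    rw [hf] at h2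
    exact h2.unique h4
  have hf : Sg.comp Y = W s - U s := by
    apply l1_ext
    intro a
    rw [ContinuousLinearMap.comp_apply, hY1, map_smul, hS1]
    rw [_root_.sub_apply, W_e1, U_e1]
    unfold dd
    simp
  have h5 := hS2 (Y t)
  have h6 : Sg (Y t) = W s t - U s t := by
    have := congrArg (fun T : L1 (Atom I) →L[ℝ] ℝ => T t) hf
    simpa using this
  rw [h6] at h5
  have hg : (fun i => (Y t) i • (1 : ℝ)) = fun α => V P t (s, α) / P.τ s α := by
    funext α
    rw [hc α]
    simp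
  rw [hg] at h5
  exact h5

theorem AD_M1_abs (a b : Atom I) : |M1 a b| ≤ 1 := by
  unfold M1
  exact (Finset.abs_sum_le_sum_abs _ _).trans (M1_abs_sum a b _)

noncomputable def AD_M0 (a b : Atom I) : ℝ := P.c a.α b.α * inner ℝ (jj P a) (jj P b)

theorem AD_M0_abs (a b : Atom I) : |AD_M0 P a b| ≤ 4 := by
  unfold AD_M0
  rw [abs_mul]
  have h1 := P.c_abs a.α b.α
  have h2 : |inner ℝ (jj P a) (jj P b)| ≤ 2 * 2 :=
    (abs_real_inner_le_norm _ _).trans
      (mul_le_mul (jj_norm P a) (jj_norm P b) (norm_nonneg _) (by norm_num))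
  calc |P.c a.α b.α| * |inner ℝ (jj P a) (jj P b)| ≤ 1 * (2 * 2) :=
        mul_le_mul h1 h2 (abs_nonneg _) zero_le_one
    _ = 4 := by norm_num

theorem AD_lam (b : Atom I) : ∃ L : L1 (I × I) →L[ℝ] ℝ, ∀ a : Atom I, L (VV P a) = AD_M0 P a b := by
  obtain ⟨L, hL, -, -⟩ := exists_lift
    (fun π : I × I => P.c π.2 b.α * inner ℝ (P.h π) (jj P b)) 2 zero_le_two (by
      intro π
      rw [Real.norm_eq_abs, abs_mul]
      have h1 := P.c_abs π.2 b.α
      have h2 : |inner ℝ (P.h π) (jj P b)| ≤ 1 * 2 :=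
        (abs_real_inner_le_norm _ _).trans
          (mul_le_mul (P.h_norm π) (jj_norm P b) (norm_nonneg _) (by norm_num))
      calc |P.c π.2 b.α| * |inner ℝ (P.h π) (jj P b)| ≤ 1 * (1 * 2) :=
            mul_le_mul h1 h2 (abs_nonneg _) zero_le_one
        _ = 2 := by norm_num)
  refine ⟨L, fun a => ?_⟩
  unfold VV AD_M0
  rw [map_sum]
  have e : inner ℝ (jj P a) (jj P b) =
      ∑ s ∈ a.f.support, (P.τ s a.α * dd s a) * inner ℝ (P.h (s, a.α)) (jj P b) := by
    conv_lhs => rw [show jj P a = ∑ s ∈ a.f.support, (P.τ s a.α * dd s a) • P.h (s, a.α) from rfl]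
    rw [sum_inner]
    refine Finset.sum_congr rfl fun s _ => ?_
    rw [real_inner_smul_left]
  rw [e, Finset.mul_sum]
  refine Finset.sum_congr rfl fun s _ => ?_
  rw [map_smul, hL, smul_eq_mul]
  ring

theorem AD_B1 (z : L1 (Atom I)) (hWU : ∀ s, W s z = U s z) (s : I) (y : ℝ)
    (hy : HasSum (fun p : Atom I × Atom I => z p.1 * z p.2 * M1 p.1 p.2) y) :
    (U s z) ^ 2 ≤ y := by
  classical
  have hb : Summable fun p : Atom I × Atom I => |z p.1| * |z p.2| :=
    (l1_summable z).mul_of_nonneg (l1_summable z) (fun _ => abs_nonneg _) (fun _ => abs_nonneg _)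
  have hT : Filter.Tendsto (fun S : Finset I => ∑' p : Atom I × Atom I,
      z p.1 * z p.2 * ∑ s ∈ S, uu s p.1 * ww s p.2) Filter.atTop
      (nhds (∑' p : Atom I × Atom I, z p.1 * z p.2 * M1 p.1 p.2)) := by
    refine tendsto_tsum_of_dominated_convergence hb (fun p => ?_)
      (Filter.Eventually.of_forall fun S p => ?_)
    · refine tendsto_const_nhds.congr' ?_
      filter_upwards [Filter.eventually_ge_atTop p.1.f.support] with S hS
      rw [M1_eq p.1 p.2 hS]
    · rw [Real.norm_eq_abs, abs_mul, abs_mul]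
      calc |z p.1| * |z p.2| * |∑ s ∈ S, uu s p.1 * ww s p.2| ≤ |z p.1| * |z p.2| * 1 :=
            mul_le_mul_of_nonneg_left
              ((Finset.abs_sum_le_sum_abs _ _).trans (M1_abs_sum p.1 p.2 S)) (by positivity)
        _ = |z p.1| * |z p.2| := mul_one _
  rw [hy.tsum_eq] at hT
  refine ge_of_tendsto hT ?_
  filter_upwards [Filter.eventually_ge_atTop ({s} : Finset I)] with S hS
  have h1 : ∀ t : I, HasSum (fun p : Atom I × Atom I => (z p.1 * uu t p.1) * (z p.2 * ww t p.2))
      (U t z * W t z) := by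
    intro t
    refine (U_hasSum t z).mul (W_hasSum t z) ?_
    refine Summable.of_norm_bounded hb (fun p => ?_)
    rw [Real.norm_eq_abs, abs_mul, abs_mul, abs_mul]
    have h1 : |z p.1| * |uu t p.1| ≤ |z p.1| * 1 :=
      mul_le_mul_of_nonneg_left (uu_abs t p.1) (abs_nonneg _)
    have h2 : |z p.2| * |ww t p.2| ≤ |z p.2| * 1 :=
      mul_le_mul_of_nonneg_left (ww_abs t p.2) (abs_nonneg _)
    rw [mul_one] at h1 h2
    exact mul_le_mul h1 h2 (by positivity) (abs_nonneg _)
  have h2 : HasSum (fun p : Atom I × Atom I => z p.1 * z p.2 * ∑ t ∈ S, uu t p.1 * ww t p.2)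
      (∑ t ∈ S, U t z * W t z) := by
    refine (hasSum_sum (fun t (_ : t ∈ S) => h1 t)).congr_fun ?_
    intro p
    rw [Finset.mul_sum]
    refine Finset.sum_congr rfl fun t _ => ?_
    ring
  rw [h2.tsum_eq]
  have h3 : ∑ t ∈ S, U t z * W t z = ∑ t ∈ S, (U t z) ^ 2 := by
    refine Finset.sum_congr rfl fun t _ => ?_
    rw [hWU t, sq]
  rw [h3]
  exact Finset.single_le_sum (f := fun t => (U t z) ^ 2) (fun t _ => sq_nonneg _)
    (hS (Finset.mem_singleton_self s))

theorem AA_diag {z : L1 (Atom I)} (hV : V P z = 0) (s : I) :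
    2 * (U s z) ^ 2 ≤ AA P z z := by
  have hWU : ∀ s, W s z = U s z := by
    intro s
    have h := V_sum P z s
    rw [hV] at h
    have h0 : HasSum (fun α : I => (0 : L1 (I × I)) (s, α) / P.τ s α) 0 := by
      have : (fun α : I => (0 : L1 (I × I)) (s, α) / P.τ s α) = fun _ => (0 : ℝ) := by
        funext α
        show (0 : ℝ) / P.τ s α = 0
        exact zero_div _
      rw [this]
      exact hasSum_zero
    have := h.unique h0
    linarith
  obtain ⟨B1, hB1, hB1s⟩ := exists_bil (fun a b : Atom I => M1 a b) 1 zero_le_one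
    (fun a b => AD_M1_abs a b)
  obtain ⟨B0, hB0, hB0s⟩ := exists_bil (fun a b : Atom I => AD_M0 P a b) 4 (by norm_num)
    (fun a b => AD_M0_abs P a b)
  have e1 := hB1s z z
  have e0 := hB0s z z
  have hB0z : B0 z = 0 := by
    apply l1_ext
    intro b
    obtain ⟨L, hL⟩ := AD_lam P b
    have h1 : B0.flip (QF.e1 b) = L.comp (V P) := by
      apply l1_ext
      intro a
      rw [ContinuousLinearMap.flip_apply, hB0, ContinuousLinearMap.comp_apply, V_e1, hL]
    have h2 := congrArg (fun T : L1 (Atom I) →L[ℝ] ℝ => T z) h1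
    simp only [ContinuousLinearMap.flip_apply, ContinuousLinearMap.comp_apply] at h2
    rw [h2, hV, map_zero]
    rfl
  have hB0zz : B0 z z = 0 := by rw [hB0z]; rfl
  rw [hB0zz] at e0
  have e2 : HasSum (fun p : Atom I × Atom I => z p.1 * z p.2 * M1 p.2 p.1) (B1 z z) := by
    have := (Equiv.prodComm (Atom I) (Atom I)).hasSum_iff.mpr e1
    refine this.congr_fun ?_
    intro p
    show z p.1 * z p.2 * M1 p.2 p.1 = z p.2 * z p.1 * M1 p.2 p.1
    ring
  have e3 : HasSum (fun p : Atom I × Atom I => z p.1 * z p.2 * MM P p.1 p.2)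
      (B1 z z + B1 z z + 0) := by
    refine ((e1.add e2).add e0).congr_fun ?_
    intro p
    show z p.1 * z p.2 * (M1 p.1 p.2 + M1 p.2 p.1 + P.c p.1.α p.2.α * inner ℝ (jj P p.1) (jj P p.2)) =
      z p.1 * z p.2 * M1 p.1 p.2 + z p.1 * z p.2 * M1 p.2 p.1 + z p.1 * z p.2 * AD_M0 P p.1 p.2
    unfold AD_M0
    ring
  have e4 := (AA_hasSum P z z).unique e3
  rw [e4]
  have := AD_B1 z hWU s _ e1
  linarith

abbrev XX := L1 (Atom I) ⧸ KK P

noncomputable def mk (t : L1 (Atom I)) : XX P := Submodule.Quotient.mk t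

theorem mk_eq {t t' : L1 (Atom I)} : mk P t = mk P t' ↔ t - t' ∈ KK P := by
  unfold mk
  exact Submodule.Quotient.eq (KK P)

theorem mk_norm (t : L1 (Atom I)) : ‖mk P t‖ ≤ ‖t‖ := by
  unfold mk
  exact Submodule.Quotient.norm_mk_le (KK P) t

open Classical in
/-- the basic atoms -/
noncomputable def pa (q : Bool) (s α : I) : Atom I where
  q := q
  j := 0
  α := α
  f := if s < α then Finsupp.single s 1 else 0
  f_le := by
    intro x
    split_ifs
    · rw [Finsupp.single_apply]; split_ifs <;> simp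
    · simp
  f_lt := by
    intro x hx
    split_ifs at hx with h
    · have := Finsupp.support_single_subset hx
      rw [Finset.mem_singleton] at this
      rw [this]; exact h
    · simp at hx
  f_card := by
    have h1 : 1 ≤ nn (2 * 0 + cond q 1 0) := by
      cases q <;> simp [nn]
    refine le_trans ?_ h1
    split_ifs
    · exact le_trans (Finset.card_le_card Finsupp.support_single_subset) (by simp)
    · simp

noncomputable def px (q : Bool) (s α : I) : XX P := mk P (e1 (pa q s α))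

theorem uu_fac (s : I) (a : Atom I) : uu s a = (if a.q = true then 1 else 0) * (a.f s / cf a.lev) := by
  unfold uu
  split_ifs <;> ring

theorem ww_fac (s : I) (a : Atom I) : ww s a = (if a.q = true then 0 else 1) * (a.f s / cf a.lev) := by
  unfold ww
  split_ifs <;> ring

theorem dd_fac (s : I) (a : Atom I) : dd s a = (if a.q = true then -1 else 1) * (a.f s / cf a.lev) := by
  unfold dd
  rw [uu_fac, ww_fac]
  split_ifs <;> ring

open Classical in
theorem pa_f {q : Bool} {s α : I} (h : s < α) : (pa q s α).f = Finsupp.single s 1 := by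
  unfold pa
  simp [h]

open Classical in
theorem pa_val {q : Bool} {s α : I} (h : s < α) (s' : I) :
    (pa q s α).f s' / cf (pa q s α).lev = if s' = s then 1 else 0 := by
  have h1 : cf (pa q s α).lev = 1 := by
    unfold cf Atom.lev pa
    cases q <;> simp
  rw [h1, div_one, pa_f h, Finsupp.single_apply]
  by_cases hs : s = s'
  · subst hs; simp
  · rw [if_neg hs, if_neg (fun h' => hs h'.symm)]

theorem pa_q (q : Bool) (s α : I) : (pa q s α).q = q := rfl

theorem pa_alpha (q : Bool) (s α : I) : (pa q s α).α = α := rfl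

theorem coef_sum (a : Atom I) (s' : I) :
    ∑ s ∈ a.f.support, (a.f s / cf a.lev) *
      ((pa a.q s a.α).f s' / cf (pa a.q s a.α).lev) = a.f s' / cf a.lev := by
  classical
  have h1 : ∀ s ∈ a.f.support, (a.f s / cf a.lev) *
      ((pa a.q s a.α).f s' / cf (pa a.q s a.α).lev) = if s' = s then a.f s / cf a.lev else 0 := by
    intro s hs
    rw [pa_val (a.f_lt s hs)]
    split_ifs <;> ring
  rw [Finset.sum_congr rfl h1, Finset.sum_ite_eq]
  split_ifs with h
  · rfl
  · rw [Finsupp.notMem_support_iff.1 h, zero_div]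

theorem VV_pa {a : Atom I} {s : I} (hs : s ∈ a.f.support) :
    VV P (pa a.q s a.α) = (P.τ s a.α * (if a.q = true then -1 else 1)) • e1 (s, a.α) := by
  have hlt := a.f_lt s hs
  unfold VV
  rw [pa_f hlt, pa_alpha]
  have h1 : (Finsupp.single s (1 : ℝ)).support = {s} :=
    Finsupp.support_single_ne_zero s one_ne_zero
  rw [h1, Finset.sum_singleton, dd_fac, pa_val hlt, pa_q, if_pos rfl, mul_one]

theorem atom_expand (a : Atom I) :
    mk P (e1 a) = ∑ s ∈ a.f.support, (a.f s / cf a.lev) • px P a.q s a.α := by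
  have h0 : ∑ s ∈ a.f.support, (a.f s / cf a.lev) • px P a.q s a.α =
      mk P (∑ s ∈ a.f.support, (a.f s / cf a.lev) • e1 (pa a.q s a.α)) := by
    show ∑ s ∈ a.f.support, (a.f s / cf a.lev) • (KK P).mkQ (e1 (pa a.q s a.α)) =
      (KK P).mkQ (∑ s ∈ a.f.support, (a.f s / cf a.lev) • e1 (pa a.q s a.α))
    rw [map_sum]
    refine Finset.sum_congr rfl fun s _ => ?_
    rw [map_smul]
  rw [h0, mk_eq, mem_KK]
  refine ⟨fun s' => ?_, fun s' => ?_, ?_⟩
  · rw [map_sub, map_sum, U_e1, sub_eq_zero, uu_fac]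
    have h1 : ∀ s ∈ a.f.support, U s' ((a.f s / cf a.lev) • e1 (pa a.q s a.α)) =
        (if a.q = true then 1 else 0) * ((a.f s / cf a.lev) *
          ((pa a.q s a.α).f s' / cf (pa a.q s a.α).lev)) := by
      intro s _
      rw [map_smul, U_e1, uu_fac, pa_q, smul_eq_mul]
      ring
    rw [Finset.sum_congr rfl h1, ← Finset.mul_sum, coef_sum]
  · rw [map_sub, map_sum, W_e1, sub_eq_zero, ww_fac]
    have h1 : ∀ s ∈ a.f.support, W s' ((a.f s / cf a.lev) • e1 (pa a.q s a.α)) =
        (if a.q = true then 0 else 1) * ((a.f s / cf a.lev) *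
          ((pa a.q s a.α).f s' / cf (pa a.q s a.α).lev)) := by
      intro s _
      rw [map_smul, W_e1, ww_fac, pa_q, smul_eq_mul]
      ring
    rw [Finset.sum_congr rfl h1, ← Finset.mul_sum, coef_sum]
  · rw [map_sub, map_sum, V_e1, sub_eq_zero]
    unfold VV
    refine Finset.sum_congr rfl fun s hs => ?_
    rw [map_smul, V_e1, VV_pa P hs, dd_fac, smul_smul]
    congr 1
    ring

theorem pxa_f (q : Bool) {s α : I} (h : s < α) : (pa q s α).f = Finsupp.single s 1 := by
  unfold pa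
  exact if_pos h

theorem pxa_cf (q : Bool) (s α : I) : cf (pa q s α).lev = 1 := by
  unfold cf Atom.lev pa
  cases q <;> simp

theorem pxa_uu_true {s α : I} (h : s < α) (t : I) :
    uu t (pa true s α) = (Finsupp.single s (1 : ℝ)) t := by
  unfold uu
  rw [if_pos (show (pa true s α).q = true from rfl), pxa_cf, pxa_f true h, div_one]

theorem pxa_uu_false {s α : I} (t : I) : uu t (pa false s α) = 0 := by
  unfold uu
  rw [if_neg]
  show ¬ (false = true)
  exact Bool.false_ne_true

theorem pxa_ww_true {s α : I} (t : I) : ww t (pa true s α) = 0 := by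
  unfold ww
  rw [if_pos (show (pa true s α).q = true from rfl)]

theorem pxa_ww_false {s α : I} (h : s < α) (t : I) :
    ww t (pa false s α) = (Finsupp.single s (1 : ℝ)) t := by
  unfold ww
  rw [if_neg (show ¬ ((pa false s α).q = true) from Bool.false_ne_true), pxa_cf, pxa_f false h,
    div_one]

theorem pxa_VV_true {s α : I} (h : s < α) :
    VV P (pa true s α) = (-(P.τ s α)) • e1 (s, α) := by
  classical
  unfold VV
  rw [pxa_f true h, Finsupp.support_single s one_ne_zero, Finset.sum_singleton]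
  unfold dd
  rw [pxa_ww_true, pxa_uu_true h, Finsupp.single_eq_same]
  show (P.τ s α * (0 - 1)) • e1 (s, α) = _
  congr 1
  ring

theorem pxa_VV_false {s α : I} (h : s < α) :
    VV P (pa false s α) = (P.τ s α) • e1 (s, α) := by
  classical
  unfold VV
  rw [pxa_f false h, Finsupp.support_single s one_ne_zero, Finset.sum_singleton]
  unfold dd
  rw [pxa_ww_false h, pxa_uu_false, Finsupp.single_eq_same]
  show (P.τ s α * (1 - 0)) • e1 (s, α) = _
  congr 1
  ring

theorem pxa_add {s α : I} : px P false s α + px P true s α =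
    mk P (e1 (pa false s α) + e1 (pa true s α)) := by
  unfold px mk
  rw [Submodule.Quotient.mk_add]

theorem pxa_V {s α : I} (h : s < α) : V P (e1 (pa false s α) + e1 (pa true s α)) = 0 := by
  rw [map_add, V_e1, V_e1, pxa_VV_true P h, pxa_VV_false P h, neg_smul, add_neg_cancel]

theorem pxa_U {s α : I} (h : s < α) (t : I) :
    U t (e1 (pa false s α) + e1 (pa true s α)) = (Finsupp.single s (1 : ℝ)) t := by
  rw [map_add, U_e1, U_e1, pxa_uu_false, pxa_uu_true h, zero_add]

theorem pxa_W {s α : I} (h : s < α) (t : I) :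
    W t (e1 (pa false s α) + e1 (pa true s α)) = (Finsupp.single s (1 : ℝ)) t := by
  rw [map_add, W_e1, W_e1, pxa_ww_false h, pxa_ww_true, add_zero]

theorem px_add_eq {s α β : I} (hα : s < α) (hβ : s < β) :
    px P false s α + px P true s α = px P false s β + px P true s β := by
  rw [pxa_add, pxa_add, mk_eq, mem_KK]
  refine ⟨fun t => ?_, fun t => ?_, ?_⟩
  · rw [map_sub, pxa_U hα, pxa_U hβ, sub_self]
  · rw [map_sub, pxa_W hα, pxa_W hβ, sub_self]
  · rw [map_sub, pxa_V P hα, pxa_V P hβ, sub_self]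

theorem px_add_ne {s α : I} (hα : s < α) : px P false s α + px P true s α ≠ 0 := by
  intro h
  rw [pxa_add] at h
  have h0 : mk P (e1 (pa false s α) + e1 (pa true s α)) = mk P 0 := by
    rw [h]
    unfold mk
    rw [Submodule.Quotient.mk_zero]
  rw [mk_eq, sub_zero, mem_KK] at h0
  have h1 := h0.1 s
  rw [pxa_U hα, Finsupp.single_eq_same] at h1
  exact one_ne_zero h1

theorem px_sum_norm (q : Bool) (j : ℕ) (α : I) (F : Finset I) (hF : ∀ s ∈ F, s < α)
    (hc : F.card ≤ nn (2 * j + cond q 1 0)) (ε : I → ℝ) (hε : ∀ s, |ε s| ≤ 1) :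
    ‖∑ s ∈ F, ε s • px P q s α‖ ≤ cf (2 * j + cond q 1 0) := by
  classical
  have hsupp : (Finsupp.onFinset F (fun t => if t ∈ F then ε t else 0) (fun t ht => by
      by_contra hcon
      exact ht (if_neg hcon))).support ⊆ F := Finsupp.support_onFinset_subset
  let a : Atom I :=
    { q := q
      j := j
      α := α
      f := Finsupp.onFinset F (fun t => if t ∈ F then ε t else 0) (fun t ht => by
        by_contra hcon
        exact ht (if_neg hcon))
      f_le := by
        intro t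
        rw [Finsupp.onFinset_apply]
        split_ifs
        · exact hε t
        · simp
      f_lt := fun t ht => hF t (hsupp ht)
      f_card := (Finset.card_le_card hsupp).trans hc }
  have haf : ∀ t ∈ F, a.f t = ε t := by
    intro t ht
    show (if t ∈ F then ε t else 0) = ε t
    rw [if_pos ht]
  have hlev : a.lev = 2 * j + cond q 1 0 := rfl
  have hcf : 0 < cf a.lev := by
    unfold cf
    positivity
  have h1 := atom_expand P a
  have h2 : ∑ s ∈ a.f.support, (a.f s / cf a.lev) • px P a.q s a.α =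
      ∑ s ∈ F, (ε s / cf a.lev) • px P q s α := by
    rw [Finset.sum_subset (show a.f.support ⊆ F from hsupp)]
    · exact Finset.sum_congr rfl (fun t ht => by rw [haf t ht])
    · intro t _ ht
      have : a.f t = 0 := by
        by_contra hcon
        exact ht (Finsupp.mem_support_iff.2 hcon)
      rw [this, zero_div, zero_smul]
  have h3 : ∑ s ∈ F, ε s • px P q s α = cf a.lev • mk P (e1 a) := by
    rw [h1, h2, Finset.smul_sum]
    refine Finset.sum_congr rfl (fun t _ => ?_)
    rw [smul_smul, mul_div_cancel₀ _ hcf.ne']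
  rw [h3, norm_smul, Real.norm_of_nonneg hcf.le, ← hlev]
  have h4 : ‖mk P (e1 a)‖ ≤ 1 := (mk_norm P (e1 a)).trans (e1_norm a).le
  calc cf a.lev * ‖mk P (e1 a)‖ ≤ cf a.lev * 1 := mul_le_mul_of_nonneg_left h4 hcf.le
    _ = cf a.lev := mul_one _

theorem exists_signs {X : Type} [NormedAddCommGroup X] [NormedSpace ℝ X]
    (B : X →L[ℝ] X →L[ℝ] ℝ) {ι : Type} (F : Finset ι) (x : ι → X) :
    ∃ ε : ι → ℝ, (∀ i, |ε i| ≤ 1) ∧
      ∑ i ∈ F, B (x i) (x i) ≤ B (∑ i ∈ F, ε i • x i) (∑ i ∈ F, ε i • x i) := by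
  classical
  induction F using Finset.induction_on with
  | empty => exact ⟨fun _ => 0, fun _ => by simp, by simp⟩
  | insert k F hk ih =>
    obtain ⟨ε, h1, h2⟩ := ih
    set y := ∑ i ∈ F, ε i • x i with hy
    have key : ∀ t : ℝ, |t| ≤ 1 → t ^ 2 = 1 → 0 ≤ t * (B y (x k) + B (x k) y) →
        ∃ ε' : ι → ℝ, (∀ i, |ε' i| ≤ 1) ∧
          ∑ i ∈ insert k F, B (x i) (x i) ≤
            B (∑ i ∈ insert k F, ε' i • x i) (∑ i ∈ insert k F, ε' i • x i) := by
      intro t ht ht2 htn
      refine ⟨Function.update ε k t, ?_, ?_⟩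
      · intro i
        by_cases hi : i = k
        · rw [hi, Function.update_self]
          exact ht
        · rw [Function.update_of_ne hi]
          exact h1 i
      · have e1 : ∑ i ∈ insert k F, Function.update ε k t i • x i = t • x k + y := by
          rw [Finset.sum_insert hk, Function.update_self, hy]
          congr 1
          refine Finset.sum_congr rfl fun i hi => ?_
          rw [Function.update_of_ne (fun h : i = k => hk (h ▸ hi))]
        rw [e1, Finset.sum_insert hk]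
        have e2 : B (t • x k + y) (t • x k + y) =
            t ^ 2 * B (x k) (x k) + t * (B y (x k) + B (x k) y) + B y y := by
          simp only [map_add, map_smul, ContinuousLinearMap.add_apply,
            ContinuousLinearMap.smul_apply, smul_eq_mul]
          ring
        rw [e2, ht2]
        linarith
    rcases le_total 0 (B y (x k) + B (x k) y) with h0 | h0
    · exact key 1 (by simp) (by norm_num) (by linarith)
    · exact key (-1) (by simp) (by norm_num) (by linarith)

theorem infinite_initial_8256 (hI : ∀ a : I, (Iio a).Countable) (S : Set I) (hS : ¬ S.Countable) :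
    ∃ α : I, {s | s ∈ S ∧ s < α}.Infinite := by
  by_contra hcon
  push Not at hcon
  apply hS
  rw [Set.countable_iff_exists_injOn]
  refine ⟨fun x => {s | s ∈ S ∧ s < x}.ncard, ?_⟩
  have hlt : ∀ a ∈ S, ∀ b, a < b → {s | s ∈ S ∧ s < a}.ncard < {s | s ∈ S ∧ s < b}.ncard := by
    intro a ha b hab
    have hf : {s | s ∈ S ∧ s < b}.Finite := hcon b
    apply Set.ncard_lt_ncard _ hf
    refine ⟨fun s hs => ⟨hs.1, hs.2.trans hab⟩, fun h => ?_⟩
    have := h (show a ∈ {s | s ∈ S ∧ s < b} from ⟨ha, hab⟩)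
    exact lt_irrefl _ this.2
  intro a ha b hb hab
  simp only at hab
  rcases lt_trichotomy a b with h | h | h
  · exact absurd hab (ne_of_lt (hlt a ha b h))
  · exact h
  · exact absurd hab.symm (ne_of_lt (hlt b hb a h))

theorem exists_uncountable_8256 {J : Type} (hI : ¬ (univ : Set J).Countable) (g : J → ℝ) (hg : ∀ s, 0 < g s) :
    ∃ n : ℕ, ¬ {s | 1 / ((n : ℝ) + 1) ≤ g s}.Countable := by
  by_contra hcon
  push Not at hcon
  apply hI
  have : (univ : Set J) ⊆ ⋃ n : ℕ, {s | 1 / ((n : ℝ) + 1) ≤ g s} := by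
    intro s _
    obtain ⟨n, hn⟩ := exists_nat_one_div_lt (hg s)
    exact Set.mem_iUnion.mpr ⟨n, hn.le⟩
  exact (Set.countable_iUnion hcon).mono this

theorem posdef_core_8256 {X : Type} [NormedAddCommGroup X] [NormedSpace ℝ X]
    (B : X →L[ℝ] X →L[ℝ] ℝ) (hB : ∀ x : X, 0 ≤ B x x) {J : Type} (x : Bool → J → X) (T : Set J)
    (hT : T.Infinite) (c : ℝ) (hc : 0 < c) (hlow : ∀ s ∈ T, c ≤ B (x false s + x true s) (x false s + x true s))
    (hsum : ∀ (q : Bool) (j : ℕ) (F : Finset J), (∀ s ∈ F, s ∈ T) →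
      F.card ≤ nn (2 * j + cond q 1 0) → ∀ ε : J → ℝ, (∀ s, |ε s| ≤ 1) →
      ‖∑ s ∈ F, ε s • x q s‖ ≤ cf (2 * j + cond q 1 0)) : False := by
  have hsplit : ∀ s ∈ T, c / 4 ≤ B (x false s) (x false s) ∨ c / 4 ≤ B (x true s) (x true s) := by
    intro s hs
    have h1 := hlow s hs
    have h2 := hB (x false s - x true s)
    simp only [map_add, map_sub, _root_.add_apply, _root_.sub_apply] at h1 h2
    by_contra hcon
    push Not at hcon
    linarith [hcon.1, hcon.2]
  have hex : ∃ q : Bool, {s | s ∈ T ∧ c / 4 ≤ B (x q s) (x q s)}.Infinite := by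
    by_contra hcon
    push Not at hcon
    have h0 : {s | s ∈ T ∧ c / 4 ≤ B (x false s) (x false s)}.Finite := hcon false
    have h1 : {s | s ∈ T ∧ c / 4 ≤ B (x true s) (x true s)}.Finite := hcon true
    apply hT
    refine (h0.union h1).subset ?_
    intro s hs
    rcases hsplit s hs with h | h
    · exact Or.inl ⟨hs, h⟩
    · exact Or.inr ⟨hs, h⟩
  obtain ⟨q, hq⟩ := hex
  obtain ⟨j, hj⟩ := exists_nat_gt (‖B‖ / (c / 4))
  set lev := 2 * j + cond q 1 0 with hlev
  obtain ⟨F, hF, hcard⟩ := hq.exists_subset_card_eq (nn lev)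
  obtain ⟨ε, hε, hle⟩ := exists_signs B F (fun s => x q s)
  have hnorm := hsum q j F (fun s hs => (hF hs).1) (by rw [hcard]) ε hε
  have h1 : (nn lev : ℝ) * (c / 4) ≤ ∑ s ∈ F, B (x q s) (x q s) := by
    rw [← hcard, ← nsmul_eq_mul]
    apply Finset.card_nsmul_le_sum
    intro s hs
    exact (hF hs).2
  have h2 : B (∑ i ∈ F, ε i • x q i) (∑ i ∈ F, ε i • x q i) ≤ ‖B‖ * cf lev * cf lev := by
    calc B (∑ i ∈ F, ε i • x q i) (∑ i ∈ F, ε i • x q i)
        ≤ ‖B (∑ i ∈ F, ε i • x q i) (∑ i ∈ F, ε i • x q i)‖ := Real.le_norm_self _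
      _ ≤ ‖B‖ * ‖∑ i ∈ F, ε i • x q i‖ * ‖∑ i ∈ F, ε i • x q i‖ := B.le_opNorm₂ _ _
      _ ≤ ‖B‖ * cf lev * cf lev := by
          have hcf0 : 0 ≤ cf lev := le_trans (norm_nonneg _) hnorm
          have hB0 : 0 ≤ ‖B‖ := norm_nonneg B
          exact mul_le_mul (mul_le_mul_of_nonneg_left hnorm hB0) hnorm (norm_nonneg _) (mul_nonneg hB0 hcf0)
  have hcf : 0 < cf lev := by
    unfold cf
    exact_mod_cast Nat.factorial_pos lev
  have h3 : (nn lev : ℝ) = ((lev : ℝ) + 1) * (cf lev * cf lev) := by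
    unfold nn cf
    push_cast
    ring
  have h4 : ((lev : ℝ) + 1) * (cf lev * cf lev) * (c / 4) ≤ ‖B‖ * (cf lev * cf lev) := by
    rw [← h3]
    calc (nn lev : ℝ) * (c / 4) ≤ _ := h1
      _ ≤ _ := hle
      _ ≤ _ := h2
      _ = _ := by ring
  have h5 : ((lev : ℝ) + 1) * (c / 4) ≤ ‖B‖ := by
    have hpos : 0 < cf lev * cf lev := mul_pos hcf hcf
    apply le_of_mul_le_mul_right _ hpos
    calc ((lev : ℝ) + 1) * (c / 4) * (cf lev * cf lev) = ((lev : ℝ) + 1) * (cf lev * cf lev) * (c / 4) := by ring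
      _ ≤ _ := h4
  have h6 : (j : ℝ) ≤ lev := by
    have : j ≤ lev := by rw [hlev]; omega
    exact_mod_cast this
  rw [div_lt_iff₀ (by linarith)] at hj
  have h7 : (j : ℝ) * (c / 4) ≤ ((lev : ℝ) + 1) * (c / 4) := by
    apply mul_le_mul_of_nonneg_right _ (by linarith)
    linarith
  linarith

theorem no_posdef (hI : (∀ a : I, (Iio a).Countable) ∧ ¬ (univ : Set I).Countable) :
    ¬ ∃ B : XX P →L[ℝ] XX P →L[ℝ] ℝ, ∀ x : XX P, x ≠ 0 → 0 < B x x := by
  rintro ⟨B, hB⟩
  have hB0 : ∀ x : XX P, 0 ≤ B x x := by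
    intro x
    by_cases hx : x = 0
    · rw [hx, map_zero]
    · exact (hB x hx).le
  have hup : ∀ s : I, ∃ α, s < α := by
    intro s
    by_contra hcon
    push Not at hcon
    apply hI.2
    have h1 : (univ : Set I) ⊆ Iio s ∪ {s} := by
      intro x _
      rcases lt_or_eq_of_le (hcon x) with h | h
      · exact Or.inl h
      · exact Or.inr h
    exact ((hI.1 s).union (Set.countable_singleton s)).mono h1
  choose al hal using hup
  let g : I → ℝ := fun s => B (px P false s (al s) + px P true s (al s)) (px P false s (al s) + px P true s (al s))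
  have hg : ∀ s, 0 < g s := fun s => hB _ (px_add_ne P (hal s))
  obtain ⟨n, hn⟩ := exists_uncountable_8256 hI.2 g hg
  obtain ⟨α, hα⟩ := infinite_initial_8256 hI.1 _ hn
  refine posdef_core_8256 B hB0 (fun q s => px P q s α) _ hα (1 / ((n : ℝ) + 1)) (by positivity) ?_ ?_
  · intro s hs
    have h1 : px P false s α + px P true s α = px P false s (al s) + px P true s (al s) :=
      px_add_eq P hs.2 (hal s)
    show _ ≤ B (px P false s α + px P true s α) (px P false s α + px P true s α)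
    rw [h1]
    exact hs.1
  · intro q j F hF hc ε hε
    exact px_sum_norm P q j α F (fun s hs => (hF s hs).2) hc ε hε

/-- a separable subset of the quotient -/
noncomputable def YY (δ : I) : Set (XX P) :=
  closure (Submodule.span ℝ {x : XX P | ∃ q s α, s < α ∧ α ≤ δ ∧ x = px P q s α} : Set (XX P))

theorem h441_gens (hI : ∀ a : I, (Iio a).Countable) (δ : I) :
    {x : XX P | ∃ q s α, s < α ∧ α ≤ δ ∧ x = px P q s α}.Countable := by
  have h1 : (Iic δ).Countable := by
    have h2 : Iic δ = insert δ (Iio δ) := by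
      ext x
      simp [le_iff_eq_or_lt]
    rw [h2]
    exact (hI δ).insert δ
  have h3 : ((univ : Set Bool) ×ˢ ((Iio δ) ×ˢ (Iic δ))).Countable :=
    (Set.to_countable _).prod ((hI δ).prod h1)
  refine (h3.image (fun p : Bool × I × I => px P p.1 p.2.1 p.2.2)).mono ?_
  rintro x ⟨q, s, α, h4, h5, rfl⟩
  exact ⟨(q, s, α), ⟨mem_univ _, lt_of_lt_of_le h4 h5, h5⟩, rfl⟩

theorem h441_atom (δ : I) (b : Atom I) (hb : b.α ≤ δ) :
    mk P (e1 b) ∈ Submodule.span ℝ {x : XX P | ∃ q s α, s < α ∧ α ≤ δ ∧ x = px P q s α} := by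
  rw [atom_expand]
  refine Submodule.sum_mem _ fun s hs => Submodule.smul_mem _ _ (Submodule.subset_span ?_)
  exact ⟨b.q, s, b.α, b.f_lt s hs, hb, rfl⟩


theorem YY_sep (hI : ∀ a : I, (Iio a).Countable) (δ : I) :
    TopologicalSpace.IsSeparable (YY P δ) := by
  exact ((h441_gens P hI δ).isSeparable.span (R := ℝ)).closure

theorem mk_mem_YY (δ : I) (Θ : L1 (Atom I) →L[ℝ] L1 (Atom I))
    (h : ∀ a, Θ (e1 a) = 0 ∨ ∃ b : Atom I, b.α ≤ δ ∧ Θ (e1 a) = e1 b) (t : L1 (Atom I)) :
    mk P (Θ t) ∈ YY P δ := by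
  have hmk : ∀ t : L1 (Atom I), mk P t = (KK P).mkQ t := fun t => rfl
  have hgen : ∀ a, mk P (Θ (e1 a)) ∈
      Submodule.span ℝ {x : XX P | ∃ q s α, s < α ∧ α ≤ δ ∧ x = px P q s α} := by
    intro a
    rcases h a with h0 | ⟨b, hb, hb'⟩
    · rw [h0, hmk, map_zero]
      exact Submodule.zero_mem _
    · rw [hb']
      exact h441_atom P δ b hb
  unfold YY
  rw [Metric.mem_closure_iff]
  intro ε hε
  have hΘ : 0 < ‖Θ‖ + 1 := by positivity
  obtain ⟨F, hF⟩ := l1_approx t (ε := ε / 2 / (‖Θ‖ + 1)) (by positivity)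
  refine ⟨mk P (Θ (∑ i ∈ F, t i • e1 i)), ?_, ?_⟩
  · rw [map_sum, hmk, map_sum]
    refine Submodule.sum_mem _ fun i _ => ?_
    rw [map_smul, map_smul]
    exact Submodule.smul_mem _ _ (hgen i)
  · rw [dist_eq_norm]
    have h1 : mk P (Θ t) - mk P (Θ (∑ i ∈ F, t i • e1 i)) = mk P (Θ (t - ∑ i ∈ F, t i • e1 i)) := by
      rw [hmk, hmk, hmk, map_sub Θ, map_sub]
    rw [h1]
    refine lt_of_le_of_lt ((mk_norm P _).trans (Θ.le_opNorm _)) ?_
    have h2 : ‖Θ‖ * ‖t - ∑ i ∈ F, t i • e1 i‖ ≤ (‖Θ‖ + 1) * (ε / 2 / (‖Θ‖ + 1)) :=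
      mul_le_mul (by linarith) hF (norm_nonneg _) hΘ.le
    rw [mul_div_cancel₀ _ hΘ.ne'] at h2
    linarith

/-- coordinates of `VV` -/
theorem VV_coord28 (b : Atom I) (s α : I) :
    VV P b (s, α) = if b.α = α then P.τ s α * dd s b else 0 := by
  classical
  unfold VV
  rw [lp.coeFn_sum, Finset.sum_apply]
  simp only [lp.coeFn_smul, Pi.smul_apply, smul_eq_mul]
  by_cases hα : b.α = α
  · rw [if_pos hα]
    subst hα
    by_cases hs : s ∈ b.f.support
    · rw [Finset.sum_eq_single s]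
      · rw [e1_self, mul_one]
      · intro s' _ hne
        rw [e1_ne, mul_zero]
        intro h
        exact hne (congrArg Prod.fst h).symm
      · intro h; exact absurd hs h
    · rw [dd_zero hs, mul_zero]
      refine Finset.sum_eq_zero (fun s' hs' => ?_)
      rw [e1_ne, mul_zero]
      intro h
      have : s = s' := congrArg Prod.fst h
      exact hs (this ▸ hs')
  · rw [if_neg hα]
    refine Finset.sum_eq_zero (fun s' hs' => ?_)
    rw [e1_ne, mul_zero]
    intro h
    exact hα (congrArg Prod.snd h).symm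

/-- truncation: atoms with index below `δ` -/
theorem exists_trunc (δ : I) : ∃ Θ : L1 (Atom I) →L[ℝ] L1 (Atom I),
    (∀ a, Θ (e1 a) = 0 ∨ ∃ b : Atom I, b.α ≤ δ ∧ Θ (e1 a) = e1 b) ∧
    (∀ t, ‖Θ t‖ ≤ ‖t‖) ∧
    (∀ t s α, α < δ → V P (Θ t) (s, α) = V P t (s, α)) ∧
    (∀ t s α, δ ≤ α → V P (Θ t) (s, α) = 0) ∧
    (∀ t s, δ ≤ s → U s (Θ t) = 0) := by
  classical
  obtain ⟨Θ, hΘ, -, hn⟩ := exists_lift
    (fun a : Atom I => if a.α < δ then (e1 a : L1 (Atom I)) else 0) 1 zero_le_one
    (fun a => by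
      show ‖(if a.α < δ then (e1 a : L1 (Atom I)) else 0)‖ ≤ 1
      split_ifs
      · exact (e1_norm _).le
      · rw [norm_zero]; exact zero_le_one)
  have hev : ∀ (s α : I) (t : L1 (Atom I)),
      V P t (s, α) = ((lp.evalCLM ℝ (fun _ : I × I => ℝ) 1 (s, α)).comp (V P)) t := fun s α t => rfl
  have hVc : ∀ (s α : I) (a : Atom I), V P (Θ (e1 a)) (s, α) =
      if a.α < δ then (if a.α = α then P.τ s α * dd s a else 0) else 0 := by
    intro s α a
    rw [hΘ]
    split_ifs with h1 h2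
    · rw [V_e1, VV_coord28, if_pos h2]
    · rw [V_e1, VV_coord28, if_neg h2]
    · rw [map_zero]; rfl
  refine ⟨Θ, ?_, ?_, ?_, ?_, ?_⟩
  · intro a
    by_cases h : a.α < δ
    · exact Or.inr ⟨a, h.le, by rw [hΘ, if_pos h]⟩
    · exact Or.inl (by rw [hΘ, if_neg h])
  · intro t
    have := hn t
    rwa [one_mul] at this
  · intro t s α hα
    have : ((lp.evalCLM ℝ (fun _ : I × I => ℝ) 1 (s, α)).comp (V P)).comp Θ =
        (lp.evalCLM ℝ (fun _ : I × I => ℝ) 1 (s, α)).comp (V P) := by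
      apply l1_ext
      intro a
      rw [ContinuousLinearMap.comp_apply, ← hev, ← hev, hVc, V_e1, VV_coord28]
      by_cases ha : a.α = α
      · have hlt : a.α < δ := ha ▸ hα
        rw [if_pos ha, if_pos hlt]
      · rw [if_neg ha, ite_self]
    exact congrArg (fun T : L1 (Atom I) →L[ℝ] ℝ => T t) this
  · intro t s α hα
    have : ((lp.evalCLM ℝ (fun _ : I × I => ℝ) 1 (s, α)).comp (V P)).comp Θ = 0 := by
      apply l1_ext
      intro a
      rw [ContinuousLinearMap.comp_apply, ← hev, hVc]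
      by_cases ha : a.α < δ
      · rw [if_pos ha, if_neg]
        · rfl
        · intro h
          exact absurd hα (not_le.2 (h ▸ ha))
      · rw [if_neg ha]; rfl
    exact congrArg (fun T : L1 (Atom I) →L[ℝ] ℝ => T t) this
  · intro t s hs
    have : (U (I := I) s).comp Θ = 0 := by
      apply l1_ext
      intro a
      rw [ContinuousLinearMap.comp_apply, hΘ]
      by_cases ha : a.α < δ
      · rw [if_pos ha, U_e1, uu_zero]
        · rfl
        · intro hm
          exact absurd (a.f_lt s hm) (not_lt.2 (ha.le.trans hs))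
      · rw [if_neg ha, map_zero]; rfl
    exact congrArg (fun T : L1 (Atom I) →L[ℝ] ℝ => T t) this

/-- coordinates of `VV` -/
theorem VV_coord (b : Atom I) (s α : I) :
    VV P b (s, α) = if b.α = α then P.τ s α * dd s b else 0 := by
  classical
  unfold VV
  rw [lp.coeFn_sum, Finset.sum_apply]
  simp only [lp.coeFn_smul, Pi.smul_apply, smul_eq_mul]
  by_cases hα : b.α = α
  · rw [if_pos hα]
    subst hα
    by_cases hs : s ∈ b.f.support
    · rw [Finset.sum_eq_single s]
      · rw [e1_self, mul_one]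
      · intro s' _ hne
        rw [e1_ne, mul_zero]
        intro h
        exact hne (congrArg Prod.fst h).symm
      · intro h; exact absurd hs h
    · rw [dd_zero hs, mul_zero]
      refine Finset.sum_eq_zero (fun s' hs' => ?_)
      rw [e1_ne, mul_zero]
      intro h
      have : s = s' := congrArg Prod.fst h
      exact hs (this ▸ hs')
  · rw [if_neg hα]
    refine Finset.sum_eq_zero (fun s' hs' => ?_)
    rw [e1_ne, mul_zero]
    intro h
    exact hα (congrArg Prod.snd h).symm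

open Classical in
/-- the collapsed atom -/
noncomputable def col (δ : I) (a : Atom I) : Atom I where
  q := a.q
  j := a.j
  α := min a.α δ
  f := a.f.filter (fun s => s < δ)
  f_le := by
    intro s
    rw [Finsupp.filter_apply]
    split_ifs
    · exact a.f_le s
    · simp
  f_lt := by
    intro s hs
    rw [Finsupp.support_filter, Finset.mem_filter] at hs
    exact lt_min (a.f_lt s hs.1) hs.2
  f_card := by
    refine le_trans (Finset.card_le_card ?_) a.f_card
    rw [Finsupp.support_filter]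
    exact Finset.filter_subset _ _

theorem col_f_lt {δ s : I} (a : Atom I) (h : s < δ) : (col δ a).f s = a.f s := by
  classical
  change a.f.filter (fun s => s < δ) s = a.f s
  rw [Finsupp.filter_apply, if_pos h]

theorem col_f_ge {δ s : I} (a : Atom I) (h : δ ≤ s) : (col δ a).f s = 0 := by
  classical
  change a.f.filter (fun s => s < δ) s = 0
  rw [Finsupp.filter_apply, if_neg (not_lt.2 h)]

theorem col_uu_lt {δ s : I} (a : Atom I) (h : s < δ) : uu s (col δ a) = uu s a := by
  unfold uu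
  rw [col_f_lt a h]
  rfl

theorem col_ww_lt {δ s : I} (a : Atom I) (h : s < δ) : ww s (col δ a) = ww s a := by
  unfold ww
  rw [col_f_lt a h]
  rfl

theorem col_uu_ge {δ s : I} (a : Atom I) (h : δ ≤ s) : uu s (col δ a) = 0 := by
  unfold uu
  rw [col_f_ge a h]
  simp

theorem col_ww_ge {δ s : I} (a : Atom I) (h : δ ≤ s) : ww s (col δ a) = 0 := by
  unfold ww
  rw [col_f_ge a h]
  simp

theorem col_alpha (δ : I) (a : Atom I) : (col δ a).α = min a.α δ := rfl

theorem col_dd {δ s : I} (a : Atom I) (h : a.α < δ) : dd s (col δ a) = dd s a := by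
  rcases lt_or_ge s δ with hs | hs
  · unfold dd
    rw [col_uu_lt a hs, col_ww_lt a hs]
  · have h1 : s ∉ a.f.support := by
      intro hm
      exact absurd (a.f_lt s hm) (not_lt.2 (h.le.trans hs))
    rw [dd_zero h1]
    unfold dd
    rw [col_uu_ge a hs, col_ww_ge a hs, sub_zero]

/-- collapse: restrict to `s < δ` and replace the index `α` by `min α δ` -/
theorem exists_collapse (δ : I) : ∃ Θ : L1 (Atom I) →L[ℝ] L1 (Atom I),
    (∀ a, Θ (e1 a) = 0 ∨ ∃ b : Atom I, b.α ≤ δ ∧ Θ (e1 a) = e1 b) ∧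
    (∀ t s, s < δ → U s (Θ t) = U s t) ∧ (∀ t s, s < δ → W s (Θ t) = W s t) ∧
    (∀ t s, δ ≤ s → U s (Θ t) = 0) ∧ (∀ t s, δ ≤ s → W s (Θ t) = 0) ∧
    (∀ t s α, α < δ → V P (Θ t) (s, α) = V P t (s, α)) ∧
    (∀ t s α, δ < α → V P (Θ t) (s, α) = 0) ∧
    (∀ t s α, δ ≤ s → V P (Θ t) (s, α) = 0) := by
  obtain ⟨Θ, hΘ, -, -⟩ := exists_lift (fun a : Atom I => e1 (col δ a)) 1 zero_le_one
    (fun a => (e1_norm _).le)
  have hev : ∀ (s α : I) (t : L1 (Atom I)),
      V P t (s, α) = ((lp.evalCLM ℝ (fun _ : I × I => ℝ) 1 (s, α)).comp (V P)) t := fun s α t => rfl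
  have hVc : ∀ (s α : I) (a : Atom I), V P (Θ (e1 a)) (s, α) =
      if min a.α δ = α then P.τ s α * dd s (col δ a) else 0 := by
    intro s α a
    rw [hΘ, V_e1, VV_coord, col_alpha]
  refine ⟨Θ, ?_, ?_, ?_, ?_, ?_, ?_, ?_, ?_⟩
  · intro a
    exact Or.inr ⟨col δ a, min_le_right _ _, hΘ a⟩
  · intro t s hs
    have : (U (I := I) s).comp Θ = U s := by
      apply l1_ext
      intro a
      rw [ContinuousLinearMap.comp_apply, hΘ, U_e1, U_e1, col_uu_lt a hs]
    exact congrArg (fun T : L1 (Atom I) →L[ℝ] ℝ => T t) this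
  · intro t s hs
    have : (W (I := I) s).comp Θ = W s := by
      apply l1_ext
      intro a
      rw [ContinuousLinearMap.comp_apply, hΘ, W_e1, W_e1, col_ww_lt a hs]
    exact congrArg (fun T : L1 (Atom I) →L[ℝ] ℝ => T t) this
  · intro t s hs
    have : (U (I := I) s).comp Θ = 0 := by
      apply l1_ext
      intro a
      rw [ContinuousLinearMap.comp_apply, hΘ, U_e1, col_uu_ge a hs]
      rfl
    exact congrArg (fun T : L1 (Atom I) →L[ℝ] ℝ => T t) this
  · intro t s hs
    have : (W (I := I) s).comp Θ = 0 := by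
      apply l1_ext
      intro a
      rw [ContinuousLinearMap.comp_apply, hΘ, W_e1, col_ww_ge a hs]
      rfl
    exact congrArg (fun T : L1 (Atom I) →L[ℝ] ℝ => T t) this
  · intro t s α hα
    have : ((lp.evalCLM ℝ (fun _ : I × I => ℝ) 1 (s, α)).comp (V P)).comp Θ =
        (lp.evalCLM ℝ (fun _ : I × I => ℝ) 1 (s, α)).comp (V P) := by
      apply l1_ext
      intro a
      rw [ContinuousLinearMap.comp_apply, ← hev, ← hev, hVc, V_e1, VV_coord]
      by_cases ha : a.α = α
      · have hlt : a.α < δ := ha ▸ hα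
        rw [if_pos ha, if_pos (by rw [min_eq_left hlt.le, ha]), col_dd a hlt]
      · rw [if_neg ha, if_neg]
        intro hm
        rcases lt_or_ge a.α δ with h1 | h1
        · exact ha (by rw [min_eq_left h1.le] at hm; exact hm)
        · rw [min_eq_right h1] at hm
          exact absurd hα (by rw [hm]; exact lt_irrefl _)
    exact congrArg (fun T : L1 (Atom I) →L[ℝ] ℝ => T t) this
  · intro t s α hα
    have : ((lp.evalCLM ℝ (fun _ : I × I => ℝ) 1 (s, α)).comp (V P)).comp Θ = 0 := by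
      apply l1_ext
      intro a
      rw [ContinuousLinearMap.comp_apply, ← hev, hVc, if_neg]
      · rfl
      · intro hm
        exact absurd (min_le_right a.α δ) (by rw [hm]; exact not_le.2 hα)
    exact congrArg (fun T : L1 (Atom I) →L[ℝ] ℝ => T t) this
  · intro t s α hs
    have : ((lp.evalCLM ℝ (fun _ : I × I => ℝ) 1 (s, α)).comp (V P)).comp Θ = 0 := by
      apply l1_ext
      intro a
      rw [ContinuousLinearMap.comp_apply, ← hev, hVc]
      have hd : dd s (col δ a) = 0 := by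
        unfold dd
        rw [col_uu_ge a hs, col_ww_ge a hs, sub_zero]
      rw [hd, mul_zero, ite_self]
      rfl
    exact congrArg (fun T : L1 (Atom I) →L[ℝ] ℝ => T t) this

/-- `V` has no coordinates `(s, α)` with `α ≤ s` -/
theorem V_zero_of_le (t : L1 (Atom I)) {s α : I} (h : α ≤ s) : V P t (s, α) = 0 := by
  have h1 := V_apply P t s α
  have h2 : (fun a : Atom I => t a * (if a.α = α then P.τ s α * dd s a else 0)) = fun _ => 0 := by
    funext a
    by_cases ha : a.α = α
    · have hs : s ∉ a.f.support := by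
        intro hs
        have := a.f_lt s hs
        rw [ha] at this
        exact absurd this (not_lt.mpr h)
      rw [if_pos ha, dd_zero hs]
      ring
    · rw [if_neg ha, mul_zero]
  rw [h2] at h1
  exact h1.unique hasSum_zero

theorem U_countable (t : L1 (Atom I)) : {s | U s t ≠ 0}.Countable := by
  have hc : (Function.support fun a => |t a|).Countable := (l1_summable t).countable_support
  have hU : (⋃ a ∈ (Function.support fun a => |t a|), (a.f.support : Set I)).Countable :=
    hc.biUnion fun a _ => a.f.support.countable_toSet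
  refine hU.mono ?_
  intro s hs
  by_contra hcon
  apply hs
  have h1 := U_hasSum s t
  have h2 : (fun a : Atom I => t a * uu s a) = fun _ => 0 := by
    funext a
    by_cases ha : t a = 0
    · rw [ha, zero_mul]
    · have hsa : s ∉ a.f.support := by
        intro hsa
        apply hcon
        rw [Set.mem_iUnion₂]
        refine ⟨a, ?_, hsa⟩
        rw [Function.mem_support]
        exact abs_ne_zero.mpr ha
      rw [uu_zero hsa, mul_zero]
  rw [h2] at h1
  exact h1.unique hasSum_zero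

theorem caseA1_bil0 {X : Type} [NormedAddCommGroup X] [NormedSpace ℝ X] (B : X →L[ℝ] X →L[ℝ] ℝ) :
    ∃ C : ℝ, 0 ≤ C ∧ ∀ x x', |B x x'| ≤ C * ‖x‖ * ‖x'‖ := by
  refine ⟨‖B‖, norm_nonneg B, fun x x' => ?_⟩
  simpa [Real.norm_eq_abs] using B.le_opNorm₂ x x'

theorem caseA1_bil {L : Type} [NormedAddCommGroup L] [NormedSpace ℝ L] (K : Submodule ℝ L)
    [IsClosed (K : Set L)] (B : (L ⧸ K) →L[ℝ] (L ⧸ K) →L[ℝ] ℝ) :
    ∃ C : ℝ, 0 ≤ C ∧ ∀ x x', |B x x'| ≤ C * ‖x‖ * ‖x'‖ :=
  caseA1_bil0 B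

/-- case A, step 1 -/
theorem caseA1 (hI : (∀ a : I, (Iio a).Countable) ∧ ¬ (univ : Set I).Countable)
    (N : Submodule ℝ (XX P)) (hN : ∀ t, mk P t ∈ N → AA P t t = 0) (δ : I)
    (hδ : ∀ t, mk P t ∈ N → ∀ s α, δ ≤ α → V P t (s, α) = 0) :
    {s | ∃ t, mk P t ∈ N ∧ U s t ≠ 0}.Countable := by
  by_contra hS
  -- the quotient form
  obtain ⟨B, hB⟩ := exists_quot_bil (KK P) (AA P) (fun t ht t' => AA_ker P ht t')
    (fun t ht t' => by rw [AA_symm]; exact AA_ker P ht t')
  have hB' : ∀ t t', B (mk P t) (mk P t') = AA P t t' := hB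
  obtain ⟨C, hC0, hCB⟩ := caseA1_bil (KK P) B
  obtain ⟨Θ, hΘ1, hΘ2, hΘ3, hΘ4, hΘ5⟩ := exists_trunc P δ
  have mk_sub : ∀ t t', mk P (t - t') = mk P t - mk P t' := fun t t' =>
    Submodule.Quotient.mk_sub (KK P)
  have mk_smul : ∀ (c : ℝ) t, mk P (c • t) = c • mk P t := fun c t =>
    Submodule.Quotient.mk_smul (KK P) c t
  -- choose representatives
  have hch : ∀ s : I, ∃ t : L1 (Atom I), (∃ t, mk P t ∈ N ∧ U s t ≠ 0) →
      (mk P t ∈ N ∧ U s t = 1) := by
    intro s
    by_cases h : ∃ t, mk P t ∈ N ∧ U s t ≠ 0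
    · obtain ⟨t, ht1, ht2⟩ := h
      refine ⟨(U s t)⁻¹ • t, fun _ => ⟨?_, ?_⟩⟩
      · rw [mk_smul]; exact N.smul_mem _ ht1
      · rw [map_smul, smul_eq_mul, inv_mul_cancel₀ ht2]
    · exact ⟨0, fun h' => absurd h' h⟩
  choose T hT using hch
  set S : Set I := {s | ∃ t, mk P t ∈ N ∧ U s t ≠ 0} with hSdef
  have hTS : ∀ s ∈ S, mk P (T s) ∈ N ∧ U s (T s) = 1 := fun s hs => hT s hs
  -- thin out 1
  have h1 : ∃ n : ℕ, ¬ {s ∈ S | ‖T s‖ ≤ n}.Countable := by
    by_contra hcon
    push Not at hcon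
    apply hS
    refine Set.Countable.mono ?_ (Set.countable_iUnion hcon)
    intro s hs
    obtain ⟨n, hn⟩ := exists_nat_ge ‖T s‖
    exact Set.mem_iUnion.2 ⟨n, hs, hn⟩
  obtain ⟨n, hn⟩ := h1
  -- choose d
  obtain ⟨d, hd0, hd⟩ : ∃ d : ℝ, 0 < d ∧ C * (4 * n * d + d ^ 2) < 2 := by
    have hb : 0 ≤ C := hC0
    have hn0 : (0 : ℝ) ≤ n := Nat.cast_nonneg n
    set K : ℝ := C * (4 * n + 1) with hK
    have hK0 : 0 ≤ K := by positivity
    refine ⟨1 / (K + 1), by positivity, ?_⟩
    have hle1 : 1 / (K + 1) ≤ 1 := by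
      rw [div_le_one (by positivity)]; linarith
    have hpos : 0 < 1 / (K + 1) := by positivity
    have h2 : (1 / (K + 1)) ^ 2 ≤ 1 / (K + 1) := by nlinarith
    have h3 : C * (4 * n * (1 / (K + 1)) + (1 / (K + 1)) ^ 2) ≤ K * (1 / (K + 1)) := by
      have h5 : K * (1 / (K + 1)) = C * ((4 * n + 1) * (1 / (K + 1))) := by
        rw [← mul_assoc]
      rw [h5]
      apply mul_le_mul_of_nonneg_left _ hb
      linarith
    have h4 : K * (1 / (K + 1)) ≤ 1 := by
      rw [mul_one_div, div_le_one (by positivity)]; linarith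
    linarith
  -- thin out 2
  obtain ⟨c, hc, hcY⟩ := YY_sep P hI.1 δ
  have h2 : ∃ y ∈ c, ¬ {s ∈ {s ∈ S | ‖T s‖ ≤ n} | dist (mk P (Θ (T s))) y < d / 2}.Countable := by
    by_contra hcon
    push Not at hcon
    apply hn
    refine Set.Countable.mono ?_ (Set.Countable.biUnion hc hcon)
    intro s hs
    have hmem : mk P (Θ (T s)) ∈ closure c := hcY (mk_mem_YY P δ Θ hΘ1 (T s))
    obtain ⟨y, hy, hyd⟩ := Metric.mem_closure_iff.1 hmem (d / 2) (by positivity)
    exact Set.mem_iUnion₂.2 ⟨y, hy, hs, hyd⟩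
  obtain ⟨y, hy, hunc⟩ := h2
  set S' : Set I := {s ∈ {s ∈ S | ‖T s‖ ≤ n} | dist (mk P (Θ (T s))) y < d / 2} with hS'
  have hne : S'.Nonempty := by
    by_contra h
    rw [Set.not_nonempty_iff_eq_empty] at h
    exact hunc (h ▸ Set.countable_empty)
  obtain ⟨s1, hs1⟩ := hne
  have h3 : ∃ s2 ∈ S', δ ≤ s2 ∧ U s2 (T s1) = 0 := by
    by_contra hcon
    push Not at hcon
    apply hunc
    refine Set.Countable.mono ?_ ((hI.1 δ).union (U_countable (T s1)))
    intro s hs
    by_cases h : δ ≤ s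
    · exact Or.inr (hcon s hs h)
    · exact Or.inl (not_le.1 h)
  obtain ⟨s2, hs2, hδs, hU0⟩ := h3
  have hs1' : s1 ∈ S ∧ ‖T s1‖ ≤ n := hs1.1
  have hs2' : s2 ∈ S ∧ ‖T s2‖ ≤ n := hs2.1
  have hd1 : dist (mk P (Θ (T s1))) y < d / 2 := hs1.2
  have hd2 : dist (mk P (Θ (T s2))) y < d / 2 := hs2.2
  set t : L1 (Atom I) := T s2 - T s1 with ht
  have htN : mk P t ∈ N := by
    rw [ht, mk_sub]
    exact N.sub_mem (hTS s2 hs2'.1).1 (hTS s1 hs1'.1).1
  have hUt : U s2 t = 1 := by
    rw [ht, map_sub, hU0, (hTS s2 hs2'.1).2, sub_zero]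
  have hVz : V P (t - Θ t) = 0 := by
    rw [map_sub]
    apply lp.ext
    funext p
    obtain ⟨s, α⟩ := p
    rw [lp.coeFn_sub, Pi.sub_apply, lp.coeFn_zero, Pi.zero_apply]
    rcases lt_or_ge α δ with h | h
    · rw [hΘ3 t s α h, sub_self]
    · rw [hΘ4 t s α h, hδ t htN s α h, sub_zero]
  have hUz : U s2 (t - Θ t) = 1 := by
    rw [map_sub, hUt, hΘ5 t s2 hδs, sub_zero]
  have hdiag := AA_diag P hVz s2
  rw [hUz] at hdiag
  have hAtt : AA P t t = 0 := hN t htN
  have hexp : AA P (t - Θ t) (t - Θ t)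
      = AA P t t - AA P t (Θ t) - AA P (Θ t) t + AA P (Θ t) (Θ t) := by
    have gen : ∀ a b : L1 (Atom I), AA P (a - b) (a - b)
        = AA P a a - AA P a b - AA P b a + AA P b b := by
      intro a b
      rw [map_sub, map_sub]
      rw [show (AA P a - AA P b) a = AA P a a - AA P b a from rfl,
        show (AA P a - AA P b) b = AA P a b - AA P b b from rfl]
      ring
    exact gen t (Θ t)
  have hnx : ‖mk P t‖ ≤ 2 * n := by
    refine (mk_norm P t).trans ?_
    rw [ht]
    refine (norm_sub_le _ _).trans ?_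
    linarith [hs1'.2, hs2'.2]
  have hny : ‖mk P (Θ t)‖ ≤ d := by
    have e : mk P (Θ t) = mk P (Θ (T s2)) - mk P (Θ (T s1)) := by
      rw [ht, map_sub, mk_sub]
    rw [e, ← dist_eq_norm]
    refine (dist_triangle_right _ _ y).trans ?_
    linarith
  have hb : ∀ x x' : XX P, |B x x'| ≤ C * ‖x‖ * ‖x'‖ := hCB
  have hn0 : (0 : ℝ) ≤ n := Nat.cast_nonneg n
  have e1 : |AA P t (Θ t)| ≤ C * (2 * n) * d := by
    rw [← hB']
    refine (hb _ _).trans ?_
    gcongr
  have e2 : |AA P (Θ t) t| ≤ C * d * (2 * n) := by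
    rw [← hB']
    refine (hb _ _).trans ?_
    gcongr
  have e3 : |AA P (Θ t) (Θ t)| ≤ C * d * d := by
    rw [← hB']
    refine (hb _ _).trans ?_
    gcongr
  rw [hexp, hAtt] at hdiag
  have f1 := neg_abs_le (AA P t (Θ t))
  have f2 := neg_abs_le (AA P (Θ t) t)
  have f3 := le_abs_self (AA P (Θ t) (Θ t))
  have : C * (4 * n * d + d ^ 2) = C * (2 * n) * d + C * d * (2 * n) + C * d * d := by ring
  linarith

/-- case A, step 2 -/
theorem caseA (hI : (∀ a : I, (Iio a).Countable) ∧ ¬ (univ : Set I).Countable)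
    (N : Submodule ℝ (XX P)) (hN : ∀ t, mk P t ∈ N → AA P t t = 0) (δ : I)
    (hδ : ∀ t, mk P t ∈ N → ∀ s α, δ ≤ α → V P t (s, α) = 0) :
    TopologicalSpace.IsSeparable (N : Set (XX P)) := by
  have hS := caseA1 P hI N hN δ hδ
  set S : Set I := {s | ∃ t, mk P t ∈ N ∧ U s t ≠ 0} with hSdef
  have hS' : (insert δ S).Countable := hS.insert δ
  obtain ⟨δ1, hδ1⟩ : ∃ δ1 : I, ∀ s ∈ insert δ S, s < δ1 := by
    by_contra hcon
    push Not at hcon
    apply hI.2
    have h1 : (univ : Set I) ⊆ ⋃ s ∈ insert δ S, Iic s := by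
      intro x _
      obtain ⟨s, hs, hxs⟩ := hcon x
      exact mem_iUnion₂.mpr ⟨s, hs, hxs⟩
    refine Set.Countable.mono h1 (hS'.biUnion ?_)
    intro s _
    have h2 : Iic s = insert s (Iio s) := by
      rw [Iio_insert]
    rw [h2]
    exact (hI.1 s).insert s
  have hδδ : δ < δ1 := hδ1 δ (mem_insert _ _)
  have hU0 : ∀ t, mk P t ∈ N → ∀ s, δ1 ≤ s → U s t = 0 := by
    intro t ht s hs
    by_contra hne
    exact absurd (hδ1 s (mem_insert_of_mem _ ⟨t, ht, hne⟩)) (not_lt.mpr hs)
  obtain ⟨Θ, hΘa, hΘU, hΘW, hΘU0, hΘW0, hΘV, hΘV0, hΘV1⟩ := exists_collapse P δ1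
  refine (YY_sep P hI.1 δ1).mono ?_
  intro x hx
  obtain ⟨t, ht⟩ := Submodule.Quotient.mk_surjective (KK P) x
  have ht' : mk P t = x := ht
  have htN : mk P t ∈ N := by rw [ht']; exact hx
  have hkey : mk P t = mk P (Θ t) := by
    rw [mk_eq, mem_KK]
    have hUy : ∀ s, U s (t - Θ t) = 0 := by
      intro s
      rw [map_sub]
      rcases lt_or_ge s δ1 with hs | hs
      · rw [hΘU t s hs, sub_self]
      · rw [hΘU0 t s hs, hU0 t htN s hs, sub_self]
    have hWy : ∀ s, W s (t - Θ t) = 0 := by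
      intro s
      rw [map_sub]
      rcases lt_or_ge s δ1 with hs | hs
      · rw [hΘW t s hs, sub_self]
      · rw [hΘW0 t s hs]
        have h1 := V_sum P t s
        have h2 : (fun α => V P t (s, α) / P.τ s α) = fun _ => (0 : ℝ) := by
          funext α
          rcases le_or_gt α s with h3 | h3
          · rw [V_zero_of_le P t h3, zero_div]
          · rw [hδ t htN s α ((hδδ.le.trans hs).trans h3.le), zero_div]
        rw [h2] at h1
        have h4 := h1.unique hasSum_zero
        rw [hU0 t htN s hs] at h4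
        linarith
    have hcoord : ∀ s α, V P (t - Θ t) (s, α) = V P t (s, α) - V P (Θ t) (s, α) := by
      intro s α
      rw [map_sub]
      rfl
    have hVne : ∀ s α, α ≠ δ1 → V P (t - Θ t) (s, α) = 0 := by
      intro s α hα
      rw [hcoord]
      rcases lt_or_gt_of_ne hα with h1 | h1
      · rw [hΘV t s α h1, sub_self]
      · rw [hΘV0 t s α h1, hδ t htN s α (hδδ.le.trans h1.le), sub_self]
    refine ⟨hUy, hWy, ?_⟩
    apply lp.ext
    funext p
    obtain ⟨s, α⟩ := p
    show V P (t - Θ t) (s, α) = 0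
    by_cases hα : α = δ1
    · subst hα
      rcases lt_or_ge s α with hs | hs
      · have h1 := V_sum P (t - Θ t) s
        rw [hUy s, hWy s, sub_zero] at h1
        have h2 : HasSum (fun β => V P (t - Θ t) (s, β) / P.τ s β)
            (V P (t - Θ t) (s, α) / P.τ s α) := by
          apply hasSum_single α
          intro β hβ
          rw [hVne s β hβ, zero_div]
        have h3 := h1.unique h2
        have h4 := P.τ_pos s α
        have h5 := (div_eq_zero_iff.mp h3.symm)
        rcases h5 with h5 | h5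
        · exact h5
        · exact absurd h5 h4.ne'
      · rw [hcoord, hΘV1 t s α hs, V_zero_of_le P t hs, sub_self]
    · exact hVne s α hα
  show x ∈ YY P δ1
  rw [← ht', hkey]
  exact mk_mem_YY P δ1 Θ hΘa t

end

end Pool.Agent.Helper737.QF
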