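import Mathlib

set_option autoImplicit false
set_option maxHeartbeats 4000000

namespace Pool.Agent.Helper737.QF

open Set Function

/-- `I` is an uncountable linear order with countable initial segments. -/
def Om (I : Type) [LinearOrder I] : Prop :=
  (∀ a : I, (Iio a).Countable) ∧ ¬ (univ : Set I).Countable

/-- coherent finite-to-one functions -/
def Coh {I : Type} [LinearOrder I] (e : I → I → ℕ) : Prop :=
  (∀ a n, {x | x < a ∧ e a x = n}.Finite) ∧
    (∀ a b, a < b → {x | x < a ∧ e a x ≠ e b x}.Finite)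

open Classical in
/-- the sign of the first difference, for `a < b` -/
noncomputable def cs0 {I : Type} [LinearOrder I] (e : I → I → ℕ) (a b : I) : ℝ :=
  if ∃ x < a, e a x < e b x ∧ ∀ y < x, e a y = e b y then 1
  else if ∃ x < a, e b x < e a x ∧ ∀ y < x, e a y = e b y then -1 else 0

open Classical in
noncomputable def cs {I : Type} [LinearOrder I] (e : I → I → ℕ) (a b : I) : ℝ :=
  if a < b then cs0 e a b else if b < a then cs0 e b a else 0

section

variable {I : Type} [LinearOrder I]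

theorem bdd_of_countable (hI : Om I) {S : Set I} (hS : S.Countable) : ∃ b, ∀ s ∈ S, s < b := by
  by_contra hcon
  push Not at hcon
  apply hI.2
  have h1 : (⋃ s ∈ S, (Iio s ∪ {s})).Countable :=
    hS.biUnion fun s _ => (hI.1 s).union (countable_singleton s)
  refine h1.mono ?_
  intro x _
  obtain ⟨s, hs, hxs⟩ := hcon x
  refine mem_biUnion hs ?_
  rcases lt_or_eq_of_le hxs with h | h
  · exact Or.inl h
  · exact Or.inr h

theorem cs_comm (e : I → I → ℕ) (a b : I) : cs e a b = cs e b a := by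
  unfold cs
  rcases lt_trichotomy a b with h | h | h
  · rw [if_pos h, if_neg (not_lt.2 h.le), if_pos h]
  · rw [h]
  · rw [if_neg (not_lt.2 h.le), if_pos h, if_pos h]

theorem cs_self (e : I → I → ℕ) (a : I) : cs e a a = 0 := by
  unfold cs
  rw [if_neg (lt_irrefl a), if_neg (lt_irrefl a)]

theorem cs_abs (e : I → I → ℕ) (a b : I) : |cs e a b| ≤ 1 := by
  unfold cs cs0
  split_ifs <;> simp

theorem cs_pos (e : I → I → ℕ) {a b x : I} (hab : a < b) (hx : x < a) (h : e a x < e b x)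
    (hy : ∀ y < x, e a y = e b y) : cs e a b = 1 := by
  unfold cs cs0
  rw [if_pos hab, if_pos ⟨x, hx, h, hy⟩]

theorem cs_neg (e : I → I → ℕ) {a b x : I} (hab : a < b) (hx : x < a) (h : e b x < e a x)
    (hy : ∀ y < x, e a y = e b y) : cs e a b = -1 := by
  unfold cs cs0
  rw [if_pos hab, if_neg, if_pos ⟨x, hx, h, hy⟩]
  rintro ⟨x', _, h', hy'⟩
  rcases lt_trichotomy x x' with hlt | heq | hlt
  · have := hy' x hlt
    omega
  · rw [heq] at h
    omega
  · have := hy x' hlt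
    omega

open Classical in
/-- the recursive construction -/
noncomputable def h170E [WellFoundedLT I] (B : I → ℕ → I) : I → I → ℕ :=
  WellFounded.fix (C := fun _ : I => I → ℕ) (wellFounded_lt : WellFounded ((· < ·) : I → I → Prop))
    (fun a ih x => if h : B a (sInf {n | x ≤ B a n}) < a ∧ x < a then
      max (sInf {n | x ≤ B a n}) (ih (B a (sInf {n | x ≤ B a n})) h.1 x) else 0)

open Classical in
theorem h170E_eq [WellFoundedLT I] (B : I → ℕ → I) (a x : I) :
    h170E B a x = if B a (sInf {n | x ≤ B a n}) < a ∧ x < a then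
      max (sInf {n | x ≤ B a n}) (h170E B (B a (sInf {n | x ≤ B a n})) x) else 0 := by
  unfold h170E
  rw [WellFounded.fix_eq]
  split_ifs <;> rfl

theorem exists_coh [WellFoundedLT I] (hI : Om I) : ∃ e : I → I → ℕ, Coh e := by
  classical
  have hB : ∀ a : I, ∃ f : ℕ → I, (Iio a).Nonempty → range f = Iio a := by
    intro a
    by_cases h : (Iio a).Nonempty
    · obtain ⟨f, hf⟩ := (hI.1 a).exists_eq_range h
      exact ⟨f, fun _ => hf.symm⟩
    · exact ⟨fun _ => a, fun h' => absurd h' h⟩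
  choose B hB using hB
  have hlt : ∀ a x n, x < a → B a n < a := by
    intro a x n hx
    have h1 : B a n ∈ Iio a := by
      rw [← hB a ⟨x, hx⟩]
      exact mem_range_self n
    exact h1
  have hsur : ∀ a x, x < a → ∃ n, B a n = x := by
    intro a x hx
    have h1 : x ∈ range (B a) := by rw [hB a ⟨x, hx⟩]; exact hx
    exact h1
  set e : I → I → ℕ := h170E B with he
  have hn : ∀ a x, x < a → x ≤ B a (sInf {n | x ≤ B a n}) := by
    intro a x hx
    obtain ⟨n, hn⟩ := hsur a x hx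
    have h1 : sInf {n | x ≤ B a n} ∈ {n | x ≤ B a n} := Nat.sInf_mem ⟨n, hn.ge⟩
    exact h1
  have hnle : ∀ a x m, x ≤ B a m → sInf {n | x ≤ B a n} ≤ m := fun a x m h => Nat.sInf_le h
  have heq : ∀ a x, x < a → e a x = max (sInf {n | x ≤ B a n}) (e (B a (sInf {n | x ≤ B a n})) x) := by
    intro a x hx
    rw [he, h170E_eq, if_pos ⟨hlt a x _ hx, hx⟩]
  have hfin : ∀ a : I, ∀ k : ℕ, {x | x < a ∧ e a x ≤ k}.Finite := by
    intro a
    induction a using WellFoundedLT.induction with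
    | ind a ih =>
      intro k
      have hsub : {x | x < a ∧ e a x ≤ k} ⊆
          ⋃ n ∈ (Finset.range (k + 1) : Finset ℕ), ({B a n} ∪ (if B a n < a then {x | x < B a n ∧ e (B a n) x ≤ k} else ∅)) := by
        rintro x ⟨hx, hxk⟩
        rw [heq a x hx] at hxk
        rw [mem_iUnion₂]
        refine ⟨sInf {n | x ≤ B a n}, ?_, ?_⟩
        · rw [Finset.mem_range]
          have := (le_max_left _ _).trans hxk
          omega
        · rcases (hn a x hx).eq_or_lt with h | h
          · left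
            exact h
          · right
            rw [if_pos (hlt a x _ hx)]
            exact ⟨h, (le_max_right _ _).trans hxk⟩
      refine Set.Finite.subset (Set.Finite.biUnion (Finset.finite_toSet _) ?_) hsub
      intro n _
      refine (finite_singleton _).union ?_
      split_ifs with h
      · exact ih _ h k
      · exact finite_empty
  have hcoh : ∀ a : I, ∀ b : I, b < a → {x | x < b ∧ e b x ≠ e a x}.Finite := by
    intro a
    induction a using WellFoundedLT.induction with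
    | ind a ih =>
      intro b hb
      obtain ⟨m, hm⟩ := hsur a b hb
      have hsub : {x | x < b ∧ e b x ≠ e a x} ⊆
          ⋃ n ∈ (Finset.range (m + 1) : Finset ℕ), ({B a n} ∪ ({x | x < B a n ∧ e (B a n) x ≤ n} ∪
            {x | x < b ∧ x < B a n ∧ e (B a n) x ≠ e b x})) := by
        rintro x ⟨hx, hxe⟩
        have hxa : x < a := hx.trans hb
        rw [heq a x hxa] at hxe
        rw [mem_iUnion₂]
        refine ⟨sInf {n | x ≤ B a n}, ?_, ?_⟩
        · rw [Finset.mem_range]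
          have := hnle a x m (by rw [hm]; exact hx.le)
          omega
        · rcases (hn a x hxa).eq_or_lt with h | h
          · left
            exact h
          · right
            by_cases h2 : e (B a (sInf {n | x ≤ B a n})) x ≤ sInf {n | x ≤ B a n}
            · left
              exact ⟨h, h2⟩
            · right
              refine ⟨hx, h, ?_⟩
              rw [max_eq_right (by omega)] at hxe
              exact fun h3 => hxe h3.symm
      refine Set.Finite.subset (Set.Finite.biUnion (Finset.finite_toSet _) ?_) hsub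
      intro n _
      refine (finite_singleton _).union ((hfin _ n).union ?_)
      have hc : B a n < a := hlt a b n hb
      rcases lt_trichotomy (B a n) b with h | h | h
      · refine (ih b hb (B a n) h).subset ?_
        rintro x ⟨h1, h2, h3⟩
        exact ⟨h2, h3⟩
      · rw [h]
        refine Set.Finite.subset finite_empty ?_
        rintro x ⟨h1, h2, h3⟩
        exact absurd rfl h3
      · refine (ih (B a n) hc b h).subset ?_
        rintro x ⟨h1, h2, h3⟩
        exact ⟨h1, fun h4 => h3 h4.symm⟩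
  refine ⟨e, fun a n => (hfin a n).subset ?_, fun a b hab => hcoh b a hab⟩
  rintro x ⟨h1, h2⟩
  exact ⟨h1, h2.le⟩

theorem delta (hI : Om I) {U : Set I} (hU : ¬ U.Countable) (D : I → Finset I) :
    ∃ R : Finset I, ∃ U' ⊆ U, ¬ U'.Countable ∧ (∀ ν ∈ U', R ⊆ D ν) ∧
      ∀ θ, {ν ∈ U' | ∃ x ∈ D ν, x ∉ R ∧ x < θ}.Countable := by
  classical
  obtain ⟨m, hm⟩ : ∃ m : ℕ, ¬ {ν ∈ U | (D ν).card = m}.Countable := by
    by_contra hc
    push Not at hc
    apply hU
    have h1 : U ⊆ ⋃ m : ℕ, {ν ∈ U | (D ν).card = m} := by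
      intro ν hν
      exact Set.mem_iUnion.mpr ⟨(D ν).card, hν, rfl⟩
    exact (Set.countable_iUnion hc).mono h1
  set U1 : Set I := {ν ∈ U | (D ν).card = m} with hU1
  set P : ℕ → Prop := fun k => ∃ R : Finset I, R.card = k ∧ ¬ {ν ∈ U1 | R ⊆ D ν}.Countable with hP
  have hP0 : P 0 := by
    refine ⟨∅, rfl, ?_⟩
    have h1 : {ν ∈ U1 | (∅ : Finset I) ⊆ D ν} = U1 := by
      ext ν
      constructor
      · exact fun h => h.1
      · exact fun h => ⟨h, Finset.empty_subset _⟩
    rw [h1]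
    exact hm
  have hPm : ∀ k, P k → k ≤ m := by
    rintro k ⟨R, hR, hRc⟩
    have hne : {ν ∈ U1 | R ⊆ D ν}.Nonempty := by
      by_contra hc
      rw [Set.not_nonempty_iff_eq_empty] at hc
      rw [hc] at hRc
      exact hRc Set.countable_empty
    obtain ⟨ν, hν1, hν2⟩ := hne
    have h1 := Finset.card_le_card hν2
    rw [hν1.2, hR] at h1
    exact h1
  set k := Nat.findGreatest P m with hk
  have hPk : P k := Nat.findGreatest_spec (Nat.zero_le m) hP0
  have hPk1 : ¬ P (k + 1) := by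
    intro h
    have h1 := Nat.le_findGreatest (hPm _ h) h
    omega
  obtain ⟨R, hR, hRc⟩ := hPk
  refine ⟨R, {ν ∈ U1 | R ⊆ D ν}, fun ν hν => hν.1.1, hRc, fun ν hν => hν.2, ?_⟩
  intro θ
  by_contra hA
  apply hA
  have h1 : {ν ∈ {ν ∈ U1 | R ⊆ D ν} | ∃ x ∈ D ν, x ∉ R ∧ x < θ}
      ⊆ ⋃ x ∈ {x | x < θ ∧ x ∉ R}, {ν ∈ U1 | insert x R ⊆ D ν} := by
    rintro ν ⟨⟨hν1, hν2⟩, x, hx, hxR, hxθ⟩
    rw [Set.mem_iUnion₂]
    refine ⟨x, ⟨hxθ, hxR⟩, hν1, ?_⟩
    exact Finset.insert_subset hx hν2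
  refine Set.Countable.mono h1 ?_
  apply Set.Countable.biUnion
  · exact (hI.1 θ).mono (fun x hx => hx.1)
  · rintro x ⟨hxθ, hxR⟩
    by_contra hc
    exact hPk1 ⟨insert x R, by rw [Finset.card_insert_of_notMem hxR, hR], hc⟩

/-- pigeonhole -/
theorem pigeon {I : Type} {U : Set I} (hU : ¬ U.Countable) {κ : Type} [Countable κ] (F : I → κ) :
    ∃ k, ¬ {ν ∈ U | F ν = k}.Countable := by
  by_contra hcon
  push Not at hcon
  apply hU
  refine (Set.countable_iUnion hcon).mono ?_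
  intro ν hν
  exact Set.mem_iUnion.2 ⟨F ν, hν, rfl⟩

/-- pigeonhole in separable spaces -/
theorem pigeon_sep {I : Type} {U : Set I} (hU : ¬ U.Countable) {Z : Type} [PseudoMetricSpace Z]
    {S : Set Z} (hS : TopologicalSpace.IsSeparable S) (F : I → Z) (hF : ∀ ν ∈ U, F ν ∈ S)
    {ε : ℝ} (hε : 0 < ε) :
    ∃ U' ⊆ U, ¬ U'.Countable ∧ ∀ ν ∈ U', ∀ ν' ∈ U', dist (F ν) (F ν') ≤ ε := by
  obtain ⟨c, hc, hSc⟩ := hS
  have hnear : ∀ ν ∈ U, ∃ z ∈ c, dist (F ν) z < ε / 2 := by
    intro ν hν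
    exact Metric.mem_closure_iff.1 (hSc (hF ν hν)) (ε / 2) (half_pos hε)
  by_contra hcon
  push Not at hcon
  apply hU
  have h1 : (⋃ z ∈ c, {ν ∈ U | dist (F ν) z < ε / 2}).Countable := by
    refine hc.biUnion ?_
    intro z _
    by_contra hz
    obtain ⟨ν, hν, ν', hν', hd⟩ := hcon _ (fun ν hν => hν.1) hz
    have h2 := dist_triangle_right (F ν) (F ν') z
    have h3 := hν.2
    have h4 := hν'.2
    linarith
  refine h1.mono ?_
  intro ν hν
  obtain ⟨z, hz, hd⟩ := hnear ν hν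
  exact Set.mem_biUnion hz ⟨hν, hd⟩

/-- condensation point -/
theorem pigeon_pt {I : Type} {U : Set I} (hU : ¬ U.Countable) {Z : Type} [PseudoMetricSpace Z]
    [TopologicalSpace.SeparableSpace Z] (F : I → Z) :
    ∃ z : Z, ∀ ε > 0, ¬ {ν ∈ U | dist (F ν) z < ε}.Countable := by
  by_contra hcon
  push Not at hcon
  choose r hr hrc using hcon
  haveI : SecondCountableTopology Z := UniformSpace.secondCountable_of_separable Z
  obtain ⟨t, htc, ht⟩ := TopologicalSpace.countable_cover_nhds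
    (fun z => Metric.ball_mem_nhds z (hr z))
  apply hU
  refine (htc.biUnion (fun z _ => hrc z)).mono ?_
  intro ν hν
  have h1 : F ν ∈ ⋃ x ∈ t, Metric.ball x (r x) := by
    rw [ht]
    exact Set.mem_univ _
  obtain ⟨z, hz, hd⟩ := Set.mem_iUnion₂.1 h1
  exact Set.mem_biUnion hz ⟨hν, hd⟩

open Classical in
noncomputable def levF (e : I → I → ℕ) (η : I) (c : I) : Iio η →₀ ℤ :=
  if h : (Function.support (fun x : Iio η => (e c x : ℤ) - e η x)).Finite then
    Finsupp.ofSupportFinite _ h else 0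

theorem levF_apply {e : I → I → ℕ} (he : Coh e) {η c : I} (hc : η ≤ c) (x : Iio η) :
    levF e η c x = (e c x : ℤ) - e η x := by
  have h : (Function.support (fun x : Iio η => (e c x : ℤ) - e η x)).Finite := by
    rcases eq_or_lt_of_le hc with h | h
    · subst h
      have : Function.support (fun x : Iio η => (e η x : ℤ) - e η x) = ∅ := by
        ext x; simp
      rw [this]
      exact Set.finite_empty
    · have h1 := (he.2 η c h).preimage (f := (Subtype.val : Iio η → I))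
        Subtype.val_injective.injOn
      refine h1.subset fun x hx => ?_
      rw [Function.mem_support] at hx
      refine ⟨x.2, fun h2 => hx ?_⟩
      rw [h2, sub_self]
  unfold levF
  rw [dif_pos h]
  rfl

theorem level (hI : Om I) {e : I → I → ℕ} (he : Coh e) {U : Set I} (hU : ¬ U.Countable)
    {κ : Type} [Finite κ] (b : I → κ → I) (η : I) (hb : ∀ ν ∈ U, ∀ k, η ≤ b ν k) :
    ∃ U' ⊆ U, ¬ U'.Countable ∧ ∀ ν ∈ U', ∀ ν' ∈ U', ∀ k, ∀ x < η, e (b ν k) x = e (b ν' k) x := by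
  have hc : Countable (Iio η) := (hI.1 η).to_subtype
  obtain ⟨f, hf⟩ := pigeon hU (κ := κ → (Iio η →₀ ℤ)) (fun ν k => levF e η (b ν k))
  refine ⟨_, fun ν hν => hν.1, hf, fun ν hν ν' hν' k x hx => ?_⟩
  have h1 := levF_apply he (hb ν hν.1 k) ⟨x, hx⟩
  have h2 := levF_apply he (hb ν' hν'.1 k) ⟨x, hx⟩
  have h3 : levF e η (b ν k) = levF e η (b ν' k) := by
    have e1 := congrFun hν.2 k
    have e2 := congrFun hν'.2 k
    beta_reduce at e1 e2
    rw [e1, e2]
  rw [h3, h2] at h1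
  have h4 : (e (b ν' k) x : ℤ) = e (b ν k) x := by
    simpa using h1
  exact_mod_cast h4.symm

theorem signs_unc {U B : Set I} (hU : ¬ U.Countable) (hB : B.Countable) : ∃ x ∈ U, x ∉ B := by
  by_contra h
  push Not at h
  exact hU (hB.mono h)

theorem signs [WellFoundedLT I] (hI : Om I) {e : I → I → ℕ} (he : Coh e) {U : Set I}
    (hU : ¬ U.Countable) (b : I → I) (hb : ∀ θ, {ν ∈ U | b ν < θ}.Countable)
    (Good : I → I → Prop) (η : I)
    (hη : ∀ ν ∈ U, ∀ ν' ∈ U, ∀ x < η, e (b ν) x = e (b ν') x)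
    (hgood : ∀ θ, {ν ∈ U | ¬ ∀ y, η ≤ y → y < θ → Good ν y}.Countable)
    (N : I → Set I) (hN : ∀ γ, (N γ).Countable)
    (r : ℕ → ℕ → Prop) (hr : ∀ m n, ¬ r m n → ¬ r n m → m = n) :
    ∃ γ ∈ U, ∃ δ ∈ U, δ ∉ N γ ∧ ∃ x, η ≤ x ∧ x < b γ ∧ x < b δ ∧
      (∀ y < x, e (b γ) y = e (b δ) y) ∧ r (e (b γ) x) (e (b δ) x) ∧
      (∀ y, η ≤ y → y ≤ x → Good γ y ∧ Good δ y) := by
  by_contra hcon
  have HC : ∀ γ ∈ U, ∀ δ ∈ U, δ ∉ N γ → ∀ x, η ≤ x → x < b γ → x < b δ →
      (∀ y < x, e (b γ) y = e (b δ) y) → (∀ y, η ≤ y → y ≤ x → Good γ y ∧ Good δ y) →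
      ¬ r (e (b γ) x) (e (b δ) x) := by
    intro γ hγ δ hδ h1 x h2 h3 h4 h5 h6 h7
    exact hcon ⟨γ, hγ, δ, hδ, h1, x, h2, h3, h4, h5, h7, h6⟩
  have claim : ∀ x : I, ∃ v : ℕ, {ν ∈ U | e (b ν) x ≠ v}.Countable := by
    intro x
    induction x using WellFoundedLT.induction with
    | ind x ih =>
      rcases lt_or_ge x η with hx | hx
      · obtain ⟨ν0, hν0, -⟩ := signs_unc hU Set.countable_empty
        refine ⟨e (b ν0) x, ?_⟩
        have h1 : {ν ∈ U | e (b ν) x ≠ e (b ν0) x} = ∅ := by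
          rw [Set.eq_empty_iff_forall_notMem]
          rintro ν ⟨h2, h3⟩
          exact h3 (hη ν h2 ν0 hν0 x hx)
        rw [h1]
        exact Set.countable_empty
      · choose! v hv using ih
        obtain ⟨θ, hθ⟩ := bdd_of_countable hI (Set.countable_singleton x)
        have hxθ : x < θ := hθ x rfl
        set B0 : Set I := ((⋃ y ∈ Iio x, {ν ∈ U | e (b ν) y ≠ v y}) ∪ {ν ∈ U | b ν < θ}) ∪
          {ν ∈ U | ¬ ∀ y, η ≤ y → y < θ → Good ν y} with hB0
        have cB0 : B0.Countable := by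
          refine Set.Countable.union (Set.Countable.union ?_ (hb θ)) (hgood θ)
          exact Set.Countable.biUnion (hI.1 x) (fun y hy => hv y hy)
        have hU0 : ¬ (U \ B0).Countable := by
          intro h
          apply hU
          refine (h.union cB0).mono ?_
          intro ν hν
          by_cases h1 : ν ∈ B0
          · exact Or.inr h1
          · exact Or.inl ⟨hν, h1⟩
        have p1 : ∀ ν ∈ U \ B0, ∀ y < x, e (b ν) y = v y := by
          intro ν hν y hy
          by_contra h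
          apply hν.2
          rw [hB0]
          refine Or.inl (Or.inl ?_)
          rw [Set.mem_iUnion₂]
          exact ⟨y, hy, hν.1, h⟩
        have p2 : ∀ ν ∈ U \ B0, x < b ν := by
          intro ν hν
          by_contra h
          apply hν.2
          rw [hB0]
          exact Or.inl (Or.inr ⟨hν.1, lt_of_le_of_lt (not_lt.mp h) hxθ⟩)
        have p3 : ∀ ν ∈ U \ B0, ∀ y, η ≤ y → y ≤ x → Good ν y := by
          intro ν hν y hy1 hy2
          by_contra h
          apply hν.2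
          rw [hB0]
          refine Or.inr ⟨hν.1, fun h2 => h (h2 y hy1 (lt_of_le_of_lt hy2 hxθ))⟩
        have key : ∀ γ ∈ U \ B0, ∀ δ ∈ U \ B0, δ ∉ N γ → ¬ r (e (b γ) x) (e (b δ) x) := by
          intro γ hγ δ hδ h1
          refine HC γ hγ.1 δ hδ.1 h1 x hx (p2 γ hγ) (p2 δ hδ) ?_ ?_
          · intro y hy
            rw [p1 γ hγ y hy, p1 δ hδ y hy]
          · intro y hy1 hy2
            exact ⟨p3 γ hγ y hy1 hy2, p3 δ hδ y hy1 hy2⟩
        obtain ⟨w, hw⟩ := pigeon hU0 (fun ν => e (b ν) x)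
        obtain ⟨g1, ⟨hg1, hg1w⟩, -⟩ := signs_unc hw Set.countable_empty
        refine ⟨w, ?_⟩
        refine (cB0.union (hN g1)).mono ?_
        rintro δ ⟨hδ, hδw⟩
        by_contra h
        rw [Set.mem_union, not_or] at h
        have hδ' : δ ∈ U \ B0 := ⟨hδ, h.1⟩
        have h1 := key g1 hg1 δ hδ' h.2
        obtain ⟨g2, ⟨hg2, hg2w⟩, hg2N⟩ := signs_unc hw (hN δ)
        have h2 := key δ hδ' g2 hg2 hg2N
        have hg1w' : e (b g1) x = w := hg1w
        have hg2w' : e (b g2) x = w := hg2w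
        rw [hg1w'] at h1
        rw [hg2w'] at h2
        exact hδw (hr _ _ h2 h1)
  choose v hv using claim
  obtain ⟨n, hn⟩ := pigeon hI.2 v
  have hinf : {ν ∈ (univ : Set I) | v ν = n}.Infinite := fun h => hn h.countable
  set f := hinf.natEmbedding with hf
  obtain ⟨a, ha⟩ := bdd_of_countable hI (Set.countable_range (fun k : ℕ => (f k : I)))
  have hcU : ((⋃ y ∈ Iio a, {ν ∈ U | e (b ν) y ≠ v y}) ∪ {ν ∈ U | b ν < a}).Countable :=
    Set.Countable.union (Set.Countable.biUnion (hI.1 a) (fun y _ => hv y)) (hb a)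
  obtain ⟨ν, hν, hν2⟩ := signs_unc hU hcU
  rw [Set.mem_union, not_or] at hν2
  have h1 : ∀ y < a, e (b ν) y = v y := by
    intro y hy
    by_contra h
    apply hν2.1
    rw [Set.mem_iUnion₂]
    exact ⟨y, hy, hν, h⟩
  have h2 : a ≤ b ν := by
    by_contra h
    exact hν2.2 ⟨hν, not_le.mp h⟩
  have h3 := he.1 (b ν) n
  have h4 : Set.range (fun k : ℕ => (f k : I)) ⊆ {x | x < b ν ∧ e (b ν) x = n} := by
    rintro _ ⟨k, rfl⟩
    have h5 := ha _ (Set.mem_range_self k)
    refine ⟨lt_of_lt_of_le h5 h2, ?_⟩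
    rw [h1 _ h5]
    exact (f k).2.2
  have h5 : (Set.range (fun k : ℕ => (f k : I))).Infinite := by
    apply Set.infinite_range_of_injective
    intro k l hkl
    exact f.injective (Subtype.ext hkl)
  exact h5 (h3.subset h4)

theorem cs_three (e : I → I → ℕ) (a b : I) : cs e a b = 1 ∨ cs e a b = -1 ∨ cs e a b = 0 := by
  unfold cs cs0
  split_ifs <;> simp

theorem not_countable_sdiff {U V : Set I} (hU : ¬ U.Countable) (hV : V.Countable) :
    ¬ (U \ V).Countable := by
  intro h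
  apply hU
  refine (h.union hV).mono ?_
  intro x hx
  by_cases hxV : x ∈ V
  · exact Or.inr hxV
  · exact Or.inl ⟨hx, hxV⟩

theorem nonempty_of_not_countable {U : Set I} (hU : ¬ U.Countable) : U.Nonempty := by
  by_contra h
  rw [Set.not_nonempty_iff_eq_empty] at h
  exact hU (by rw [h]; exact Set.countable_empty)

open Classical in
theorem pattern [WellFoundedLT I] (hI : Om I) {e : I → I → ℕ} (he : Coh e) {U : Set I}
    (hU : ¬ U.Countable) (D : I → Finset I) (α₀ : I → I) (h0 : ∀ ν ∈ U, α₀ ν ∈ D ν)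
    (hesc : ∀ θ, {ν ∈ U | α₀ ν < θ}.Countable) :
    ∃ (m : ℕ) (U' : Set I) (β : I → Fin m → I) (N : Fin m → Prop) (key : Fin m → I → ℕ)
      (C : Fin m → Fin m → ℝ) (i₀ : Fin m),
      U' ⊆ U ∧ ¬ U'.Countable ∧ N i₀ ∧
      (∀ ν ∈ U', Injective (β ν) ∧ (∀ x, x ∈ D ν ↔ ∃ i, β ν i = x) ∧ β ν i₀ = α₀ ν) ∧
      (∀ ν ∈ U', ∀ ν' ∈ U', ∀ i, ¬ N i → β ν i = β ν' i) ∧
      ∀ U'' ⊆ U', ¬ U''.Countable → ∀ σ : ℝ, (σ = 1 ∨ σ = -1) →
        ∃ γ ∈ U'', ∃ δ ∈ U'',
          (∀ i j, β γ i = β δ j → i = j ∧ ¬ N i) ∧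
          ∀ i j, cs e (β γ i) (β δ j) = if N i ∧ N j ∧ key i = key j then σ else C i j := by
  classical
  obtain ⟨R, U1, hU1, hU1c, hR, htail⟩ := delta hI hU D
  obtain ⟨θR, hθR⟩ := bdd_of_countable hI (R.finite_toSet.countable)
  have hU2c : ¬ (U1 \ {ν ∈ U | α₀ ν < θR}).Countable := not_countable_sdiff hU1c (hesc θR)
  have hU2 : ∀ ν ∈ U1 \ {ν ∈ U | α₀ ν < θR}, α₀ ν ∉ R := by
    rintro ν ⟨hν1, hν2⟩ hmem
    exact hν2 ⟨hU1 hν1, hθR _ hmem⟩
  obtain ⟨m, hm⟩ := pigeon hU2c (fun ν => (D ν).card)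
  obtain ⟨β, hβ⟩ : ∃ β : I → Fin m → I, ∀ ν, (D ν).card = m →
      Injective (β ν) ∧ ∀ x, x ∈ D ν ↔ ∃ i, β ν i = x := by
    refine ⟨fun ν => if h : (D ν).card = m then (D ν).orderEmbOfFin h else fun _ => α₀ ν, ?_⟩
    intro ν h
    simp only [h, dif_pos]
    refine ⟨((D ν).orderEmbOfFin h).injective, fun x => ?_⟩
    have h1 := Finset.range_orderEmbOfFin (D ν) h
    rw [← Finset.mem_coe, ← h1]
    rfl
  obtain ⟨k, hk⟩ := pigeon hm (κ := (Fin m → Option {x // x ∈ R}) × Option (Fin m))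
    (fun ν => ((fun i => if h : β ν i ∈ R then some (⟨β ν i, h⟩ : {x // x ∈ R}) else none),
      (if h : ∃ i, β ν i = α₀ ν then some h.choose else none)))
  set U4 : Set I := {ν ∈ {ν ∈ U1 \ {ν ∈ U | α₀ ν < θR} | (D ν).card = m} |
    (fun ν => (((fun i => if h : β ν i ∈ R then some (⟨β ν i, h⟩ : {x // x ∈ R}) else none),
      (if h : ∃ i, β ν i = α₀ ν then some h.choose else none)) :
        (Fin m → Option {x // x ∈ R}) × Option (Fin m))) ν = k} with hU4
  have h4U1 : ∀ ν ∈ U4, ν ∈ U1 := fun ν hν => hν.1.1.1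
  have h4U : ∀ ν ∈ U4, ν ∈ U := fun ν hν => hU1 hν.1.1.1
  have h4m : ∀ ν ∈ U4, (D ν).card = m := fun ν hν => hν.1.2
  have h4R : ∀ ν ∈ U4, α₀ ν ∉ R := fun ν hν => hU2 ν hν.1.1
  have h4k : ∀ ν ∈ U4, ∀ i, (if h : β ν i ∈ R then some (⟨β ν i, h⟩ : {x // x ∈ R}) else none) =
      k.1 i := by
    intro ν hν i
    exact congrFun (congrArg Prod.fst hν.2) i
  have h4k2 : ∀ ν ∈ U4, (if h : ∃ i, β ν i = α₀ ν then some h.choose else none) = k.2 := by
    intro ν hν
    exact congrArg Prod.snd hν.2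
  obtain ⟨N, hNdef⟩ : ∃ N : Fin m → Prop, ∀ i, N i ↔ k.1 i = none := ⟨_, fun i => Iff.rfl⟩
  have hN : ∀ ν ∈ U4, ∀ i, N i ↔ β ν i ∉ R := by
    intro ν hν i
    rw [hNdef, ← h4k ν hν i]
    by_cases h : β ν i ∈ R
    · simp [h]
    · simp [h]
  have hconst : ∀ ν ∈ U4, ∀ ν' ∈ U4, ∀ i, ¬ N i → β ν i = β ν' i := by
    intro ν hν ν' hν' i hi
    have h1 : β ν i ∈ R := by
      by_contra h
      exact hi ((hN ν hν i).2 h)
    have h2 : β ν' i ∈ R := by
      by_contra h
      exact hi ((hN ν' hν' i).2 h)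
    have e1 := h4k ν hν i
    rw [← h4k ν' hν' i, dif_pos h1, dif_pos h2] at e1
    have e2 := Option.some.inj e1
    exact congrArg Subtype.val e2
  have h4D : ∀ ν ∈ U4, ∀ i, β ν i ∈ D ν := fun ν hν i => ((hβ ν (h4m ν hν)).2 _).2 ⟨i, rfl⟩
  obtain ⟨ν1, hν1⟩ := nonempty_of_not_countable hk
  have hex : ∀ ν ∈ U4, ∃ i, β ν i = α₀ ν := fun ν hν =>
    ((hβ ν (h4m ν hν)).2 _).1 (h0 ν (h4U ν hν))
  obtain ⟨i₀, hi₀⟩ : ∃ i₀, k.2 = some i₀ := by
    have e := h4k2 ν1 hν1
    rw [dif_pos (hex ν1 hν1)] at e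
    exact ⟨_, e.symm⟩
  have hbi₀ : ∀ ν ∈ U4, β ν i₀ = α₀ ν := by
    intro ν hν
    have e := h4k2 ν hν
    rw [dif_pos (hex ν hν), hi₀] at e
    have e2 := Option.some.inj e
    rw [← e2]
    exact (hex ν hν).choose_spec
  have hNi₀ : N i₀ := by
    rw [hN ν1 hν1, hbi₀ ν1 hν1]
    exact h4R ν1 hν1
  -- the finite sets G
  have hGfin : ∀ ν, {y | ∃ i, y < β ν i ∧ y < α₀ ν ∧ e (β ν i) y ≠ e (α₀ ν) y}.Finite := by
    intro ν
    have e1 : {y | ∃ i, y < β ν i ∧ y < α₀ ν ∧ e (β ν i) y ≠ e (α₀ ν) y} =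
        ⋃ i, {y | y < β ν i ∧ y < α₀ ν ∧ e (β ν i) y ≠ e (α₀ ν) y} := by
      ext y
      simp
    rw [e1]
    apply Set.finite_iUnion
    intro i
    rcases lt_trichotomy (β ν i) (α₀ ν) with h | h | h
    · exact (he.2 _ _ h).subset (fun y hy => ⟨hy.1, hy.2.2⟩)
    · have : {y | y < β ν i ∧ y < α₀ ν ∧ e (β ν i) y ≠ e (α₀ ν) y} = ∅ := by
        ext y
        simp [h]
      rw [this]
      exact Set.finite_empty
    · exact (he.2 _ _ h).subset (fun y hy => ⟨hy.2.1, fun h' => hy.2.2 h'.symm⟩)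
  obtain ⟨R', U5, hU5, hU5c, hR', htail'⟩ := delta hI hk (fun ν => (hGfin ν).toFinset)
  obtain ⟨η, hη⟩ := bdd_of_countable hI (R'.finite_toSet.countable)
  have hU6c : ¬ (U5 \ {ν ∈ U1 | ∃ x ∈ D ν, x ∉ R ∧ x < η}).Countable :=
    not_countable_sdiff hU5c (htail η)
  have hU6b : ∀ ν ∈ U5 \ {ν ∈ U1 | ∃ x ∈ D ν, x ∉ R ∧ x < η}, ∀ kk : {i // N i}, η ≤ β ν kk.1 := by
    rintro ν ⟨hν5, hν⟩ ⟨i, hi⟩
    by_contra hlt
    push Not at hlt
    have hν4 : ν ∈ U4 := hU5 hν5
    exact hν ⟨h4U1 ν hν4, β ν i, h4D ν hν4 i, (hN ν hν4 i).1 hi, hlt⟩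
  obtain ⟨U7, hU7, hU7c, hlev⟩ := level hI he hU6c (κ := {i // N i}) (fun ν kk => β ν kk.1) η hU6b
  obtain ⟨k3, hk3⟩ := pigeon hU7c (κ := Fin m × Fin m → Bool × Bool)
    (fun ν p => (decide (cs e (β ν p.1) (β ν p.2) = 1), decide (cs e (β ν p.1) (β ν p.2) = -1)))
  set U8 : Set I := {ν ∈ U7 | (fun ν (p : Fin m × Fin m) =>
    (decide (cs e (β ν p.1) (β ν p.2) = 1), decide (cs e (β ν p.1) (β ν p.2) = -1))) ν = k3}
    with hU8
  have h87 : ∀ ν ∈ U8, ν ∈ U7 := fun ν hν => hν.1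
  have h85 : ∀ ν ∈ U8, ν ∈ U5 := fun ν hν => (hU7 hν.1).1
  have h84 : ∀ ν ∈ U8, ν ∈ U4 := fun ν hν => hU5 (h85 ν hν)
  have h8η : ∀ ν ∈ U8, ∀ i, N i → η ≤ β ν i := fun ν hν i hi => hU6b ν (hU7 hν.1) ⟨i, hi⟩
  have h8lev : ∀ ν ∈ U8, ∀ ν' ∈ U8, ∀ i, N i → ∀ x < η, e (β ν i) x = e (β ν' i) x :=
    fun ν hν ν' hν' i hi x hx => hlev ν hν.1 ν' hν'.1 ⟨i, hi⟩ x hx
  have hcs : ∀ ν ∈ U8, ∀ ν' ∈ U8, ∀ i j, cs e (β ν i) (β ν j) = cs e (β ν' i) (β ν' j) := by
    intro ν hν ν' hν' i j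
    have e1 := congrFun (hν.2.trans hν'.2.symm) (i, j)
    have e2 := congrArg Prod.fst e1
    have e3 := congrArg Prod.snd e1
    simp only [decide_eq_decide] at e2 e3
    rcases cs_three e (β ν i) (β ν j) with h | h | h
    · rw [h]
      exact (e2.1 h).symm
    · rw [h]
      exact (e3.1 h).symm
    · rcases cs_three e (β ν' i) (β ν' j) with h' | h' | h'
      · have := e2.2 h'
        rw [h] at this
        norm_num at this
      · have := e3.2 h'
        rw [h] at this
        norm_num at this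
      · rw [h, h']
  obtain ⟨ν0, hν0⟩ := nonempty_of_not_countable hk3
  let key : Fin m → I → ℕ := fun i x => if x < η then e (β ν0 i) x else 0
  let C : Fin m → Fin m → ℝ := fun i j =>
    if N i ∧ N j then
      (if ∃ x0, key i x0 < key j x0 ∧ ∀ y < x0, key i y = key j y then 1 else -1)
    else cs e (β ν0 i) (β ν0 j)
  refine ⟨m, U8, β, N, key, C, i₀, fun ν hν => h4U ν (h84 ν hν), hk3, hNi₀, ?_, ?_, ?_⟩
  · intro ν hν
    have h1 := hβ ν (h4m ν (h84 ν hν))
    exact ⟨h1.1, h1.2, hbi₀ ν (h84 ν hν)⟩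
  · intro ν hν ν' hν' i hi
    exact hconst ν (h84 ν hν) ν' (h84 ν' hν') i hi
  · intro U'' hU'' hU''c σ hσ
    obtain ⟨r, hr, hrσ⟩ : ∃ r : ℕ → ℕ → Prop, (∀ m n, ¬ r m n → ¬ r n m → m = n) ∧
        ∀ (a b x : I), a < b → x < a → r (e a x) (e b x) → (∀ y < x, e a y = e b y) →
          cs e a b = σ := by
      rcases hσ with rfl | rfl
      · refine ⟨fun p q => p < q, fun p q h1 h2 => by omega, ?_⟩
        intro a b x hab hx h hy
        exact cs_pos e hab hx h hy
      · refine ⟨fun p q => q < p, fun p q h1 h2 => by omega, ?_⟩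
        intro a b x hab hx h hy
        exact cs_neg e hab hx h hy
    have hbd : ∀ γ, ∃ θ, ∀ i, β γ i < θ := by
      intro γ
      obtain ⟨θ, hθ⟩ := bdd_of_countable hI (Set.countable_range (β γ))
      exact ⟨θ, fun i => hθ _ ⟨i, rfl⟩⟩
    have hbc : ∀ θ, {ν ∈ U'' | α₀ ν < θ}.Countable := by
      intro θ
      refine (hesc θ).mono ?_
      rintro ν ⟨hν1, hν2⟩
      exact ⟨h4U ν (h84 ν (hU'' hν1)), hν2⟩
    obtain ⟨γ, hγ, δ, hδ, hδN, x, hηx, hxγ, hxδ, hxy, hxr, hgood⟩ := signs hI he hU''c α₀ hbc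
      (fun ν y => ∀ i, N i → y < β ν i ∧ e (β ν i) y = e (α₀ ν) y) η
      (fun ν hν ν' hν' x hx => by
        rw [← hbi₀ ν (h84 ν (hU'' hν)), ← hbi₀ ν' (h84 ν' (hU'' hν'))]
        exact h8lev ν (hU'' hν) ν' (hU'' hν') i₀ hNi₀ x hx)
      (fun θ => by
        refine ((htail' θ).union (htail θ)).mono ?_
        rintro ν ⟨hν, hbad⟩
        by_contra hcon
        apply hbad
        intro y hηy hyθ i hi
        have hν4 := h84 ν (hU'' hν)
        have hν5 := h85 ν (hU'' hν)
        have k1 : ∀ j, N j → y < β ν j := by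
          intro j hj
          by_contra hlt
          push Not at hlt
          apply hcon
          right
          exact ⟨h4U1 ν hν4, β ν j, h4D ν hν4 j, (hN ν hν4 j).1 hj, lt_of_le_of_lt hlt hyθ⟩
        refine ⟨k1 i hi, ?_⟩
        by_contra hne
        apply hcon
        left
        refine ⟨hν5, y, ?_, ?_, hyθ⟩
        · rw [Set.Finite.mem_toFinset]
          refine ⟨i, k1 i hi, ?_, hne⟩
          rw [← hbi₀ ν hν4]
          exact k1 i₀ hNi₀
        · intro hyR
          exact absurd (hη y hyR) (not_lt.2 hηy))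
      (fun γ => {δ ∈ U'' | ∃ j, N j ∧ ∃ i, β δ j ≤ β γ i})
      (fun γ => by
        obtain ⟨θ, hθ⟩ := hbd γ
        refine (htail θ).mono ?_
        rintro δ ⟨hδ, j, hj, i, hij⟩
        have hδ4 := h84 δ (hU'' hδ)
        exact ⟨h4U1 δ hδ4, β δ j, h4D δ hδ4 j, (hN δ hδ4 j).1 hj, lt_of_le_of_lt hij (hθ i)⟩)
      r hr
    have hγ8 := hU'' hγ
    have hδ8 := hU'' hδ
    have hlt : ∀ i j, N j → β γ i < β δ j := by
      intro i j hj
      by_contra hle
      push Not at hle
      exact hδN ⟨hδ, j, hj, i, hle⟩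
    refine ⟨γ, hγ, δ, hδ, ?_, ?_⟩
    · intro i j hij
      have hj : ¬ N j := fun hj => absurd hij (ne_of_lt (hlt i j hj))
      have e1 : β δ j = β γ j := hconst δ (h84 δ hδ8) γ (h84 γ hγ8) j hj
      have e2 : i = j := (hβ γ (h4m γ (h84 γ hγ8))).1 (hij.trans e1)
      refine ⟨e2, ?_⟩
      rw [e2]
      exact hj
    · intro i j
      by_cases hij : N i ∧ N j
      · obtain ⟨hi, hj⟩ := hij
        have hab := hlt i j hj
        have ha : ∀ y < η, e (β γ i) y = key i y := by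
          intro y hy
          simp only [key, hy, if_true]
          exact h8lev γ hγ8 ν0 hν0 i hi y hy
        have hb : ∀ y < η, e (β δ j) y = key j y := by
          intro y hy
          simp only [key, hy, if_true]
          exact h8lev δ hδ8 ν0 hν0 j hj y hy
        by_cases hkey : key i = key j
        · rw [if_pos ⟨hi, hj, hkey⟩]
          have hgx := hgood x hηx le_rfl
          apply hrσ _ _ x hab (hgx.1 i hi).1
          · rw [(hgx.1 i hi).2, (hgx.2 j hj).2]
            exact hxr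
          · intro y hy
            by_cases hyη : y < η
            · rw [ha y hyη, hb y hyη, hkey]
            · push Not at hyη
              have hgy := hgood y hyη hy.le
              rw [(hgy.1 i hi).2, (hgy.2 j hj).2]
              exact hxy y hy
        · rw [if_neg (fun h => hkey h.2.2)]
          have hne : {z | key i z ≠ key j z}.Nonempty := by
            by_contra hemp
            rw [Set.not_nonempty_iff_eq_empty] at hemp
            apply hkey
            funext z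
            by_contra hz
            have : z ∈ {z | key i z ≠ key j z} := hz
            rw [hemp] at this
            exact this
          obtain ⟨x0, hx0, hmin⟩ : ∃ x0, key i x0 ≠ key j x0 ∧ ∀ y < x0, key i y = key j y := by
            refine ⟨wellFounded_lt.min _ hne, wellFounded_lt.min_mem _ hne, ?_⟩
            intro y hy
            by_contra hz
            exact wellFounded_lt.not_lt_min _ hz hy
          have hx0η : x0 < η := by
            by_contra h
            apply hx0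
            simp only [key, h, if_false]
          have hx0a : x0 < β γ i := lt_of_lt_of_le hx0η (h8η γ hγ8 i hi)
          have hyy : ∀ y < x0, e (β γ i) y = e (β δ j) y := by
            intro y hy
            rw [ha y (hy.trans hx0η), hb y (hy.trans hx0η)]
            exact hmin y hy
          simp only [C]
          rw [if_pos ⟨hi, hj⟩]
          rcases lt_or_gt_of_ne hx0 with hl | hl
          · rw [if_pos ⟨x0, hl, hmin⟩]
            apply cs_pos e hab hx0a _ hyy
            rw [ha x0 hx0η, hb x0 hx0η]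
            exact hl
          · rw [if_neg]
            · apply cs_neg e hab hx0a _ hyy
              rw [ha x0 hx0η, hb x0 hx0η]
              exact hl
            · rintro ⟨x1, h1, h2⟩
              rcases lt_trichotomy x1 x0 with h | h | h
              · have := hmin x1 h
                omega
              · rw [h] at h1
                omega
              · exact hx0 (h2 x0 h)
      · rw [if_neg (fun h => hij ⟨h.1, h.2.1⟩)]
        simp only [C]
        rw [if_neg hij]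
        by_cases hi : N i
        · have hj : ¬ N j := fun hj => hij ⟨hi, hj⟩
          rw [hconst δ (h84 δ hδ8) γ (h84 γ hγ8) j hj]
          exact hcs γ hγ8 ν0 hν0 i j
        · rw [hconst γ (h84 γ hγ8) δ (h84 δ hδ8) i hi]
          exact hcs δ hδ8 ν0 hν0 i j

end

/-- the bilinear expression of the core lemma -/
noncomputable def QQ {I H : Type} [NormedAddCommGroup H] [InnerProductSpace ℝ H]
    (c : I → I → ℝ) (D : I → Finset I) (u w : I → I → ℝ) (f : I → I → H) (γ δ : I) : ℝ :=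
  (∑ s ∈ D γ, (u γ s * w δ s + u δ s * w γ s)) +
    ∑ s ∈ D γ, ∑ t ∈ D δ, c s t * inner ℝ (f γ s) (f δ t)

def CoreProp {I : Type} [LinearOrder I] (H : Type) [NormedAddCommGroup H] [InnerProductSpace ℝ H]
    (c : I → I → ℝ) : Prop :=
  ∀ (U : Set I), ¬ U.Countable → ∀ (D : I → Finset I) (u w : I → I → ℝ) (f : I → I → H)
    (α₀ : I → I) (κ : ℝ), 0 < κ →
    (∀ ν ∈ U, ∀ s ∉ D ν, u ν s = 0 ∧ w ν s = 0 ∧ f ν s = 0) →
    (∀ θ, {ν ∈ U | α₀ ν < θ}.Countable) →
    (∀ ν ∈ U, ∀ E : Finset I, α₀ ν ∈ E → κ ≤ ‖∑ a ∈ E, f ν a‖) →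
    ∀ ε > 0, ∃ γ ∈ U, ∃ δ ∈ U, ∃ γ' ∈ U, ∃ δ' ∈ U,
      2 * κ ^ 2 - ε ≤ QQ c D u w f γ δ - QQ c D u w f γ' δ'

open Classical in
theorem h845_class {m : ℕ} {K' H : Type} [NormedAddCommGroup H] [InnerProductSpace ℝ H]
    (s : Finset (Fin m)) (key : Fin m → K') (x : Fin m → H) (i₀ : Fin m) (hi₀ : i₀ ∈ s) :
    ‖∑ i ∈ s.filter (fun i => key i = key i₀), x i‖ ^ 2 ≤
      ∑ i ∈ s, ∑ j ∈ s, (if key i = key j then inner ℝ (x i) (x j) else 0) := by
  have e1 : ∀ i ∈ s, ∑ j ∈ s, (if key i = key j then inner ℝ (x i) (x j) else 0) =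
      inner ℝ (x i) (∑ j ∈ s.filter (fun j => key j = key i), x j) := by
    intro i _
    rw [inner_sum, Finset.sum_filter]
    refine Finset.sum_congr rfl fun j _ => ?_
    by_cases h : key i = key j
    · rw [if_pos h, if_pos h.symm]
    · rw [if_neg h, if_neg (fun h' => h h'.symm)]
  rw [Finset.sum_congr rfl e1]
  rw [← Finset.sum_fiberwise_of_maps_to (s := s) (t := s.image key) (g := key) (fun i hi => Finset.mem_image_of_mem key hi)]
  have e2 : ∀ k ∈ s.image key, ∑ i ∈ s.filter (fun i => key i = k),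
      inner ℝ (x i) (∑ j ∈ s.filter (fun j => key j = key i), x j) =
      ‖∑ i ∈ s.filter (fun i => key i = k), x i‖ ^ 2 := by
    intro k _
    rw [← real_inner_self_eq_norm_sq, sum_inner]
    refine Finset.sum_congr rfl fun i hi => ?_
    rw [(Finset.mem_filter.1 hi).2]
  rw [Finset.sum_congr rfl e2]
  exact Finset.single_le_sum (f := fun k => ‖∑ i ∈ s.filter (fun i => key i = k), x i‖ ^ 2)
    (fun k _ => sq_nonneg _) (Finset.mem_image_of_mem key hi₀)

open Classical in
/-- the limiting bilinear form -/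
noncomputable def h845Phi {m : ℕ} {K' H : Type} [NormedAddCommGroup H] [InnerProductSpace ℝ H]
    (N : Fin m → Prop) (key : Fin m → K') (C : Fin m → Fin m → ℝ) (σ : ℝ)
    (z1 z2 : Fin m → ℝ × ℝ × H) : ℝ :=
  (∑ i, if N i then 0 else ((z1 i).1 * (z2 i).2.1 + (z2 i).1 * (z1 i).2.1)) +
    ∑ i, ∑ j, (if N i ∧ N j ∧ key i = key j then σ else C i j) * inner ℝ (z1 i).2.2 (z2 j).2.2

theorem h845Phi_cont {m : ℕ} {K' H : Type} [NormedAddCommGroup H] [InnerProductSpace ℝ H]
    (N : Fin m → Prop) (key : Fin m → K') (C : Fin m → Fin m → ℝ) (σ : ℝ) :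
    Continuous (fun p : (Fin m → ℝ × ℝ × H) × (Fin m → ℝ × ℝ × H) => h845Phi N key C σ p.1 p.2) := by
  unfold h845Phi
  refine Continuous.add ?_ ?_
  · refine continuous_finset_sum _ fun i _ => ?_
    split_ifs
    · exact continuous_const
    · fun_prop
  · refine continuous_finset_sum _ fun i _ => continuous_finset_sum _ fun j _ => ?_
    refine continuous_const.mul ?_
    have h1 : Continuous (fun p : (Fin m → ℝ × ℝ × H) × (Fin m → ℝ × ℝ × H) => (p.1 i).2.2) := by fun_prop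
    have h2 : Continuous (fun p : (Fin m → ℝ × ℝ × H) × (Fin m → ℝ × ℝ × H) => (p.2 j).2.2) := by fun_prop
    exact h1.inner h2

open Classical in
theorem h845Phi_diff {m : ℕ} {K' H : Type} [NormedAddCommGroup H] [InnerProductSpace ℝ H]
    (N : Fin m → Prop) (key : Fin m → K') (C : Fin m → Fin m → ℝ)
    (z : Fin m → ℝ × ℝ × H) (i₀ : Fin m) (hi₀ : N i₀) :
    2 * ‖∑ i ∈ (Finset.univ.filter N).filter (fun i => key i = key i₀), (z i).2.2‖ ^ 2 ≤
      h845Phi N key C 1 z z - h845Phi N key C (-1) z z := by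
  have h := h845_class (Finset.univ.filter N) key (fun i => (z i).2.2) i₀ (by simp [hi₀])
  have e : h845Phi N key C 1 z z - h845Phi N key C (-1) z z =
      2 * ∑ i ∈ Finset.univ.filter N, ∑ j ∈ Finset.univ.filter N,
        (if key i = key j then inner ℝ (z i).2.2 (z j).2.2 else 0) := by
    unfold h845Phi
    rw [add_sub_add_left_eq_sub, ← Finset.sum_sub_distrib, Finset.sum_filter, Finset.mul_sum]
    refine Finset.sum_congr rfl fun i _ => ?_
    rw [← Finset.sum_sub_distrib]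
    by_cases hN : N i
    · rw [if_pos hN, Finset.sum_filter, Finset.mul_sum]
      refine Finset.sum_congr rfl fun j _ => ?_
      by_cases hNj : N j
      · by_cases hk : key i = key j
        · simp only [hN, hNj, hk, and_self, if_true]; ring
        · simp [hN, hNj, hk]
      · simp [hNj]
    · rw [if_neg hN]
      simp [hN]
  rw [e]
  linarith

theorem core {I : Type} [LinearOrder I] [WellFoundedLT I] (hI : Om I) {e : I → I → ℕ}
    (he : Coh e) (H : Type) [NormedAddCommGroup H] [InnerProductSpace ℝ H]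
    [TopologicalSpace.SeparableSpace H] : CoreProp H (cs e) := by
  classical
  intro U hU D u w f α₀ κ hκ hsupp hesc hlow ε hε
  have h0 : ∀ ν ∈ U, α₀ ν ∈ D ν := by
    intro ν hν
    by_contra hnot
    have h1 := hlow ν hν {α₀ ν} (Finset.mem_singleton_self _)
    rw [Finset.sum_singleton, (hsupp ν hν _ hnot).2.2, norm_zero] at h1
    linarith
  obtain ⟨m, U', β, N, key, C, i₀, hU'U, hU'unc, hNi₀, hβ, hconst, hpat⟩ :=
    pattern hI he hU D α₀ h0 hesc
  set F : I → (Fin m → ℝ × ℝ × H) := fun ν i => (u ν (β ν i), w ν (β ν i), f ν (β ν i)) with hF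
  obtain ⟨z, hz⟩ := pigeon_pt hU'unc F
  -- the image description of `D ν`
  have hD : ∀ ν ∈ U', D ν = Finset.univ.image (β ν) := by
    intro ν hν
    ext x
    rw [(hβ ν hν).2.1 x]
    simp
  -- lower bound at z
  have hclass : κ ≤ ‖∑ i ∈ (Finset.univ.filter N).filter (fun i => key i = key i₀), (z i).2.2‖ := by
    have hcl : IsClosed {y : Fin m → ℝ × ℝ × H | κ ≤ ‖∑ i ∈ (Finset.univ.filter N).filter (fun i => key i = key i₀), (y i).2.2‖} := by
      refine isClosed_le continuous_const (continuous_norm.comp ?_)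
      refine continuous_finset_sum _ fun i _ => ?_
      fun_prop
    have hmem : z ∈ closure {y : Fin m → ℝ × ℝ × H | κ ≤ ‖∑ i ∈ (Finset.univ.filter N).filter (fun i => key i = key i₀), (y i).2.2‖} := by
      rw [Metric.mem_closure_iff]
      intro η hη
      have h1 := hz η hη
      have h2 : {ν ∈ U' | dist (F ν) z < η}.Nonempty := by
        rw [Set.nonempty_iff_ne_empty]
        intro h
        rw [h] at h1
        exact h1 Set.countable_empty
      obtain ⟨ν, hν, hd⟩ := h2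
      refine ⟨F ν, ?_, by rw [dist_comm]; exact hd⟩
      show κ ≤ ‖∑ i ∈ (Finset.univ.filter N).filter (fun i => key i = key i₀), f ν (β ν i)‖
      have h3 := hlow ν (hU'U hν) (((Finset.univ.filter N).filter (fun i => key i = key i₀)).image (β ν)) (by
        rw [Finset.mem_image]
        exact ⟨i₀, by simp [hNi₀], (hβ ν hν).2.2⟩)
      rw [Finset.sum_image (fun a _ b _ hab => (hβ ν hν).1 hab)] at h3
      exact h3
    rw [hcl.closure_eq] at hmem
    exact hmem
  -- continuity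
  have hcont : ∀ σ : ℝ, ∃ r > 0, ∀ z1 z2 : Fin m → ℝ × ℝ × H, dist z1 z < r → dist z2 z < r →
      |h845Phi N key C σ z1 z2 - h845Phi N key C σ z z| < ε / 2 := by
    intro σ
    have h1 := Metric.continuous_iff.1 (h845Phi_cont (H := H) N key C σ) (z, z) (ε / 2) (by linarith)
    obtain ⟨r, hr, h2⟩ := h1
    refine ⟨r, hr, fun z1 z2 h3 h4 => ?_⟩
    have h5 := h2 (z1, z2) (by rw [Prod.dist_eq]; exact max_lt h3 h4)
    rw [Real.dist_eq] at h5
    exact h5
  -- QQ equals Phi
  have hQQ : ∀ σ : ℝ, ∀ γ ∈ U', ∀ δ ∈ U', (∀ i j, β γ i = β δ j → i = j ∧ ¬ N i) →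
      (∀ i j, cs e (β γ i) (β δ j) = if N i ∧ N j ∧ key i = key j then σ else C i j) →
      QQ (cs e) D u w f γ δ = h845Phi N key C σ (F γ) (F δ) := by
    intro σ γ hγ δ hδ hinj hcs
    unfold QQ h845Phi
    rw [hD γ hγ, Finset.sum_image (fun a _ b _ hab => (hβ γ hγ).1 hab),
      Finset.sum_image (fun a _ b _ hab => (hβ γ hγ).1 hab)]
    congr 1
    · refine Finset.sum_congr rfl fun i _ => ?_
      by_cases hN : N i
      · rw [if_pos hN]
        have hnot : β γ i ∉ D δ := by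
          intro h
          obtain ⟨j, hj⟩ := ((hβ δ hδ).2.1 _).1 h
          exact (hinj i j hj.symm).2 hN
        have hs := hsupp δ (hU'U hδ) _ hnot
        rw [hs.1, hs.2.1]; ring
      · rw [if_neg hN]
        have hc := hconst γ hγ δ hδ i hN
        simp only [hF]
        rw [hc]
    · refine Finset.sum_congr rfl fun i _ => ?_
      rw [hD δ hδ, Finset.sum_image (fun a _ b _ hab => (hβ δ hδ).1 hab)]
      refine Finset.sum_congr rfl fun j _ => ?_
      rw [hcs i j]
  obtain ⟨r1, hr1, hr1'⟩ := hcont 1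
  obtain ⟨r2, hr2, hr2'⟩ := hcont (-1)
  have hr : 0 < min r1 r2 := lt_min hr1 hr2
  have hunc := hz (min r1 r2) hr
  obtain ⟨γ, hγ, δ, hδ, hinj, hcs⟩ := hpat {ν ∈ U' | dist (F ν) z < min r1 r2} (fun ν hν => hν.1) hunc 1 (Or.inl rfl)
  obtain ⟨γ', hγ', δ', hδ', hinj', hcs'⟩ := hpat {ν ∈ U' | dist (F ν) z < min r1 r2} (fun ν hν => hν.1) hunc (-1) (Or.inr rfl)
  refine ⟨γ, hU'U hγ.1, δ, hU'U hδ.1, γ', hU'U hγ'.1, δ', hU'U hδ'.1, ?_⟩
  rw [hQQ 1 γ hγ.1 δ hδ.1 hinj hcs, hQQ (-1) γ' hγ'.1 δ' hδ'.1 hinj' hcs']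
  have a1 := hr1' (F γ) (F δ) (hγ.2.trans_le (min_le_left _ _)) (hδ.2.trans_le (min_le_left _ _))
  have a2 := hr2' (F γ') (F δ') (hγ'.2.trans_le (min_le_right _ _)) (hδ'.2.trans_le (min_le_right _ _))
  rw [abs_lt] at a1 a2
  have a3 := h845Phi_diff N key C z i₀ hNi₀
  have a4 : κ ^ 2 ≤ ‖∑ i ∈ (Finset.univ.filter N).filter (fun i => key i = key i₀), (z i).2.2‖ ^ 2 :=
    pow_le_pow_left₀ hκ.le hclass 2
  linarith [a1.1, a2.2]

theorem exists_core (H : Type) [NormedAddCommGroup H] [InnerProductSpace ℝ H]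
    [TopologicalSpace.SeparableSpace H] :
    ∃ (I : Type) (_ : LinearOrder I) (_ : WellFoundedLT I) (c : I → I → ℝ) (ρ : I → ℝ),
      Om I ∧ Injective ρ ∧ (∀ a b, c a b = c b a) ∧ (∀ a b, |c a b| ≤ 1) ∧
      CoreProp H c := by
  have hcard : Cardinal.mk (Cardinal.aleph.{0} 1).ord.ToType = Cardinal.aleph 1 := by simp
  have hOm : Om (Cardinal.aleph.{0} 1).ord.ToType := by
    constructor
    · intro a
      rw [Cardinal.countable_iff_lt_aleph_one]
      exact Cardinal.mk_Iio_toType_ord_lt a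
    · intro h
      rw [Cardinal.countable_iff_lt_aleph_one, Cardinal.mk_univ, hcard] at h
      exact lt_irrefl _ h
  obtain ⟨e, he⟩ := exists_coh hOm
  have hle : Cardinal.mk (Cardinal.aleph.{0} 1).ord.ToType ≤ Cardinal.mk ℝ := by
    rw [hcard, Cardinal.mk_real]
    exact Cardinal.aleph_one_le_continuum
  obtain ⟨ρ⟩ := hle
  exact ⟨(Cardinal.aleph.{0} 1).ord.ToType, inferInstance, inferInstance, cs e, ρ, hOm,
    ρ.injective, cs_comm e, cs_abs e, core hOm he H⟩

end Pool.Agent.Helper737.QF
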