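import Mathlib
import Pool.Agent.Helper737.QF.Comb
import Pool.Agent.Helper737.QF.Ana

set_option autoImplicit false
set_option maxHeartbeats 4000000

namespace Pool.Agent.Helper737.QF

open Set Function

/-! ### part E: case B and the end -/

section

variable {I : Type} [LinearOrder I] (P : Par I)

noncomputable def fv (F : Finset (Atom I)) (r : Atom I → ℝ) : L1 (Atom I) :=
  ∑ a ∈ F, r a • e1 a

open Classical in
noncomputable def DD (F : Finset (Atom I)) : Finset I :=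
  F.biUnion (fun a => insert a.α a.f.support)

open Classical in
noncomputable def PF (F : Finset (Atom I)) : Finset (I × I) :=
  F.biUnion (fun a => a.f.support.image (fun s => (s, a.α)))

open Classical in
noncomputable def ff (F : Finset (Atom I)) (r : Atom I → ℝ) (α : I) : HH :=
  ∑ a ∈ F, if a.α = α then r a • jj P a else 0

theorem U_fv_zero (F : Finset (Atom I)) (r : Atom I → ℝ) {s : I} (hs : s ∉ DD F) :
    U s (fv F r) = 0 := by
  classical
  unfold fv
  rw [map_sum]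
  refine Finset.sum_eq_zero fun a ha => ?_
  rw [map_smul, U_e1, uu_zero, smul_zero]
  intro h
  apply hs
  unfold DD
  exact Finset.mem_biUnion.mpr ⟨a, ha, Finset.mem_insert_of_mem h⟩

theorem W_fv_zero (F : Finset (Atom I)) (r : Atom I → ℝ) {s : I} (hs : s ∉ DD F) :
    W s (fv F r) = 0 := by
  classical
  unfold fv
  rw [map_sum]
  refine Finset.sum_eq_zero fun a ha => ?_
  rw [map_smul, W_e1, ww_zero, smul_zero]
  intro h
  apply hs
  unfold DD
  exact Finset.mem_biUnion.mpr ⟨a, ha, Finset.mem_insert_of_mem h⟩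

theorem ff_zero (F : Finset (Atom I)) (r : Atom I → ℝ) {s : I} (hs : s ∉ DD F) :
    ff P F r s = 0 := by
  classical
  unfold ff
  refine Finset.sum_eq_zero fun a ha => ?_
  rw [if_neg]
  intro h
  apply hs
  unfold DD
  refine Finset.mem_biUnion.mpr ⟨a, ha, ?_⟩
  rw [← h]
  exact Finset.mem_insert_self _ _

theorem V_fv_zero (F : Finset (Atom I)) (r : Atom I → ℝ) {π : I × I} (hπ : π ∉ PF F) :
    V P (fv F r) π = 0 := by
  classical
  unfold fv
  rw [map_sum]
  simp only [map_smul, V_e1]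
  rw [lp.coeFn_sum, Finset.sum_apply]
  refine Finset.sum_eq_zero fun a ha => ?_
  rw [lp.coeFn_smul, Pi.smul_apply]
  unfold VV
  rw [lp.coeFn_sum, Finset.sum_apply]
  rw [Finset.sum_eq_zero, smul_zero]
  intro s hs
  rw [lp.coeFn_smul, Pi.smul_apply, e1_ne, smul_zero]
  intro h
  apply hπ
  unfold PF
  refine Finset.mem_biUnion.mpr ⟨a, ha, ?_⟩
  exact Finset.mem_image.mpr ⟨s, hs, h.symm⟩

theorem ffs_V (F : Finset (Atom I)) (r : Atom I → ℝ) (π : I × I) :
    V P (fv F r) π = ∑ a ∈ F, ∑ s ∈ a.f.support,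
      r a * ((P.τ s a.α * dd s a) * (e1 (s, a.α) : L1 (I × I)) π) := by
  have h1 : V P (fv F r) = ∑ a ∈ F, r a • VV P a := by
    rw [fv, map_sum]
    refine Finset.sum_congr rfl fun a _ => ?_
    rw [map_smul, V_e1]
  rw [h1, lp.coeFn_sum, Finset.sum_apply]
  refine Finset.sum_congr rfl fun a _ => ?_
  rw [lp.coeFn_smul, Pi.smul_apply, VV, lp.coeFn_sum, Finset.sum_apply, smul_eq_mul,
    Finset.mul_sum]
  refine Finset.sum_congr rfl fun s _ => ?_
  rw [lp.coeFn_smul, Pi.smul_apply, smul_eq_mul]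

open Classical in
theorem ff_sum (F : Finset (Atom I)) (r : Atom I → ℝ) (E : Finset I) :
    ∑ α ∈ E, ff P F r α =
      ∑ π ∈ PF F, (if π.2 ∈ E then V P (fv F r) π • P.h π else 0) := by
  have hL : ∑ α ∈ E, ff P F r α = ∑ a ∈ F, (if a.α ∈ E then r a • jj P a else 0) := by
    simp only [ff]
    rw [Finset.sum_comm]
    refine Finset.sum_congr rfl fun a _ => ?_
    rw [Finset.sum_ite_eq]
  have hR : ∀ π : I × I, (if π.2 ∈ E then V P (fv F r) π • P.h π else 0) =
      ∑ a ∈ F, ∑ s ∈ a.f.support, (if π.2 ∈ E then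
        (r a * ((P.τ s a.α * dd s a) * (e1 (s, a.α) : L1 (I × I)) π)) • P.h π else 0) := by
    intro π
    split_ifs with h
    · rw [ffs_V, Finset.sum_smul]
      refine Finset.sum_congr rfl fun a _ => ?_
      rw [Finset.sum_smul]
    · simp
  rw [hL, Finset.sum_congr rfl fun π _ => hR π, Finset.sum_comm]
  refine Finset.sum_congr rfl fun a ha => ?_
  rw [Finset.sum_comm]
  have hs : ∀ s ∈ a.f.support, ∑ π ∈ PF F, (if π.2 ∈ E then
        (r a * ((P.τ s a.α * dd s a) * (e1 (s, a.α) : L1 (I × I)) π)) • P.h π else 0) =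
      if a.α ∈ E then (r a * (P.τ s a.α * dd s a)) • P.h (s, a.α) else 0 := by
    intro s hs
    have hmem : (s, a.α) ∈ PF F := by
      rw [PF, Finset.mem_biUnion]
      exact ⟨a, ha, Finset.mem_image_of_mem _ hs⟩
    rw [Finset.sum_eq_single_of_mem (s, a.α) hmem]
    · simp only [e1_self, mul_one]
    · intro π _ hne
      rw [e1_ne hne]
      simp
  rw [Finset.sum_congr rfl hs]
  split_ifs with h
  · rw [jj, Finset.smul_sum]
    refine Finset.sum_congr rfl fun s _ => ?_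
    rw [smul_smul]
  · simp

theorem AA_fv_U (F : Finset (Atom I)) (r : Atom I → ℝ) (s : I) :
    U s (fv F r) = ∑ a ∈ F, r a * uu s a := by
  unfold fv
  rw [map_sum]
  refine Finset.sum_congr rfl fun a _ => ?_
  rw [map_smul, U_e1, smul_eq_mul]

theorem AA_fv_W (F : Finset (Atom I)) (r : Atom I → ℝ) (s : I) :
    W s (fv F r) = ∑ a ∈ F, r a * ww s a := by
  unfold fv
  rw [map_sum]
  refine Finset.sum_congr rfl fun a _ => ?_
  rw [map_smul, W_e1, smul_eq_mul]

theorem AA_fv_A (F F' : Finset (Atom I)) (r r' : Atom I → ℝ) :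
    AA P (fv F r) (fv F' r') = ∑ a ∈ F, ∑ b ∈ F', r a * r' b * MM P a b := by
  unfold fv
  rw [map_sum (AA P), sum_apply]
  refine Finset.sum_congr rfl fun a _ => ?_
  rw [map_smul (AA P), smul_apply, map_sum (AA P (e1 a)), Finset.smul_sum]
  refine Finset.sum_congr rfl fun b _ => ?_
  rw [map_smul, AA_e1, smul_eq_mul, smul_eq_mul, mul_assoc]

theorem AA_fv_sub {F : Finset (Atom I)} {a : Atom I} (ha : a ∈ F) :
    a.α ∈ DD F ∧ a.f.support ⊆ DD F := by
  classical
  unfold DD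
  constructor
  · rw [Finset.mem_biUnion]
    exact ⟨a, ha, Finset.mem_insert_self _ _⟩
  · intro x hx
    rw [Finset.mem_biUnion]
    exact ⟨a, ha, Finset.mem_insert_of_mem hx⟩

theorem AA_fv_ff (F F' : Finset (Atom I)) (r r' : Atom I → ℝ) :
    ∑ s ∈ DD F, ∑ t ∈ DD F', P.c s t * inner ℝ (ff P F r s) (ff P F' r' t)
      = ∑ a ∈ F, ∑ b ∈ F', r a * r' b * (P.c a.α b.α * inner ℝ (jj P a) (jj P b)) := by
  classical
  have hff : ∀ s t, P.c s t * inner ℝ (ff P F r s) (ff P F' r' t)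
      = ∑ a ∈ F, ∑ b ∈ F', (if a.α = s then (if b.α = t then
          r a * r' b * (P.c a.α b.α * inner ℝ (jj P a) (jj P b)) else 0) else 0) := by
    intro s t
    unfold ff
    rw [sum_inner, Finset.mul_sum]
    refine Finset.sum_congr rfl fun a _ => ?_
    rw [inner_sum, Finset.mul_sum]
    refine Finset.sum_congr rfl fun b _ => ?_
    by_cases h1 : a.α = s
    · by_cases h2 : b.α = t
      · subst h1 h2
        simp only [if_true]
        rw [real_inner_smul_left, real_inner_smul_right]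
        ring
      · simp only [if_neg h2, inner_zero_right, mul_zero, ite_self]
    · simp only [if_neg h1, inner_zero_left, mul_zero]
  simp_rw [hff]
  calc ∑ s ∈ DD F, ∑ t ∈ DD F', ∑ a ∈ F, ∑ b ∈ F', (if a.α = s then (if b.α = t then
          r a * r' b * (P.c a.α b.α * inner ℝ (jj P a) (jj P b)) else 0) else 0)
      = ∑ s ∈ DD F, ∑ a ∈ F, ∑ t ∈ DD F', ∑ b ∈ F', (if a.α = s then (if b.α = t then
          r a * r' b * (P.c a.α b.α * inner ℝ (jj P a) (jj P b)) else 0) else 0) :=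
        Finset.sum_congr rfl fun s _ => Finset.sum_comm
    _ = ∑ a ∈ F, ∑ s ∈ DD F, ∑ t ∈ DD F', ∑ b ∈ F', (if a.α = s then (if b.α = t then
          r a * r' b * (P.c a.α b.α * inner ℝ (jj P a) (jj P b)) else 0) else 0) :=
        Finset.sum_comm
    _ = ∑ a ∈ F, ∑ b ∈ F', r a * r' b * (P.c a.α b.α * inner ℝ (jj P a) (jj P b)) := by
        refine Finset.sum_congr rfl fun a ha => ?_
        have e1 : ∑ s ∈ DD F, ∑ t ∈ DD F', ∑ b ∈ F', (if a.α = s then (if b.α = t then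
          r a * r' b * (P.c a.α b.α * inner ℝ (jj P a) (jj P b)) else 0) else 0)
          = ∑ s ∈ DD F, (if a.α = s then ∑ t ∈ DD F', ∑ b ∈ F', (if b.α = t then
          r a * r' b * (P.c a.α b.α * inner ℝ (jj P a) (jj P b)) else 0) else 0) := by
          refine Finset.sum_congr rfl fun s _ => ?_
          by_cases h : a.α = s
          · simp only [if_pos h]
          · simp only [if_neg h, Finset.sum_const_zero]
        rw [e1, Finset.sum_ite_eq, if_pos (AA_fv_sub ha).1, Finset.sum_comm]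
        refine Finset.sum_congr rfl fun b hb => ?_
        rw [Finset.sum_ite_eq, if_pos (AA_fv_sub hb).1]

theorem AA_fv (F F' : Finset (Atom I)) (r r' : Atom I → ℝ) :
    AA P (fv F r) (fv F' r') =
      (∑ s ∈ DD F, (U s (fv F r) * W s (fv F' r') + U s (fv F' r') * W s (fv F r))) +
        ∑ s ∈ DD F, ∑ t ∈ DD F', P.c s t * inner ℝ (ff P F r s) (ff P F' r' t) := by
  rw [AA_fv_A, AA_fv_ff]
  have h1 : ∑ s ∈ DD F, (U s (fv F r) * W s (fv F' r') + U s (fv F' r') * W s (fv F r))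
      = ∑ a ∈ F, ∑ b ∈ F', r a * r' b * (M1 a b + M1 b a) := by
    simp_rw [AA_fv_U, AA_fv_W]
    have e1 : ∀ s, (∑ a ∈ F, r a * uu s a) * (∑ b ∈ F', r' b * ww s b)
        + (∑ b ∈ F', r' b * uu s b) * (∑ a ∈ F, r a * ww s a)
        = ∑ a ∈ F, ∑ b ∈ F', r a * r' b * (uu s a * ww s b + uu s b * ww s a) := by
      intro s
      rw [mul_comm (∑ b ∈ F', r' b * uu s b), Finset.sum_mul_sum, Finset.sum_mul_sum,
        ← Finset.sum_add_distrib]
      refine Finset.sum_congr rfl fun a _ => ?_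
      rw [← Finset.sum_add_distrib]
      refine Finset.sum_congr rfl fun b _ => ?_
      ring
    simp_rw [e1]
    rw [Finset.sum_comm]
    refine Finset.sum_congr rfl fun a ha => ?_
    rw [Finset.sum_comm]
    refine Finset.sum_congr rfl fun b _ => ?_
    rw [← Finset.mul_sum, Finset.sum_add_distrib, M1_eq a b (AA_fv_sub ha).2,
      M1_eq' b a (AA_fv_sub ha).2]
  rw [h1, ← Finset.sum_add_distrib]
  refine Finset.sum_congr rfl fun a _ => ?_
  rw [← Finset.sum_add_distrib]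
  refine Finset.sum_congr rfl fun b _ => ?_
  unfold MM
  ring

theorem caseB (hI : Om I) (hc : CoreProp HH P.c) (hiso : IsoProp P.h) (N : Submodule ℝ (XX P))
    (hN : ∀ t, mk P t ∈ N → AA P t t = 0) :
    ∃ δ, ∀ t, mk P t ∈ N → ∀ s α, δ ≤ α → V P t (s, α) = 0 := by
  by_contra hcon
  push Not at hcon
  have hmain : ∀ ν : I, ∃ (t : L1 (Atom I)) (s α : I), mk P t ∈ N ∧ ν ≤ α ∧ V P t (s, α) = 1 := by
    intro ν
    obtain ⟨t, ht, s, α, hα, hne⟩ := hcon ν
    refine ⟨(V P t (s, α))⁻¹ • t, s, α, ?_, hα, ?_⟩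
    · have : mk P ((V P t (s, α))⁻¹ • t) = (V P t (s, α))⁻¹ • mk P t := rfl
      rw [this]; exact N.smul_mem _ ht
    · rw [map_smul]
      change (V P t (s, α))⁻¹ * V P t (s, α) = 1
      exact inv_mul_cancel₀ hne
  choose t s α htN hνα hV1 using hmain
  choose κ' hκ' ε' hε' hprop using fun ν => hiso (V P (t ν)) (s ν, α ν) (hV1 ν)
  have hF : ∀ ν : I, ∃ k : ℕ × ℕ, ‖t ν‖ ≤ k.1 ∧ 1 / ((k.2 : ℝ) + 1) ≤ κ' ν ∧
      1 / ((k.2 : ℝ) + 1) ≤ ε' ν := by
    intro ν
    obtain ⟨M, hM⟩ := exists_nat_ge ‖t ν‖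
    obtain ⟨n, hn⟩ := exists_nat_one_div_lt (lt_min (hκ' ν) (hε' ν))
    exact ⟨(M, n), hM, (hn.le.trans (min_le_left _ _)), (hn.le.trans (min_le_right _ _))⟩
  choose F hFM hFκ hFε using hF
  obtain ⟨k, hk⟩ := pigeon hI.2 F
  set S : Set I := {ν ∈ (univ : Set I) | F ν = k} with hS
  set κ : ℝ := 1 / ((k.2 : ℝ) + 1) with hκdef
  have hκ : 0 < κ := by positivity
  have hSM : ∀ ν ∈ S, ‖t ν‖ ≤ k.1 := by
    intro ν hν; have := hFM ν; rw [hν.2] at this; exact this
  have hSκ : ∀ ν ∈ S, κ ≤ κ' ν := by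
    intro ν hν; have := hFκ ν; rw [hν.2] at this; exact this
  have hSε : ∀ ν ∈ S, κ ≤ ε' ν := by
    intro ν hν; have := hFε ν; rw [hν.2] at this; exact this
  have hAA0 : ∀ ν ν', AA P (t ν) (t ν') = 0 := by
    intro ν ν'
    have h1 := hN _ (htN ν)
    have h2 := hN _ (htN ν')
    have h3 : mk P (t ν + t ν') ∈ N := by
      have : mk P (t ν + t ν') = mk P (t ν) + mk P (t ν') := rfl
      rw [this]; exact N.add_mem (htN ν) (htN ν')
    have h4 := hN _ h3
    rw [map_add, map_add, _root_.add_apply, _root_.add_apply,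
      h1, h2, AA_symm P (t ν') (t ν)] at h4
    linarith
  set M : ℝ := (k.1 : ℝ) with hMdef
  have hM0 : 0 ≤ M := Nat.cast_nonneg _
  set A : ℝ := ‖AA P‖ with hAdef
  have hA0 : 0 ≤ A := norm_nonneg (AA P)
  set η : ℝ := min 1 (min (κ / 2) (κ ^ 2 / (4 * (A + 1) * (2 * M + 1)))) with hη
  have hη0 : 0 < η := by
    refine lt_min one_pos (lt_min (by positivity) (by positivity))
  have hη1 : η ≤ 1 := min_le_left _ _
  have hη2 : 2 * η ≤ κ := by
    have : η ≤ κ / 2 := (min_le_right _ _).trans (min_le_left _ _)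
    linarith
  have hη3 : A * η * (2 * M + 1) ≤ κ ^ 2 / 4 := by
    have h1 : η ≤ κ ^ 2 / (4 * (A + 1) * (2 * M + 1)) :=
      (min_le_right _ _).trans (min_le_right _ _)
    rw [le_div_iff₀ (by positivity)] at h1
    have h2 : 0 ≤ η * (2 * M + 1) := by positivity
    nlinarith
  choose G hG using fun ν => l1_approx (t ν) hη0
  let x : I → L1 (Atom I) := fun ν => fv (G ν) (fun a => t ν a)
  have hx : ∀ ν, ‖t ν - x ν‖ ≤ η := fun ν => hG ν
  have hest : ∀ ν ∈ S, ∀ ν' ∈ S, |AA P (x ν) (x ν')| ≤ κ ^ 2 / 4 := by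
    intro ν hν ν' hν'
    have e1 : AA P (x ν) (x ν') = AA P (x ν - t ν) (x ν') + AA P (t ν) (x ν' - t ν') := by
      rw [map_sub, map_sub, _root_.sub_apply, hAA0 ν ν']; ring
    have n1 : ‖x ν - t ν‖ ≤ η := by rw [norm_sub_rev]; exact hx ν
    have n2 : ‖x ν' - t ν'‖ ≤ η := by rw [norm_sub_rev]; exact hx ν'
    have n3 : ‖x ν'‖ ≤ M + 1 := by
      have : x ν' = (x ν' - t ν') + t ν' := by abel
      rw [this]
      refine (norm_add_le _ _).trans ?_
      have := hSM ν' hν'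
      linarith
    have b1 : ‖AA P (x ν - t ν) (x ν')‖ ≤ A * η * (M + 1) := by
      refine ((AA P).le_opNorm₂ _ _).trans ?_
      gcongr
    have b2 : ‖AA P (t ν) (x ν' - t ν')‖ ≤ A * M * η := by
      refine ((AA P).le_opNorm₂ _ _).trans ?_
      have := hSM ν hν
      gcongr
    rw [Real.norm_eq_abs] at b1 b2
    rw [e1]
    refine (abs_add_le _ _).trans ?_
    nlinarith
  have hcore := hc S hk (fun ν => DD (G ν)) (fun ν σ => U σ (x ν)) (fun ν σ => W σ (x ν))
    (fun ν σ => ff P (G ν) (fun a => t ν a) σ) α κ hκ ?_ ?_ ?_ (κ ^ 2) (by positivity)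
  · obtain ⟨γ, hγ, δ, hδ, γ', hγ', δ', hδ', hle⟩ := hcore
    have hQ : ∀ a b, QQ P.c (fun ν => DD (G ν)) (fun ν σ => U σ (x ν)) (fun ν σ => W σ (x ν))
        (fun ν σ => ff P (G ν) (fun a => t ν a) σ) a b = AA P (x a) (x b) := by
      intro a b
      rw [QQ]
      exact (AA_fv P (G a) (G b) (fun c => t a c) (fun c => t b c)).symm
    rw [hQ, hQ] at hle
    have h1 := abs_le.1 (hest γ hγ δ hδ)
    have h2 := abs_le.1 (hest γ' hγ' δ' hδ')
    have : 0 < κ ^ 2 := by positivity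
    linarith [h1.2, h2.1]
  · intro ν _ σ hσ
    exact ⟨U_fv_zero _ _ hσ, W_fv_zero _ _ hσ, ff_zero P _ _ hσ⟩
  · intro θ
    refine (hI.1 θ).mono ?_
    rintro ν ⟨_, hν⟩
    exact lt_of_le_of_lt (hνα ν) hν
  · intro ν hν E hE
    have h1 := hprop ν (V P (x ν)) ?_ (PF (G ν)) (fun π hπ => V_fv_zero P _ _ hπ) E hE
    · refine (hSκ ν hν).trans (h1.trans (le_of_eq ?_))
      rw [ff_sum]
      first
        | rfl
        | (congr! 3)
    · rw [← map_sub]
      refine (V_norm P _).trans ?_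
      rw [norm_sub_rev]
      have := hx ν
      have := hSε ν hν
      linarith

end

theorem main :
    ¬ (∀ (X : Type) [NormedAddCommGroup X] [NormedSpace ℝ X] [CompleteSpace X],
      Xor' (∃ B : X →L[ℝ] X →L[ℝ] ℝ, ∀ x : X, x ≠ 0 → 0 < B x x)
        (∀ B : X →L[ℝ] X →L[ℝ] ℝ, ∃ V : Submodule ℝ X,
          ¬ TopologicalSpace.IsSeparable (V : Set X) ∧ ∀ x ∈ V, B x x = 0)) := by
  intro hall
  haveI := HH_sep
  obtain ⟨I, i1, i2, c, ρ, hI, hρ, hcc, hca, hcore⟩ := exists_core HH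
  obtain ⟨h, hh, hiso⟩ := exists_h ρ hρ
  obtain ⟨τ, hτ, hτs⟩ := exists_tau hI.1
  let P : Par I := ⟨c, hcc, hca, τ, hτ, hτs, h, hh⟩
  obtain ⟨B, hB⟩ := exists_quot_bil (KK P) (AA P) (fun t ht t' => AA_ker P ht t')
    (fun t ht t' => by rw [AA_symm]; exact AA_ker P ht t')
  rcases hall (XX P) with h1 | h1
  · exact no_posdef P hI h1.1
  · obtain ⟨N, hN1, hN2⟩ := h1.1 B
    have hN : ∀ t, mk P t ∈ N → AA P t t = 0 := by
      intro t ht
      rw [← hB t t]
      exact hN2 _ ht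
    obtain ⟨δ, hδ⟩ := caseB P hI hcore hiso N hN
    exact hN1 (caseA P hI N hN δ hδ)

end Pool.Agent.Helper737.QF
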